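import Pool.Agent.Helper82.TY.Pop
import Pool.Agent.Helper79.CV.Enc

/-!
MP_8ee768_co, project TH-Y': cardinality, `cnt` and the odd cover test on colex codes.
-/

set_option autoImplicit false

namespace Pool.Agent.Helper82.TY

open Finset
open Pool.Agent.Helper89.CV (OddCover ofMask)
open Pool.Agent.Helper97.CV Pool.Agent.Helper79.CV

theorem choose_le_2048 {n : ℕ} (hn : n ≤ 13) (k : ℕ) : n.choose k ≤ 2048 := by
  refine (Nat.choose_le_middle k n).trans ?_
  interval_cases n <;> decide

theorem enc_lt_2048 {n : ℕ} (hn : n ≤ 13) (k : ℕ) (D : Finset (Finset (Fin 13))) :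
    enc n k D < 2 ^ 2048 :=
  lt_of_lt_of_le (enc_lt n k D) (Nat.pow_le_pow_right (by norm_num) (choose_le_2048 hn k))

/-- the size of a family is the population count of its code -/
theorem card_eq_popc {n k : ℕ} (hn : n ≤ 13) {D : Finset (Finset (Fin 13))}
    (hD : ∀ s ∈ D, Sub n k s) : D.card = popc (enc n k D) := by
  unfold popc
  refine card_bij (fun s _ => rk n k s) ?_ ?_ ?_
  · intro s hs
    have h := hD s hs
    have h1 := rk_lt hn h
    rw [length_L] at h1
    rw [mem_filter, mem_range, testBit_enc_rk hn D h, decide_eq_true_eq]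
    exact ⟨lt_of_lt_of_le h1 (choose_le_2048 hn k), hs⟩
  · intro s hs t ht hst
    have h1 := ofMask_getElem_rk hn (hD s hs)
    have h2 := ofMask_getElem_rk hn (hD t ht)
    rw [← h1, ← h2]
    simp only [hst]
  · intro i hi
    rw [mem_filter] at hi
    have hlt : i < (L n k).length := by
      by_contra hcon
      rw [testBit_enc_ge D (by omega)] at hi
      exact Bool.false_ne_true hi.2
    refine ⟨ofMask ((L n k)[i]), ?_, rk_getElem hn hlt⟩
    have h1 := testBit_enc D hlt
    rw [hi.2] at h1
    exact of_decide_eq_true h1.symm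

theorem card_eq_pop {n k : ℕ} (hn : n ≤ 13) {D : Finset (Finset (Fin 13))}
    (hD : ∀ s ∈ D, Sub n k s) : D.card = pop (enc n k D) := by
  rw [card_eq_popc hn hD, pop_eq (enc_lt_2048 hn k D)]

/-- bit `i` is `p l[i]` -/
def bits (p : ℕ → Bool) : List ℕ → ℕ
  | [] => 0
  | m :: l => 2 * bits p l + (p m).toNat

theorem testBit_bits (p : ℕ → Bool) (l : List ℕ) (i : ℕ) :
    (bits p l).testBit i = if h : i < l.length then p l[i] else false := by
  induction l generalizing i with
  | nil => simp [bits]
  | cons m l ih =>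
    cases i with
    | zero =>
      simp only [bits, List.length_cons, Nat.zero_lt_succ, dite_true, List.getElem_cons_zero]
      cases p m
      · simp [Nat.testBit_zero]
      · simp [Nat.testBit_zero, Nat.add_mod]
    | succ i =>
      have h1 : (2 * bits p l + (p m).toNat).testBit (i + 1) = (bits p l).testBit i := by
        rw [Nat.testBit_succ]
        congr 1
        have := Bool.toNat_lt (p m)
        omega
      simp only [bits]
      rw [h1, ih]
      simp only [List.length_cons, Nat.add_lt_add_iff_right, List.getElem_cons_succ]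

/-- code of the `k`-subsets of `{0, .., n-1}` containing the set with mask `t` -/
def supM (n k t : ℕ) : ℕ := bits (fun m => Nat.beq (Nat.land m t) t) (L n k)

theorem enc_filter_sup {n k t : ℕ} (hn : n ≤ 13) (ht : t < 2 ^ 13)
    (D : Finset (Finset (Fin 13))) :
    enc n k (D.filter fun b => ofMask t ⊆ b) = enc n k D &&& supM n k t := by
  refine Nat.eq_of_testBit_eq fun i => ?_
  rw [Nat.testBit_and]
  unfold supM
  rw [testBit_bits]
  by_cases hi : i < (L n k).length
  · rw [dif_pos hi, testBit_enc _ hi, testBit_enc _ hi]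
    have h1 : (ofMask t ⊆ ofMask ((L n k)[i])) ↔ (L n k)[i] &&& t = t := by
      rw [ofMask_subset ht, Nat.land_comm]
    have h2 : Nat.beq (Nat.land ((L n k)[i]) t) t = decide (ofMask t ⊆ ofMask ((L n k)[i])) := by
      rw [Bool.eq_iff_iff, decide_eq_true_eq, h1]
      exact iff_of_eq Nat.beq_eq
    rw [h2, Bool.eq_iff_iff]
    simp only [mem_filter, decide_eq_true_eq, Bool.and_eq_true]
  · rw [dif_neg hi, testBit_enc_ge _ (by omega), testBit_enc_ge _ (by omega)]
    rfl

/-- `cnt` as a population count -/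
theorem cnt_eq_pop {n k t : ℕ} (hn : n ≤ 13) (ht : t < 2 ^ 13) {D : Finset (Finset (Fin 13))}
    (hD : ∀ s ∈ D, Sub n k s) : cnt D (ofMask t) = pop (Nat.land (enc n k D) (supM n k t)) := by
  unfold cnt
  rw [card_eq_pop hn (n := n) (k := k) (fun s hs => hD s (mem_filter.1 hs).1),
    enc_filter_sup hn ht]
  rfl

/-- the points below `n` -/
def below (n : ℕ) : Finset (Fin 13) := univ.filter fun i => i.val < n

theorem sub_iff_below {n k : ℕ} {s : Finset (Fin 13)} :
    Sub n k s ↔ s ⊆ below n ∧ s.card = k := by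
  unfold Pool.Agent.Helper79.CV.Sub
  rw [mk_lt_iff]
  refine and_congr_left fun _ => ?_
  unfold below
  constructor
  · intro h a ha
    exact mem_filter.2 ⟨mem_univ a, h a ha⟩
  · intro h a ha
    exact (mem_filter.1 (h ha)).2

/-- the test: every `k`-subset lies in an odd number of members -/
def oddTest (n k N : ℕ) : Bool :=
  (L n k).all fun t => Nat.beq (Nat.mod (pop (Nat.land N (supM n (k + 1) t))) 2) 1

theorem oddFam_iff {n k : ℕ} (hn : n ≤ 13) {D : Finset (Finset (Fin 13))} :
    OddFam k (below n) D ↔ (∀ s ∈ D, Sub n (k + 1) s) ∧ oddTest n k (enc n (k + 1) D) = true := by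
  unfold OddFam oddTest
  have h0 : (∀ b ∈ D, b ⊆ below n ∧ b.card = k + 1) ↔ ∀ s ∈ D, Sub n (k + 1) s :=
    forall₂_congr fun s _ => sub_iff_below.symm
  rw [h0]
  refine and_congr_right fun hD => ?_
  rw [List.all_eq_true]
  constructor
  · intro h t ht
    have h1 := (mem_L hn).1 ht
    have ht13 : t < 2 ^ 13 := lt_of_lt_of_le h1.1 (Nat.pow_le_pow_right (by norm_num) hn)
    have h2 : Sub n k (ofMask t) := ⟨by rw [mk_ofMask ht13]; exact h1.1, h1.2⟩
    have h3 := h (ofMask t) (sub_iff_below.1 h2).1 h1.2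
    rw [cnt_eq_pop hn ht13 hD, Nat.odd_iff] at h3
    exact (iff_of_eq Nat.beq_eq).2 h3
  · intro h s hs hk
    have h2 : Sub n k s := sub_iff_below.2 ⟨hs, hk⟩
    have h3 := h (mk s) (h2.mem_L hn)
    have h4 := cnt_eq_pop hn (mk_lt s) hD
    rw [ofMask_mk] at h4
    rw [h4, Nat.odd_iff]
    exact (iff_of_eq Nat.beq_eq).1 h3

/-- code form of the test -/
theorem oddFam_fam_iff {n k N : ℕ} (hn : n ≤ 13) (hN : N < 2 ^ n.choose (k + 1)) :
    OddFam k (below n) (fam n (k + 1) N) ↔ oddTest n k N = true := by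
  rw [oddFam_iff hn, enc_fam hn hN]
  exact ⟨fun h => h.2, fun h => ⟨fun s hs => sub_of_mem_fam hn hs, h⟩⟩

/-- odd covers by codes -/
theorem oddCover_iff {B : Finset (Finset (Fin 13))} :
    OddCover B ↔ (∀ s ∈ B, Sub 13 5 s) ∧ oddTest 13 4 (enc 13 5 B) = true := by
  rw [← oddFam_iff (le_refl 13), ← oddFam_univ]
  have : below 13 = univ := by
    ext i
    unfold below
    simp only [mem_filter, mem_univ, true_and, iff_true]
    exact i.isLt
  rw [this]

end Pool.Agent.Helper82.TY
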