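import Pool.Agent.Helper82.TY.PopEnc

/-!
MP_8ee768_co, project TH-Y': the population count with raw operations for the kernel.
-/

set_option autoImplicit false

namespace Pool.Agent.Helper82.TY

open Pool.Agent.Helper63.SIMD

/-- mask of the lower halves of the fields of width 2 -/
def mk1 : ℕ :=
  0x55555555555555555555555555555555555555555555555555555555555555555555555555555555555555555555555555555555555555555555555555555555555555555555555555555555555555555555555555555555555555555555555555555555555555555555555555555555555555555555555555555555555555555555555555555555555555555555555555555555555555555555555555555555555555555555555555555555555555555555555555555555555555555555555555555555555555555555555555555555555555555555555555555555555555555555555555555555555555555555555555555555555555555555555555555555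

/-- mask of the lower halves of the fields of width 4 -/
def mk2 : ℕ :=
  0x33333333333333333333333333333333333333333333333333333333333333333333333333333333333333333333333333333333333333333333333333333333333333333333333333333333333333333333333333333333333333333333333333333333333333333333333333333333333333333333333333333333333333333333333333333333333333333333333333333333333333333333333333333333333333333333333333333333333333333333333333333333333333333333333333333333333333333333333333333333333333333333333333333333333333333333333333333333333333333333333333333333333333333333333333333333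

/-- mask of the lower halves of the fields of width 8 -/
def mk4 : ℕ :=
  0xf0f0f0f0f0f0f0f0f0f0f0f0f0f0f0f0f0f0f0f0f0f0f0f0f0f0f0f0f0f0f0f0f0f0f0f0f0f0f0f0f0f0f0f0f0f0f0f0f0f0f0f0f0f0f0f0f0f0f0f0f0f0f0f0f0f0f0f0f0f0f0f0f0f0f0f0f0f0f0f0f0f0f0f0f0f0f0f0f0f0f0f0f0f0f0f0f0f0f0f0f0f0f0f0f0f0f0f0f0f0f0f0f0f0f0f0f0f0f0f0f0f0f0f0f0f0f0f0f0f0f0f0f0f0f0f0f0f0f0f0f0f0f0f0f0f0f0f0f0f0f0f0f0f0f0f0f0f0f0f0f0f0f0f0f0f0f0f0f0f0f0f0f0f0f0f0f0f0f0f0f0f0f0f0f0f0f0f0f0f0f0f0f0f0f0f0f0f0f0f0f0f0f0f0f0f0f0f0f0f0f0f0f0f0f0f0f0f0f0f0f0f0f0f0f0f0f0f0f0f0f0f0f0f0f0f0f0f0f0f0f0f0f0f0f0f0f0f0f0f0f0f0f0f0f0f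

/-- mask of the lower halves of the fields of width 16 -/
def mk8 : ℕ :=
  0xff00ff00ff00ff00ff00ff00ff00ff00ff00ff00ff00ff00ff00ff00ff00ff00ff00ff00ff00ff00ff00ff00ff00ff00ff00ff00ff00ff00ff00ff00ff00ff00ff00ff00ff00ff00ff00ff00ff00ff00ff00ff00ff00ff00ff00ff00ff00ff00ff00ff00ff00ff00ff00ff00ff00ff00ff00ff00ff00ff00ff00ff00ff00ff00ff00ff00ff00ff00ff00ff00ff00ff00ff00ff00ff00ff00ff00ff00ff00ff00ff00ff00ff00ff00ff00ff00ff00ff00ff00ff00ff00ff00ff00ff00ff00ff00ff00ff00ff00ff00ff00ff00ff00ff00ff00ff00ff00ff00ff00ff00ff00ff00ff00ff00ff00ff00ff00ff00ff00ff00ff00ff00ff00ff00ff00ff00ff00ff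

/-- call by value on numbers -/
def force {α : Type} (E : ℕ) (f : ℕ → α) : α := @Nat.rec (fun _ => α) (f 0) (fun m _ => f (Nat.succ m)) E

theorem force_eq {α : Type} (E : ℕ) (f : ℕ → α) : force E f = f E := by
  unfold force
  cases E <;> rfl

/-- raw population count, for numbers `< 2 ^ 2048` -/
def popR (x : ℕ) : ℕ :=
  force x fun x =>
  force (Nat.add (Nat.land x mk1) (Nat.land (Nat.shiftRight x 1) mk1)) fun x =>
  force (Nat.add (Nat.land x mk2) (Nat.land (Nat.shiftRight x 2) mk2)) fun x =>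
  force (Nat.add (Nat.land x mk4) (Nat.land (Nat.shiftRight x 4) mk4)) fun x =>
  Nat.mod (Nat.add (Nat.land x mk8) (Nat.land (Nat.shiftRight x 8) mk8)) 65535

theorem mk1_eq : (2 ^ 1 - 1) * rep (2 * 1) 1024 = mk1 := by decide +kernel
theorem mk2_eq : (2 ^ 2 - 1) * rep (2 * 2) 512 = mk2 := by decide +kernel
theorem mk4_eq : (2 ^ 4 - 1) * rep (2 * 4) 256 = mk4 := by decide +kernel
theorem mk8_eq : (2 ^ 8 - 1) * rep (2 * 8) 128 = mk8 := by decide +kernel

theorem popR_eq_pop (x : ℕ) : popR x = pop x := by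
  unfold popR pop merge
  simp only [force_eq]
  rw [mk1_eq, mk2_eq, mk4_eq, mk8_eq]
  rfl

theorem popR_eq {x : ℕ} (hx : x < 2 ^ 2048) : popR x = popc x := by
  rw [popR_eq_pop, pop_eq hx]

end Pool.Agent.Helper82.TY
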