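import Pool.Agent.Helper82.TY.Cone
import Pool.Agent.Helper79.CV.Link
import Pool.Agent.Helper4.CV.Min

/-!
MP_8ee768_co, project TH-Y': the case `p(U) = 3`, and relabelling of the points.
-/

set_option autoImplicit false

namespace Pool.Agent.Helper82.TY

open Finset Pool.Agent.Helper89.CV Pool.Agent.Helper97.CV Pool.Agent.Helper79.CV

/-- a 5-set with three quads of the link of `x`: one of the three missing points is lower -/
theorem Best.p_eq_three {B : Finset (Finset (Fin 13))} (hB : Best B) {x : Fin 13}
    {U : Finset (Fin 13)} (hU : U.card = 5) (hx : x ∉ U)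
    (h3 : 3 ≤ (link B x ∩ U.powersetCard 4).card) :
    ∃ u ∈ U, U.erase u ∈ link B x ∧ MM B u + 2 ≤ MM B x := by
  have hx' : ∀ V ∈ ({U} : Finset (Finset (Fin 13))), x ∉ V := by simp [hx]
  have hc5 : (U.powersetCard 4).card = 5 := by
    rw [card_powersetCard, hU]
    rfl
  obtain ⟨h0, u, hu1, hu2⟩ := hB.gain_zero (x := x) (W := {U}) (by simp [hU]) hx'
    (singleton_nonempty U) (by rw [bd_singleton, card_singleton, hc5]; omega)
  rw [card_singleton] at hu2
  have hle := hB.p_le hU hx
  have hUB : U ∉ B := by
    intro h
    have : U ∈ B ∩ {U} := mem_inter.2 ⟨h, mem_singleton_self U⟩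
    rw [h0] at this
    exact notMem_empty U this
  rw [if_neg hUB, add_zero] at hle
  -- the members of the cone
  have hcone : ∀ b ∈ cone x {U}, b ⊆ insert x U := by
    intro b hb
    unfold cone at hb
    rcases mem_union.1 hb with h | h
    · rw [mem_singleton.1 h]
      exact subset_insert x U
    · obtain ⟨q, hq, rfl⟩ := mem_image.1 h
      rw [bd_singleton, mem_powersetCard] at hq
      exact insert_subset_insert x hq.1
  have huU : u ∈ insert x U := by
    by_contra hcon
    have : cnt (cone x {U}) {u} = 0 := by
      unfold cnt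
      rw [card_eq_zero, filter_eq_empty_iff]
      intro b hb h
      exact hcon (hcone b hb (singleton_subset_iff.1 h))
    omega
  have hux : u ≠ x := by
    rintro rfl
    rw [cnt_cone hx', cnt_inter_cone hx', bd_singleton, hc5] at hu1
    omega
  have huU' : u ∈ U := (mem_insert.1 huU).resolve_left hux
  refine ⟨u, huU', ?_, hu2⟩
  by_contra hcon
  -- all three quads contain u
  have hA : (link B x ∩ U.powersetCard 4).image (insert x) ⊆
      (B ∩ cone x {U}).filter (fun b => {u} ⊆ b) := by
    intro b hb
    obtain ⟨q, hq, rfl⟩ := mem_image.1 hb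
    rw [mem_inter, mem_powersetCard] at hq
    have huq : u ∈ q := by
      by_contra huq
      have : q = U.erase u := by
        refine eq_of_subset_of_card_le ?_ ?_
        · intro v hv
          exact mem_erase.2 ⟨fun h => huq (h ▸ hv), hq.2.1 hv⟩
        · rw [card_erase_of_mem huU', hU, hq.2.2]
      exact hcon (this ▸ hq.1)
    rw [mem_filter, mem_inter]
    refine ⟨⟨(mem_link.1 hq.1).2, ?_⟩, singleton_subset_iff.2 (mem_insert_of_mem huq)⟩
    unfold cone
    refine mem_union_right _ (mem_image.2 ⟨q, ?_, rfl⟩)
    rw [bd_singleton, mem_powersetCard]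
    exact hq.2
  have hcA : 3 ≤ cnt (B ∩ cone x {U}) {u} := by
    unfold cnt
    refine le_trans ?_ (card_le_card hA)
    rw [card_image_of_injOn]
    · exact h3
    · intro a ha b hb hab
      rw [mem_coe, mem_inter, mem_powersetCard] at ha hb
      have h1 : x ∉ a := fun h => hx (ha.2.1 h)
      have h2 : x ∉ b := fun h => hx (hb.2.1 h)
      rw [← erase_insert h1, ← erase_insert h2, hab]
  have hcC : cnt (cone x {U}) {u} ≤ 5 := by
    have h1 : cnt (cone x {U}) {u} < (cone x {U}).card := by
      unfold cnt
      refine card_lt_card ?_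
      rw [filter_ssubset]
      refine ⟨insert x (U.erase u), ?_, ?_⟩
      · unfold cone
        refine mem_union_right _ (mem_image.2 ⟨U.erase u, ?_, rfl⟩)
        rw [bd_singleton, mem_powersetCard, card_erase_of_mem huU', hU]
        exact ⟨erase_subset u U, rfl⟩
      · intro h
        rcases mem_insert.1 (singleton_subset_iff.1 h) with h1 | h1
        · exact hux h1
        · exact notMem_erase u U h1
    rw [card_cone hx', bd_singleton, hc5, card_singleton] at h1
    omega
  omega

/-! ### relabelling (helper79's `mapF`) -/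

theorem pot_mapF (σ : Equiv.Perm (Fin 13)) {B : Finset (Finset (Fin 13))}
    (hB : OddCover B) : pot (mapF σ B) = pot B := by
  unfold pot
  rw [← Equiv.sum_comp σ]
  exact sum_congr rfl fun z _ => by rw [MM_mapF hB]

theorem Best.map {B : Finset (Finset (Fin 13))} (hB : Best B) (σ : Equiv.Perm (Fin 13)) :
    Best (mapF σ B) := by
  refine ⟨oddCover_mapF hB.odd σ, ?_, ?_, ?_⟩
  · rw [card_mapF]
    exact hB.le
  · intro B' hB'
    rw [card_mapF]
    exact hB.min B' hB'
  · intro B' hB' hc
    rw [pot_mapF σ hB.odd]
    rw [card_mapF] at hc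
    exact hB.pot_le B' hB' hc

/-- a best cover is good in the sense of helper4 -/
theorem Best.good {B : Finset (Finset (Fin 13))} (hB : Best B) : Pool.Agent.Helper4.CV.Good B := by
  have hC : ∀ W : Finset (Fin 13), W.card = 6 → EvenCover (W.powersetCard 5) := by
    intro W hW
    exact ⟨fun b hb => (mem_powersetCard.1 hb).2,
      fun q hq => Pool.Agent.Helper4.CV.even_star W q hW hq⟩
  refine ⟨hB.odd, hB.le, ?_, ?_⟩
  · intro W hW
    have h1 := hB.inter_le (hC W hW)
    rw [Pool.Agent.Helper4.CV.inter_powersetCard hB.odd, card_powersetCard, hW] at h1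
    have h2 : Nat.choose 6 5 = 6 := rfl
    omega
  · intro W hW h3 w hw hall
    have hcW : (W.powersetCard 5).card = 6 := by
      rw [card_powersetCard, hW]
      rfl
    have hI : (B ∩ W.powersetCard 5).card = 3 := by
      rw [Pool.Agent.Helper4.CV.inter_powersetCard hB.odd, h3]
    have hw5 : cnt (W.powersetCard 5) {w} = 5 := Pool.Agent.Helper4.CV.card_star_mem hW hw
    have hcnt : ∀ v, (∀ b ∈ B, b ⊆ W → v ∈ b) → cnt (B ∩ W.powersetCard 5) {v} = 3 := by
      intro v hv
      unfold cnt
      rw [filter_true_of_mem, hI]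
      intro b hb
      rw [mem_inter, mem_powersetCard] at hb
      exact singleton_subset_iff.2 (hv b hb.1 hb.2.1)
    have hw3 := hcnt w hall
    obtain ⟨u, hu1, hu2⟩ := hB.flip_up (hC W hW) (z := w) (by omega) (by omega)
    have huW : u ∈ W := by
      by_contra hcon
      have : cnt (W.powersetCard 5) {u} = 0 := by
        unfold cnt
        rw [card_eq_zero, filter_eq_empty_iff]
        intro b hb h
        exact hcon ((mem_powersetCard.1 hb).1 (singleton_subset_iff.1 h))
      omega
    have hu5 : cnt (W.powersetCard 5) {u} = 5 := Pool.Agent.Helper4.CV.card_star_mem hW huW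
    refine ⟨u, huW, ?_, ?_⟩
    · by_contra hcon
      push Not at hcon
      have := hcnt u hcon
      omega
    · have h1 := two_cnt_point hB.odd u
      have h2 := two_cnt_point hB.odd w
      omega

end Pool.Agent.Helper82.TY
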