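import Pool.Agent.Helper82.TY.Relabel

/-!
MP_8ee768_co, project TH-Y': relative forms of the minimal cover WLOG (second vertex, pairs of
vertices, triangles in a 6-set) and the sorted relabelling.
-/

set_option autoImplicit false

namespace Pool.Agent.Helper82.TY

open Finset Pool.Agent.Helper89.CV Pool.Agent.Helper97.CV Pool.Agent.Helper79.CV

/-- number of quads of the link of `x` inside `U` -/
def pU (B : Finset (Finset (Fin 13))) (x : Fin 13) (U : Finset (Fin 13)) : ℕ :=
  (link B x ∩ U.powersetCard 4).card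

/-- general relative form: if all points outside `L` are at least as high as `y`, a 5-set with
three quads of the link of `y` has a missing point in `L` which is lower than `y` -/
theorem Best.p_rel_set {B : Finset (Finset (Fin 13))} (hB : Best B) {y : Fin 13}
    {L U : Finset (Fin 13)} (hL : ∀ u, u ∉ L → MM B y ≤ MM B u) (hU : U.card = 5) (hy : y ∉ U)
    (h3 : 3 ≤ pU B y U) : ∃ u ∈ L, u ∈ U ∧ U.erase u ∈ link B y ∧ MM B u + 2 ≤ MM B y := by
  obtain ⟨u, huU, hul, hum⟩ := hB.p_eq_three hU hy h3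
  refine ⟨u, ?_, huU, hul, hum⟩
  by_contra hcon
  have := hL u hcon
  omega

/-- second vertex form: `x` is the only point lower than `y` -/
theorem Best.p_rel {B : Finset (Finset (Fin 13))} (hB : Best B) {x y : Fin 13}
    {U : Finset (Fin 13)} (hx : ∀ u, u ≠ x → MM B y ≤ MM B u) (hU : U.card = 5) (hy : y ∉ U)
    (h3 : 3 ≤ pU B y U) : x ∈ U ∧ U.erase x ∈ link B y := by
  obtain ⟨u, hu, huU, hul, _⟩ := hB.p_rel_set (L := {x})
    (fun u hu => hx u (fun h => hu (mem_singleton.2 h))) hU hy h3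
  rw [mem_singleton] at hu
  subst hu
  exact ⟨huU, hul⟩

/-- the other 5-sets have `p ≤ 2` -/
theorem Best.p_le_two_rel {B : Finset (Finset (Fin 13))} (hB : Best B) {x y : Fin 13}
    {U : Finset (Fin 13)} (hx : ∀ u, u ≠ x → MM B y ≤ MM B u) (hU : U.card = 5) (hy : y ∉ U)
    (h : x ∉ U ∨ U.erase x ∉ link B y) : pU B y U ≤ 2 := by
  by_contra hcon
  obtain ⟨h1, h2⟩ := hB.p_rel hx hU hy (by omega)
  rcases h with h | h
  · exact h h1
  · exact h h2

theorem Best.pU_le {B : Finset (Finset (Fin 13))} (hB : Best B) {x : Fin 13}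
    {U : Finset (Fin 13)} (hU : U.card = 5) (hx : x ∉ U) : pU B x U ≤ 3 := by
  have := hB.p_le hU hx
  unfold pU
  omega

/-! ### the double cone over a 5-set -/

/-- the sum of the boundaries of `U ∪ {x}` and `U ∪ {y}` -/
def dcone (x y : Fin 13) (U : Finset (Fin 13)) : Finset (Finset (Fin 13)) :=
  (U.powersetCard 4).image (insert x) ∪ (U.powersetCard 4).image (insert y)

theorem aux_xor {E P Q : Prop} (h1 : E → ¬ P) (h2 : E → ¬ Q) (h3 : P → ¬ Q) :
    (P ∨ Q) ↔ ((E ∨ P) ∧ ¬ (E ∨ Q)) ∨ ((E ∨ Q) ∧ ¬ (E ∨ P)) := by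
  tauto

theorem dcone_eq {x y : Fin 13} {U : Finset (Fin 13)} (hx : x ∉ U) (hy : y ∉ U) (hxy : x ≠ y) :
    dcone x y U = symmDiff (cone x {U}) (cone y {U}) := by
  unfold dcone cone
  rw [bd_singleton]
  ext b
  simp only [mem_union, mem_image, mem_symmDiff, mem_singleton, mem_powersetCard]
  have hA : ∀ z, z ∉ U → b = U → ¬ ∃ q, (q ⊆ U ∧ q.card = 4) ∧ insert z q = b := by
    rintro z hz rfl ⟨q, _, hq⟩
    exact hz (hq ▸ mem_insert_self z q)
  have hD : (∃ q, (q ⊆ U ∧ q.card = 4) ∧ insert x q = b) →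
      ¬ ∃ q, (q ⊆ U ∧ q.card = 4) ∧ insert y q = b := by
    rintro ⟨q, hq, rfl⟩ ⟨r, hr, hrq⟩
    have h1 : x ∈ insert y r := hrq ▸ mem_insert_self x q
    rcases mem_insert.1 h1 with h2 | h2
    · exact hxy h2
    · exact hx (hr.1 h2)
  exact aux_xor (hA x hx) (hA y hy) hD

theorem even_dcone {x y : Fin 13} {U : Finset (Fin 13)} (hU : U.card = 5) (hx : x ∉ U)
    (hy : y ∉ U) (hxy : x ≠ y) : EvenCover (dcone x y U) := by
  rw [dcone_eq hx hy hxy]
  exact add_even (even_cone (by simp [hU]) (by simp [hx])) (even_cone (by simp [hU]) (by simp [hy]))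

theorem inter_image_card {x : Fin 13} {U : Finset (Fin 13)} (hx : x ∉ U)
    (B : Finset (Finset (Fin 13))) :
    (B ∩ (U.powersetCard 4).image (insert x)).card = pU B x U := by
  have h := card_inter_image (W := {U}) (x := x) (by simp [hx]) B
  rw [bd_singleton] at h
  exact h

theorem disjoint_images {x y : Fin 13} {U : Finset (Fin 13)} (hx : x ∉ U) (hxy : x ≠ y) :
    Disjoint ((U.powersetCard 4).image (insert x)) ((U.powersetCard 4).image (insert y)) := by
  rw [disjoint_left]
  intro b hb hb'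
  obtain ⟨q, hq, rfl⟩ := mem_image.1 hb
  obtain ⟨r, hr, hrq⟩ := mem_image.1 hb'
  have h1 : x ∈ insert y r := hrq ▸ mem_insert_self x q
  rcases mem_insert.1 h1 with h2 | h2
  · exact hxy h2
  · exact hx ((mem_powersetCard.1 hr).1 h2)

theorem card_image_four {x : Fin 13} {U : Finset (Fin 13)} (hU : U.card = 5) (hx : x ∉ U) :
    ((U.powersetCard 4).image (insert x)).card = 5 := by
  rw [card_image_of_injOn, card_powersetCard, hU]
  · rfl
  · intro a ha b hb hab
    rw [mem_coe, mem_powersetCard] at ha hb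
    have h1 : x ∉ a := fun h => hx (ha.1 h)
    have h2 : x ∉ b := fun h => hx (hb.1 h)
    rw [← erase_insert h1, ← erase_insert h2, hab]

theorem card_dcone {x y : Fin 13} {U : Finset (Fin 13)} (hU : U.card = 5) (hx : x ∉ U)
    (hy : y ∉ U) (hxy : x ≠ y) : (dcone x y U).card = 10 := by
  unfold dcone
  rw [card_union_of_disjoint (disjoint_images hx hxy), card_image_four hU hx, card_image_four hU hy]

theorem card_inter_dcone {x y : Fin 13} {U : Finset (Fin 13)} (hx : x ∉ U)
    (hy : y ∉ U) (hxy : x ≠ y) (B : Finset (Finset (Fin 13))) :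
    (B ∩ dcone x y U).card = pU B x U + pU B y U := by
  unfold dcone
  rw [inter_union_distrib_left, card_union_of_disjoint, inter_image_card hx, inter_image_card hy]
  exact (disjoint_images hx hxy).mono inter_subset_right inter_subset_right

/-- two vertices: `p_x(U) + p_y(U) ≤ 5` -/
theorem Best.p_add_le {B : Finset (Finset (Fin 13))} (hB : Best B) {x y : Fin 13}
    {U : Finset (Fin 13)} (hU : U.card = 5) (hx : x ∉ U) (hy : y ∉ U) (hxy : x ≠ y) :
    pU B x U + pU B y U ≤ 5 := by
  have h1 := hB.inter_le (even_dcone hU hx hy hxy)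
  rw [card_inter_dcone hx hy hxy, card_dcone hU hx hy hxy] at h1
  omega

/-! ### sorted relabelling -/

/-- any injective list of points can be moved to any other -/
theorem exists_perm {k : ℕ} (f g : Fin k → Fin 13) (hf : Function.Injective f)
    (hg : Function.Injective g) : ∃ σ : Equiv.Perm (Fin 13), ∀ i, σ (f i) = g i := by
  classical
  let e1 : {x // x ∈ Set.range f} ≃ {x // x ∈ Set.range g} :=
    (Equiv.ofInjective f hf).symm.trans (Equiv.ofInjective g hg)
  refine ⟨e1.extendSubtype, fun i => ?_⟩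
  rw [Equiv.extendSubtype_apply_of_mem e1 (f i) ⟨i, rfl⟩]
  simp only [e1, Equiv.trans_apply]
  have : (Equiv.ofInjective f hf).symm ⟨f i, ⟨i, rfl⟩⟩ = i := by
    rw [Equiv.symm_apply_eq]
    rfl
  rw [this]
  rfl

/-- sorted form: point 12 has the smallest excess, then point 11, ... -/
theorem exists_best_sorted (h : ∃ B, OddCover B ∧ B.card ≤ 157) :
    ∃ B, Best B ∧ ∀ i j : Fin 13, i ≤ j → MM B j ≤ MM B i := by
  obtain ⟨B, hB⟩ := exists_best h
  let f : Fin 13 → ℕᵒᵈ := fun i => OrderDual.toDual (MM B i)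
  have hm := Tuple.monotone_sort f
  refine ⟨mapF (Tuple.sort f).symm B, hB.map _, ?_⟩
  intro i j hij
  have h1 : ∀ i, MM (mapF (Tuple.sort f).symm B) i = MM B (Tuple.sort f i) := by
    intro i
    have := MM_mapF hB.odd (Tuple.sort f).symm (Tuple.sort f i)
    rwa [Equiv.symm_apply_apply] at this
  rw [h1, h1]
  exact hm hij

end Pool.Agent.Helper82.TY
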