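import Pool.Agent.Helper79.CV.Linkage
import Pool.Agent.Helper33.CV.Cube

/-!
MP_8ee768_co, project TH-Y': the layers of a link.

`Lay D` is the family coded in the layered lanes: the members of `D` avoiding the apex `11`, the
triples contained in at least two members, the points of degree at least `21`, and the two binary
digits of `D.card - 57` at the sets `∅` and `{0, .., 10}`.
-/

set_option autoImplicit false

namespace Pool.Agent.Helper82.TY

open Finset
open Pool.Agent.Helper89.CV (OddCover ofMask)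
open Pool.Agent.Helper97.CV Pool.Agent.Helper79.CV

/-- the layers of a link with apex `11` -/
def Lay (D : Finset (Finset (Fin 13))) : Finset (Finset (Fin 13)) :=
  univ.filter fun s => mk s < 2048 ∧
    ((s.card = 4 ∧ s ∈ D) ∨ (s.card = 3 ∧ 2 ≤ cnt D s) ∨ (s.card = 1 ∧ 21 ≤ cnt D s) ∨
      (s.card = 0 ∧ (D.card + 7) % 2 = 1) ∨ (s.card = 11 ∧ (D.card + 7) / 2 % 2 = 1))

theorem mem_lay {D : Finset (Finset (Fin 13))} {s : Finset (Fin 13)} :
    s ∈ Lay D ↔ mk s < 2048 ∧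
      ((s.card = 4 ∧ s ∈ D) ∨ (s.card = 3 ∧ 2 ≤ cnt D s) ∨ (s.card = 1 ∧ 21 ≤ cnt D s) ∨
        (s.card = 0 ∧ (D.card + 7) % 2 = 1) ∨ (s.card = 11 ∧ (D.card + 7) / 2 % 2 = 1)) := by
  unfold Lay
  rw [mem_filter]
  exact ⟨fun h => h.2, fun h => ⟨mem_univ s, h⟩⟩

theorem lay_lt {D : Finset (Finset (Fin 13))} {s : Finset (Fin 13)} (h : s ∈ Lay D) :
    mk s < 2048 := (mem_lay.1 h).1

theorem mem_lay_four {D : Finset (Finset (Fin 13))} {s : Finset (Fin 13)} (h : s.card = 4) :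
    s ∈ Lay D ↔ mk s < 2048 ∧ s ∈ D := by
  rw [mem_lay, h]
  simp

theorem mem_lay_three {D : Finset (Finset (Fin 13))} {s : Finset (Fin 13)} (h : s.card = 3) :
    s ∈ Lay D ↔ mk s < 2048 ∧ 2 ≤ cnt D s := by
  rw [mem_lay, h]
  omega

theorem mem_lay_one {D : Finset (Finset (Fin 13))} {s : Finset (Fin 13)} (h : s.card = 1) :
    s ∈ Lay D ↔ mk s < 2048 ∧ 21 ≤ cnt D s := by
  rw [mem_lay, h]
  omega

theorem mem_lay_zero {D : Finset (Finset (Fin 13))} {s : Finset (Fin 13)} (h : s.card = 0) :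
    s ∈ Lay D ↔ (D.card + 7) % 2 = 1 := by
  rw [mem_lay, h]
  have h1 : mk s < 2048 := by
    rw [card_eq_zero] at h
    subst h
    decide
  omega

theorem mem_lay_eleven {D : Finset (Finset (Fin 13))} {s : Finset (Fin 13)} (h : s.card = 11) :
    s ∈ Lay D ↔ mk s < 2048 ∧ (D.card + 7) / 2 % 2 = 1 := by
  rw [mem_lay, h]
  omega

theorem card_of_mem_lay {D : Finset (Finset (Fin 13))} {s : Finset (Fin 13)} (h : s ∈ Lay D) :
    s.card = 0 ∨ s.card = 1 ∨ s.card = 3 ∨ s.card = 4 ∨ s.card = 11 := by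
  rcases (mem_lay.1 h).2 with h1 | h1 | h1 | h1 | h1
  · exact Or.inr (Or.inr (Or.inr (Or.inl h1.1)))
  · exact Or.inr (Or.inr (Or.inl h1.1))
  · exact Or.inr (Or.inl h1.1)
  · exact Or.inl h1.1
  · exact Or.inr (Or.inr (Or.inr (Or.inr h1.1)))

/-- sets on `{0, .., 10}` -/
theorem mk_lt_2048 {s : Finset (Fin 13)} : mk s < 2048 ↔ (11 : Fin 13) ∉ s ∧ (12 : Fin 13) ∉ s := by
  rw [show (2048 : ℕ) = 2 ^ 11 by norm_num, mk_lt_iff]
  constructor
  · intro h
    exact ⟨fun h1 => absurd (h _ h1) (by decide), fun h1 => absurd (h _ h1) (by decide)⟩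
  · rintro ⟨h1, h2⟩ a ha
    by_contra h3
    have h4 : a = 11 ∨ a = 12 := by
      have := a.isLt
      rcases (show a.val = 11 ∨ a.val = 12 by omega) with h5 | h5
      · exact Or.inl (Fin.ext h5)
      · exact Or.inr (Fin.ext h5)
    rcases h4 with rfl | rfl
    · exact h1 ha
    · exact h2 ha

theorem mk_mapS_lt {σ : Equiv.Perm (Fin 13)} (h11 : σ 11 = 11) (h12 : σ 12 = 12)
    {s : Finset (Fin 13)} : mk (mapS σ s) < 2048 ↔ mk s < 2048 := by
  rw [mk_lt_2048, mk_lt_2048]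
  have h1 : (11 : Fin 13) ∈ mapS σ s ↔ (11 : Fin 13) ∈ s := by
    conv_lhs => rw [← h11]
    exact mem_mapS
  have h2 : (12 : Fin 13) ∈ mapS σ s ↔ (12 : Fin 13) ∈ s := by
    conv_lhs => rw [← h12]
    exact mem_mapS
  rw [h1, h2]

/-- the layers are equivariant under the relabellings which fix `11` and `12` -/
theorem lay_mapF {σ : Equiv.Perm (Fin 13)} (h11 : σ 11 = 11) (h12 : σ 12 = 12)
    (D : Finset (Finset (Fin 13))) : Lay (mapF σ D) = mapF σ (Lay D) := by
  ext s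
  obtain ⟨t, rfl⟩ : ∃ t, s = mapS σ t := ⟨mapS σ.symm s, (mapS_mapS_symm σ s).symm⟩
  rw [mem_mapF, mem_lay, mem_lay, mk_mapS_lt h11 h12, card_mapS, mem_mapF, cnt_mapF, card_mapF]

/-! ### the layers of an actual link -/

/-- an odd family has no member count two -/
theorem two_le_cnt_iff {V : Finset (Fin 13)} {D : Finset (Finset (Fin 13))} {k : ℕ}
    (hD : OddFam k V D) {s : Finset (Fin 13)} (hs : s ⊆ V) (hc : s.card = k) :
    2 ≤ cnt D s ↔ 3 ≤ cnt D s := by
  have h := hD.2 s hs hc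
  obtain ⟨t, ht⟩ := h
  omega

end Pool.Agent.Helper82.TY
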