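import Pool.Agent.Gen.TY.LR.All
import Pool.Agent.Gen.TY.LR.Pad
import Pool.Agent.Helper82.TY.PopEnc
import Pool.Agent.Helper91.TY.GlueB
import Pool.Agent.Helper49.TY.Suf
import Pool.Agent.Helper7.TB.RowChk
import Pool.Agent.Helper7.TY.Table

/-!
MP_8ee768_co, project TH-Y': the rows with layers are complete.

`rowsOK_of_lab`, `rowsC_of_lab`: helper7's completeness of the rows of quads gives helper91's `RowsOK` and
helper49's `RowsC` for helper52's rows with layers (`2 ≤ t < 5074`, excess at most 6).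
-/

set_option autoImplicit false

namespace Pool.Agent.Helper82.TY

open Finset Pool.Agent.Helper63.SIMD
open Pool.Agent.Helper89.CV (OddCover ofMask)
open Pool.Agent.Helper97.CV Pool.Agent.Helper79.CV Pool.Agent.Helper33.CV
open Pool.Agent.Helper91.TY
open Pool.Agent.Helper52.TY (expandC dcode)
open Pool.Agent.Helper7.TB (typ nl row cls clr laneF laneF_fld)
open Pool.Agent.Helper7.TY (LSet FlagL IsoL InR lab_of_flags)
open Pool.Agent.Helper52.TB (rowX)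
open Pool.Agent.Helper49.TY (RowsC PdD pdD_of_chkDL)

/-- every lane of the rows of quads is a lane of the rows with layers, at the same place -/
theorem laneOK_rowX {t i : ℕ} (h2 : 2 ≤ t) (ht : t < 5074) {D : Fam}
    (hD : OddFam 3 (below 12) D) (hc : D.card ≤ 60) (hl : link D 11 = fam 11 3 (typ t))
    (hi : i < nl t) (hq : D.filter (fun b => (11 : Fin 13) ∉ b) = fam 11 4 (fld 330 (row t) i)) :
    LaneOK (rowX t) i (Lay D) := by
  refine (Pool.Agent.Gen.TY.LR.rowChk_all h2 ht).lane ?_ hc hl hi hq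
  intro b hb
  have h := hD.1 b hb
  refine ⟨mk_lt_iff.2 fun a ha => ?_, h.2⟩
  exact mem_below.1 (h.1 ha)

/-- the number of blocks of a type -/
theorem card_typ (t : ℕ) : (fam 11 3 (typ t)).card = popR (typ t) := by
  have h1 : typ t < 2 ^ (11 : ℕ).choose 3 := Pool.Agent.Helper7.TB.typ_lt t
  rw [card_eq_popc (n := 11) (k := 3) (by norm_num) (fun s hs => sub_of_mem_fam (by norm_num) hs),
    enc_fam (by norm_num) h1, popR_eq]
  exact lt_trans (Pool.Agent.Helper7.TB.typ_lt t)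
    (Nat.pow_lt_pow_right (by norm_num) (by norm_num))

theorem card_typ_lo {t : ℕ} (h1 : 2 ≤ t) (h2 : t < 983) : (fam 11 3 (typ t)).card = 21 := by
  rw [card_typ]
  exact Nat.eq_of_beq_eq_true (Pool.Agent.Gen.TY.LR.rngT_spec Pool.Agent.Gen.TY.LR.c21_ok t h1
    (by omega))

theorem card_typ_hi {t : ℕ} (h1 : 983 ≤ t) (h2 : t < 5074) : 22 ≤ (fam 11 3 (typ t)).card := by
  rw [card_typ]
  exact Nat.le_of_ble_eq_true (Pool.Agent.Gen.TY.LR.rngT_spec Pool.Agent.Gen.TY.LR.c22_ok t h1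
    (by omega))

theorem card_typ_ne {t : ℕ} (h1 : 2 ≤ t) (h2 : t < 5074) : (fam 11 3 (typ t)).card ≠ 19 := by
  rcases Nat.lt_or_ge t 983 with h | h
  · rw [card_typ_lo h1 h]
    norm_num
  · have := card_typ_hi h h2
    omega

theorem card_typ_ne21 {t : ℕ} (h1 : 983 ≤ t) (h2 : t < 5074) : (fam 11 3 (typ t)).card ≠ 21 := by
  have := card_typ_hi h1 h2
  omega

/-- the labelled lanes of the rows (helper7) -/
noncomputable def lanesL (t : ℕ) : Set (ℕ × Fam) := LSet (nl t) (laneF t) (cls t)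

theorem pd_rowX {t : ℕ} (h1 : 2 ≤ t) (h2 : t < 5074) : ∀ X ∈ rowX t, PdD X :=
  pdD_of_chkDL (Pool.Agent.Gen.TY.LR.pad_all h1 h2)

/-- a labelled lane, dense form -/
theorem den_of_mem {t j : ℕ} (h2 : 2 ≤ t) (ht : t < 5074) {D : Fam}
    (hD : OddFam 3 (below 12) D) (hc : D.card ≤ 60) (hl : link D 11 = fam 11 3 (typ t))
    (h : (j, D.filter (fun b => (11 : Fin 13) ∉ b)) ∈ lanesL t) :
    ∃ k X i, (rowX t)[k]? = some X ∧ i < 64 ∧ 64 * k + i < nl t ∧ fld 512 X i = dcode (Lay D) ∧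
      fld 2048 (expandC X) i = cub 11 (Lay D) ∧ fld 16 (clr t) (64 * k + i) = j := by
  obtain ⟨q, hq, h3⟩ := h
  have h4 : j = cls t q := congrArg Prod.fst h3
  have h5 : D.filter (fun b => (11 : Fin 13) ∉ b) = fam 11 4 (laneF t q) := congrArg Prod.snd h3
  rw [laneF_fld ht hq] at h5
  have h6 := laneOK_rowX h2 ht hD hc hl hq h5
  obtain ⟨k, X, i, g1, g2, g3, g4, g5⟩ := h6
  refine ⟨k, X, i, g1, g2, by omega, fld512_of_cub g4 g2 g5, g5, ?_⟩
  rw [g3, h4]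
  unfold cls
  show fld 16 (clr t) q = (clr t >>> (16 * q)) &&& 65535
  rw [show (65535 : ℕ) = 2 ^ 16 - 1 by norm_num, Nat.and_two_pow_sub_one_eq_mod,
    Nat.shiftRight_eq_div_pow]
  rfl

/-- **rows of stage A** -/
theorem rowsOK_of_lab {cap : ℕ} {P : Fam → Prop} (hcap : cap ≤ 6)
    (h : ∀ t, 2 ≤ t → t < 5074 → ∀ D : Fam, OddFam 3 (below 12) D →
      link D 11 = fam 11 3 (typ t) → 2 * D.card ≤ 114 + cap → P D →
      ∃ j, (j, D.filter (fun b => (11 : Fin 13) ∉ b)) ∈ lanesL t) :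
    RowsOK typ nl rowX 5074 cap P := by
  refine ⟨Pool.Agent.Helper7.TB.typ_lt, fun t h1 h2 X hX =>
    Pool.Agent.Helper49.TY.expandC_lt (pd_rowX h1 h2 X hX), fun t h1 h2 D h3 h4 h5 h6 => ?_⟩
  obtain ⟨j, h7⟩ := h t h1 h2 D h3 h4 h5 h6
  obtain ⟨k, X, i, g1, g2, g3, -, g5, -⟩ := den_of_mem h1 h2 h3 (by omega) h4 h7
  exact ⟨k, X, i, g1, g2, g3, g5⟩

/-- **rows with class numbers, stages E and B1a** -/
theorem rowsC_of_lab {reps : List ℕ} {cap : ℕ} (hcap : cap ≤ 6) (hlen : reps.length ≤ 32768)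
    (h : ∀ t, 2 ≤ t → t < 5074 → ∀ D : Fam, OddFam 3 (below 12) D →
      link D 11 = fam 11 3 (typ t) → 2 * D.card ≤ 114 + cap →
      ∃ j, Cls reps j D ∧ (j, D.filter (fun b => (11 : Fin 13) ∉ b)) ∈ lanesL t) :
    RowsC reps typ nl clr rowX 5074 cap := by
  refine ⟨Pool.Agent.Helper7.TB.typ_lt, fun t => lt_trans (Pool.Agent.Helper7.TB.nl_lt t)
    (by norm_num), hlen, fun t h1 h2 => pd_rowX h1 h2, fun t h1 h2 D h3 h4 h5 => ?_⟩
  obtain ⟨j, h6, h7⟩ := h t h1 h2 D h3 h4 h5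
  obtain ⟨k, X, i, g1, g2, g3, g4, -, g6⟩ := den_of_mem h1 h2 h3 (by omega) h4 h7
  exact ⟨k, X, i, g1, g2, g3, g4, by rw [g6]; exact h6⟩

/-- **rows of stage A, from the flags** -/
theorem rowsOK_of_flags {cap : ℕ} {P : Fam → Prop} {reps : List ℕ} (hcap : cap ≤ 6)
    (hR : RootOK cap P reps) (hF : FlagL reps 5074 typ lanesL) (hI : IsoL 5074 typ lanesL) :
    RowsOK typ nl rowX 5074 cap P := by
  refine rowsOK_of_lab hcap fun t h1 h2 D h3 h4 h5 h6 => ?_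
  obtain ⟨j, -, h7⟩ := lab_of_flags hR hF hI ⟨h1, h2⟩ (card_typ_ne h1 h2) h3 h4 h5 h6
  exact ⟨j, h7⟩

/-- **rows with class numbers, from the flags** -/
theorem rowsC_of_flags {cap : ℕ} {reps : List ℕ} (hcap : cap ≤ 6) (hlen : reps.length ≤ 32768)
    (hR : RootOK cap (fun _ => True) reps) (hF : FlagL reps 5074 typ lanesL)
    (hI : IsoL 5074 typ lanesL) : RowsC reps typ nl clr rowX 5074 cap := by
  refine rowsC_of_lab hcap hlen fun t h1 h2 D h3 h4 h5 => ?_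
  obtain ⟨j, ⟨r, hr, σ, -, hσ⟩, h7⟩ :=
    lab_of_flags hR hF hI ⟨h1, h2⟩ (card_typ_ne h1 h2) h3 h4 h5 trivial
  exact ⟨j, ⟨r, hr, σ, hσ⟩, h7⟩

end Pool.Agent.Helper82.TY
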