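import Pool.Agent.Helper79.CV.Link

/-!
MP_8ee768_co, project TH-Y': an odd family of quads on 12 points has at least 57 members.
-/

set_option autoImplicit false

namespace Pool.Agent.Helper82.TY

open Finset
open Pool.Agent.Helper97.CV Pool.Agent.Helper79.CV

theorem sum_card_link {k : ℕ} {V : Finset (Fin 13)} {D : Finset (Finset (Fin 13))}
    (h : OddFam k V D) : ∑ a ∈ V, (link D a).card = (k + 1) * D.card := by
  have h1 : ∀ a, (link D a).card = ∑ b ∈ D, if a ∈ b then 1 else 0 := by
    intro a
    rw [card_link]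
    unfold cnt
    rw [card_filter]
    refine sum_congr rfl fun b _ => ?_
    simp only [singleton_subset_iff]
  rw [sum_congr rfl fun a _ => h1 a, sum_comm]
  have h2 : ∀ b ∈ D, (∑ a ∈ V, if a ∈ b then 1 else 0) = k + 1 := by
    intro b hb
    rw [← card_filter]
    have h3 : V.filter (fun a => a ∈ b) = b := by
      ext a
      rw [mem_filter]
      exact ⟨fun h4 => h4.2, fun h4 => ⟨(h.1 b hb).1 h4, h4⟩⟩
    rw [h3, (h.1 b hb).2]
  rw [sum_congr rfl h2, sum_const, smul_eq_mul, Nat.mul_comm]

theorem low_one {V : Finset (Fin 13)} {D : Finset (Finset (Fin 13))} (h : OddFam 1 V D) :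
    V.card ≤ 2 * D.card := by
  rw [← sum_card_link h]
  have h1 : ∀ a ∈ V, 1 ≤ (link D a).card := by
    intro a ha
    rw [card_link]
    have h2 := h.2 {a} (singleton_subset_iff.2 ha) (card_singleton a)
    obtain ⟨t, ht⟩ := h2
    omega
  calc V.card = ∑ _a ∈ V, 1 := by rw [sum_const, smul_eq_mul, mul_one]
    _ ≤ _ := sum_le_sum h1

theorem low_two {V : Finset (Fin 13)} {D : Finset (Finset (Fin 13))} (h : OddFam 2 V D)
    (hV : V.card = 11) : 19 ≤ D.card := by
  have h0 := sum_card_link h
  have h1 : ∀ a ∈ V, 5 ≤ (link D a).card := by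
    intro a ha
    have h2 := low_one (h.link ha)
    rw [card_erase_of_mem ha, hV] at h2
    omega
  have h3 : V.card * 5 ≤ ∑ a ∈ V, (link D a).card := by
    rw [← smul_eq_mul, ← sum_const]
    exact sum_le_sum h1
  rw [h0, hV] at h3
  omega

/-- **at least 57 quads** -/
theorem low_three {V : Finset (Fin 13)} {D : Finset (Finset (Fin 13))} (h : OddFam 3 V D)
    (hV : V.card = 12) : 57 ≤ D.card := by
  have h0 := sum_card_link h
  have h1 : ∀ a ∈ V, 19 ≤ (link D a).card := by
    intro a ha
    refine low_two (h.link ha) ?_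
    rw [card_erase_of_mem ha, hV]
  have h3 : V.card * 19 ≤ ∑ a ∈ V, (link D a).card := by
    rw [← smul_eq_mul, ← sum_const]
    exact sum_le_sum h1
  rw [h0, hV] at h3
  omega

end Pool.Agent.Helper82.TY
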