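import Pool.Agent.Gen.TY.LZ.a2
import Pool.Agent.Gen.TY.LZ.b2
import Pool.Agent.Gen.TY.LZ.a4r
import Pool.Agent.Gen.TY.LZ.b4r
import Pool.Agent.Gen.TY.LZ.a4f
import Pool.Agent.Gen.TY.LZ.b4f
import Pool.Agent.Helper9.TY.RecE
import Pool.Agent.Helper82.TY.Low57

/-!
MP_8ee768_co, project TH-Y', stages E and B1a: the static lists of the point `x` are complete.

Types `typz 0 = repA`, `typz t = repB` else; kinds of lists `0` = excess at most 2 (reduced), `1` =
excess at most 4, reduced, `2` = excess at most 4, reduced up to 2.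
-/

set_option autoImplicit false

namespace Pool.Agent.Helper82.TY

open Finset Pool.Agent.Helper63.SIMD
open Pool.Agent.Helper89.CV (OddCover ofMask)
open Pool.Agent.Helper97.CV Pool.Agent.Helper79.CV Pool.Agent.Helper33.CV
open Pool.Agent.Helper91.TY
open Pool.Agent.Helper52.TY (expandC dcode)
open Pool.Agent.Helper67.TY (repA repB)
open Pool.Agent.Helper25.EN Pool.Agent.Helper60.TB
open Pool.Agent.Helper49.TY (RowsZ PB PdD pdD_of_chkDL expandC_lt TabE Size And2)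
open Pool.Agent.Helper9.TY (rowIn_append_left rowIn_append_right)

/-- two values -/
def ab {α : Type} (a b : α) (t : ℕ) : α := @Bool.rec (fun _ => α) b a (Nat.beq t 0)

theorem ab_zero {α : Type} (a b : α) : ab a b 0 = a := rfl
theorem ab_one {α : Type} (a b : α) : ab a b 1 = b := rfl

/-- the two systems -/
def typz (t : ℕ) : ℕ := ab repA repB t

/-- the lists -/
def rowz (k t : ℕ) : List ℕ := @Bool.rec (fun _ => List ℕ)
  (@Bool.rec (fun _ => List ℕ) (ab (lx2A ++ x4fA) (lx2B ++ x4fB) t)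
    (ab (lx2A ++ x4rA) (lx2B ++ x4rB) t) (Nat.beq k 1))
  (ab lx2A lx2B t) (Nat.beq k 0)

/-- the numbers of lanes -/
def nlz (k t : ℕ) : ℕ := @Bool.rec (fun _ => ℕ)
  (@Bool.rec (fun _ => ℕ) (ab 10763 10423 t) (ab 6056 6118 t) (Nat.beq k 1))
  (ab 184 232 t) (Nat.beq k 0)

theorem repA_lt : repA < 2 ^ 165 := by decide +kernel
theorem repB_lt : repB < 2 ^ 165 := by decide +kernel

theorem typz_lt (t : ℕ) : typz t < 2 ^ 165 := by
  unfold typz ab
  cases Nat.beq t 0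
  · exact repB_lt
  · exact repA_lt

theorem or_of_mem_append {P : ℕ → Prop} {l1 l2 : List ℕ} (h : ∃ e ∈ l1 ++ l2, P e) :
    (∃ e ∈ l1, P e) ∨ ∃ e ∈ l2, P e := by
  obtain ⟨e, he, h1⟩ := h
  rcases List.mem_append.1 he with h2 | h2
  · exact Or.inl ⟨e, h2, h1⟩
  · exact Or.inr ⟨e, h2, h1⟩

theorem mem_append_of_or {P : ℕ → Prop} {l1 l2 : List ℕ}
    (h : (∃ e ∈ l1, P e) ∨ ∃ e ∈ l2, P e) : ∃ e ∈ l1 ++ l2, P e := by
  rcases h with ⟨e, he, h1⟩ | ⟨e, he, h1⟩
  · exact ⟨e, List.mem_append_left _ he, h1⟩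
  · exact ⟨e, List.mem_append_right _ he, h1⟩

/-- the possible sizes -/
theorem excess_cases {D : Fam} (hD : OddFam 3 (below 12) D) (h : 2 * D.card ≤ 118) :
    2 * D.card = 114 ∨ 2 * D.card = 116 ∨ 2 * D.card = 118 := by
  have h1 := low_three hD (by decide)
  omega

theorem card_le_60 {D : Fam} (h : 2 * D.card ≤ 118) : D.card ≤ 60 := by omega

/-- the lists with excess at most 2 -/
theorem row2A (hA : CountA) {D : Fam} (hD : OddFam 3 (below 12) D)
    (hl : link D 11 = fam 11 3 repA) (h : 2 * D.card ≤ 116) (hR : Pool.Agent.Helper49.TY.Red D 12) :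
    RowIn 184 lx2A (Lay D) := by
  refine Pool.Agent.Gen.TY.LZ.a2.ok.row repA_lt hD (by omega) hl (mem_append_of_or ?_)
  rcases excess_cases hD (by omega) with h1 | h1 | h1
  · exact Or.inl (redA0_E hA D hD hl ⟨h1, hR⟩)
  · exact Or.inr (redA2_E hA D hD hl ⟨h1, hR⟩)
  · omega

theorem row2B (hB : CountB) {D : Fam} (hD : OddFam 3 (below 12) D)
    (hl : link D 11 = fam 11 3 repB) (h : 2 * D.card ≤ 116) (hR : Pool.Agent.Helper49.TY.Red D 12) :
    RowIn 232 lx2B (Lay D) := by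
  refine Pool.Agent.Gen.TY.LZ.b2.ok.row repB_lt hD (by omega) hl (mem_append_of_or ?_)
  rcases excess_cases hD (by omega) with h1 | h1 | h1
  · exact Or.inl (redB0_E hB D hD hl ⟨h1, hR⟩)
  · exact Or.inr (redB2_E hB D hD hl ⟨h1, hR⟩)
  · omega

theorem row4rA (hA : CountA) {D : Fam} (hD : OddFam 3 (below 12) D)
    (hl : link D 11 = fam 11 3 repA) (h : 2 * D.card = 118) (hR : Pool.Agent.Helper49.TY.Red D 12) :
    RowIn 5864 x4rA (Lay D) :=
  Pool.Agent.Gen.TY.LZ.a4r.ok.row repA_lt hD (by omega) hl (redA4_E hA D hD hl ⟨h, hR⟩)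

theorem row4rB (hB : CountB) {D : Fam} (hD : OddFam 3 (below 12) D)
    (hl : link D 11 = fam 11 3 repB) (h : 2 * D.card = 118) (hR : Pool.Agent.Helper49.TY.Red D 12) :
    RowIn 5862 x4rB (Lay D) :=
  Pool.Agent.Gen.TY.LZ.b4r.ok.row repB_lt hD (by omega) hl (redB4_E hB D hD hl ⟨h, hR⟩)

theorem row4fA (hA : CountA) {D : Fam} (hD : OddFam 3 (below 12) D)
    (hl : link D 11 = fam 11 3 repA) (h : 2 * D.card = 118) : RowIn 10571 x4fA (Lay D) :=
  Pool.Agent.Gen.TY.LZ.a4f.ok.row repA_lt hD (by omega) hl (tabA4_E hA D hD hl h)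

theorem row4fB (hB : CountB) {D : Fam} (hD : OddFam 3 (below 12) D)
    (hl : link D 11 = fam 11 3 repB) (h : 2 * D.card = 118) : RowIn 10167 x4fB (Lay D) :=
  Pool.Agent.Gen.TY.LZ.b4f.ok.row repB_lt hD (by omega) hl (tabB4_E hB D hD hl h)

theorem rowsZ_of {nA nB cap : ℕ} {rA rB : List ℕ} {P : Fam → Prop} (pA : ∀ X ∈ rA, PdD X)
    (pB : ∀ X ∈ rB, PdD X)
    (h0 : ∀ D : Fam, OddFam 3 (below 12) D → link D 11 = fam 11 3 repA →
      2 * D.card ≤ 114 + cap → P D → RowIn nA rA (Lay D))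
    (h1 : ∀ D : Fam, OddFam 3 (below 12) D → link D 11 = fam 11 3 repB →
      2 * D.card ≤ 114 + cap → P D → RowIn nB rB (Lay D)) :
    RowsZ typz (ab nA nB) (ab rA rB) cap P := by
  refine ⟨typz_lt, fun t ht X hX => ?_, fun t ht => ?_⟩
  · have h : t = 0 ∨ t = 1 := by omega
    rcases h with rfl | rfl
    · exact expandC_lt (pA X hX)
    · exact expandC_lt (pB X hX)
  · have h : t = 0 ∨ t = 1 := by omega
    rcases h with rfl | rfl
    · exact h0
    · exact h1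

theorem pd_append {l1 l2 : List ℕ} (h1 : ∀ X ∈ l1, PdD X) (h2 : ∀ X ∈ l2, PdD X) :
    ∀ X ∈ l1 ++ l2, PdD X := by
  intro X hX
  rcases List.mem_append.1 hX with h | h
  · exact h1 X h
  · exact h2 X h

theorem pd2A : ∀ X ∈ lx2A, PdD X := pdD_of_chkDL Pool.Agent.Gen.TY.LZ.a2.pad
theorem pd2B : ∀ X ∈ lx2B, PdD X := pdD_of_chkDL Pool.Agent.Gen.TY.LZ.b2.pad
theorem pd4rA : ∀ X ∈ x4rA, PdD X := pdD_of_chkDL Pool.Agent.Gen.TY.LZ.a4r.pad
theorem pd4rB : ∀ X ∈ x4rB, PdD X := pdD_of_chkDL Pool.Agent.Gen.TY.LZ.b4r.pad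
theorem pd4fA : ∀ X ∈ x4fA, PdD X := pdD_of_chkDL Pool.Agent.Gen.TY.LZ.a4f.pad
theorem pd4fB : ∀ X ∈ x4fB, PdD X := pdD_of_chkDL Pool.Agent.Gen.TY.LZ.b4f.pad

/-- **lists of kind 0** -/
theorem rowsZ_zero (hA : CountA) (hB : CountB) :
    RowsZ typz (nlz 0) (rowz 0) 2 (fun D => Pool.Agent.Helper49.TY.Red D 12) :=
  rowsZ_of (nA := 184) (nB := 232) (rA := lx2A) (rB := lx2B) pd2A pd2B
    (fun _ h1 h2 h3 h4 => row2A hA h1 h2 h3 h4) (fun _ h1 h2 h3 h4 => row2B hB h1 h2 h3 h4)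

/-- **lists of kind 1** -/
theorem rowsZ_one (hA : CountA) (hB : CountB) :
    RowsZ typz (nlz 1) (rowz 1) 4 (fun D => Pool.Agent.Helper49.TY.Red D 12) := by
  refine rowsZ_of (nA := 64 * lx2A.length + 5864) (nB := 64 * lx2B.length + 5862)
    (rA := lx2A ++ x4rA) (rB := lx2B ++ x4rB) (pd_append pd2A pd4rA) (pd_append pd2B pd4rB) ?_ ?_
  · intro D h1 h2 h3 h4
    rcases excess_cases h1 h3 with h5 | h5 | h5
    · exact rowIn_append_left (row2A hA h1 h2 (by omega) h4)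
    · exact rowIn_append_left (row2A hA h1 h2 (by omega) h4)
    · exact rowIn_append_right (row4rA hA h1 h2 h5 h4)
  · intro D h1 h2 h3 h4
    rcases excess_cases h1 h3 with h5 | h5 | h5
    · exact rowIn_append_left (row2B hB h1 h2 (by omega) h4)
    · exact rowIn_append_left (row2B hB h1 h2 (by omega) h4)
    · exact rowIn_append_right (row4rB hB h1 h2 h5 h4)

/-- **lists of kind 2** -/
theorem rowsZ_two (hA : CountA) (hB : CountB) :
    RowsZ typz (nlz 2) (rowz 2) 4 (PB 2 true) := by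
  refine rowsZ_of (nA := 64 * lx2A.length + 10571) (nB := 64 * lx2B.length + 10167)
    (rA := lx2A ++ x4fA) (rB := lx2B ++ x4fB) (pd_append pd2A pd4fA) (pd_append pd2B pd4fB) ?_ ?_
  · intro D h1 h2 h3 h4
    rcases excess_cases h1 h3 with h5 | h5 | h5
    · exact rowIn_append_left (row2A hA h1 h2 (by omega) (h4.1 (by omega)))
    · exact rowIn_append_left (row2A hA h1 h2 (by omega) (h4.1 (by omega)))
    · exact rowIn_append_right (row4fA hA h1 h2 h5)
  · intro D h1 h2 h3 h4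
    rcases excess_cases h1 h3 with h5 | h5 | h5
    · exact rowIn_append_left (row2B hB h1 h2 (by omega) (h4.1 (by omega)))
    · exact rowIn_append_left (row2B hB h1 h2 (by omega) (h4.1 (by omega)))
    · exact rowIn_append_right (row4fB hB h1 h2 h5)

end Pool.Agent.Helper82.TY
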