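import Pool.Agent.Helper82.TY.PopR

/-!
MP_8ee768_co, project TH-Y': the boundary code. `bdN n k N` is the code (over `L n k`) of the
`k`-subsets of `{0, .., n-1}` lying in an odd number of members of the family of
`(k+1)`-subsets with code `N` (over `L n (k+1)`).
-/

set_option autoImplicit false

namespace Pool.Agent.Helper82.TY

open Finset
open Pool.Agent.Helper89.CV (OddCover ofMask)
open Pool.Agent.Helper97.CV Pool.Agent.Helper79.CV

/-- the boundary on codes (specification form, `Nat.choose`) -/
def bdN : ℕ → ℕ → ℕ → ℕ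
  | 0, _, _ => 0
  | n + 1, 0, N => (bdN n 0 (N % 2 ^ n.choose 1)) ^^^ (N >>> n.choose 1)
  | n + 1, k + 1, N =>
    ((bdN n (k + 1) (N % 2 ^ n.choose (k + 2))) ^^^ (N >>> n.choose (k + 2))) +
      2 ^ n.choose (k + 1) * bdN n k (N >>> n.choose (k + 2))

/-- the sets lying in an odd number of members -/
def bdF (D : Finset (Finset (Fin 13))) : Finset (Finset (Fin 13)) :=
  univ.filter fun s => Odd (cnt D s)

theorem mem_bdF {D : Finset (Finset (Fin 13))} {s : Finset (Fin 13)} :
    s ∈ bdF D ↔ Odd (cnt D s) := by
  unfold bdF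
  rw [mem_filter]
  exact ⟨fun h => h.2, fun h => ⟨mem_univ s, h⟩⟩

theorem enc_congr {n k : ℕ} (hn : n ≤ 13) {D E : Finset (Finset (Fin 13))}
    (h : ∀ s, Pool.Agent.Helper79.CV.Sub n k s → (s ∈ D ↔ s ∈ E)) : enc n k D = enc n k E := by
  refine Nat.eq_of_testBit_eq fun i => ?_
  by_cases hi : i < (L n k).length
  · rw [testBit_enc _ hi, testBit_enc _ hi, decide_eq_decide]
    exact h _ (ofMask_getElem_sub hn hi)
  · rw [testBit_enc_ge _ (by omega), testBit_enc_ge _ (by omega)]

/-- parity of `cnt` at a set avoiding `x` of size one less than the members -/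
theorem cnt_split {k : ℕ} {D : Finset (Finset (Fin 13))} (hD : ∀ b ∈ D, b.card = k + 1)
    {x : Fin 13} {s : Finset (Fin 13)} (hx : x ∉ s) (hs : s.card = k) :
    cnt D s = cnt (D.filter fun b => x ∉ b) s + if s ∈ link D x then 1 else 0 := by
  unfold cnt
  have h1 := card_filter_add_card_filter_not (s := D.filter fun b => s ⊆ b) (fun b => x ∉ b)
  rw [← h1]
  congr 1
  · rw [filter_filter, filter_filter]
    congr 1
    ext b
    simp only [mem_filter]
    tauto
  · have h2 : ((D.filter fun b => s ⊆ b).filter fun b => ¬ x ∉ b) =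
        if s ∈ link D x then {insert x s} else ∅ := by
      ext b
      simp only [mem_filter, not_not]
      constructor
      · rintro ⟨⟨hb, hsb⟩, hxb⟩
        have h3 : insert x s = b := by
          refine eq_of_subset_of_card_le ?_ ?_
          · intro a ha
            rcases mem_insert.1 ha with h4 | h4
            · rw [h4]
              exact hxb
            · exact hsb h4
          · rw [card_insert_of_notMem hx, hs, hD b hb]
        have h4 : s ∈ link D x := mem_link.2 ⟨hx, h3 ▸ hb⟩
        rw [if_pos h4, mem_singleton]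
        exact h3.symm
      · intro hb
        by_cases h4 : s ∈ link D x
        · rw [if_pos h4, mem_singleton] at hb
          subst hb
          exact ⟨⟨(mem_link.1 h4).2, subset_insert x s⟩, mem_insert_self x s⟩
        · rw [if_neg h4] at hb
          exact absurd hb (notMem_empty b)
    rw [h2]
    split_ifs
    · exact card_singleton _
    · exact card_empty

theorem aux_par (a : ℕ) (P : Prop) [Decidable P] :
    Bool.xor (decide (Odd a)) (decide P) = decide (Odd (a + if P then 1 else 0)) := by
  by_cases h : P
  · rw [if_pos h, decide_eq_true h]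
    by_cases h1 : Odd a
    · rw [decide_eq_true h1, decide_eq_false]
      · rfl
      · rw [Nat.not_odd_iff_even]
        exact h1.add_one
    · rw [decide_eq_false h1, decide_eq_true]
      · rfl
      · exact (Nat.not_odd_iff_even.1 h1).add_one
  · rw [if_neg h, decide_eq_false h, add_zero, Bool.xor_false]

theorem bdN_enc {n : ℕ} (hn : n ≤ 13) (k : ℕ) {D : Finset (Finset (Fin 13))}
    (hD : ∀ s ∈ D, Pool.Agent.Helper79.CV.Sub n (k + 1) s) :
    bdN n k (enc n (k + 1) D) = enc n k (bdF D) := by
  induction n generalizing k D with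
  | zero =>
    have h0 : D = ∅ := by
      rw [eq_empty_iff_forall_notMem]
      intro s hs
      have h1 := hD s hs
      have h2 : mk s = 0 := by
        have := h1.1
        omega
      have h3 : s = ∅ := by rw [← ofMask_mk s, h2, ofMask_zero]
      have h4 := h1.2
      rw [h3, card_empty] at h4
      omega
    subst h0
    have h1 : bdF (∅ : Finset (Finset (Fin 13))) = ∅ := by
      rw [eq_empty_iff_forall_notMem]
      intro s hs
      rw [mem_bdF] at hs
      unfold cnt at hs
      rw [filter_empty, card_empty] at hs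
      exact absurd hs (by decide)
    rw [h1]
    have h2 : enc 0 k ∅ = 0 := by
      refine Nat.eq_of_testBit_eq fun i => ?_
      by_cases hi : i < (L 0 k).length
      · rw [testBit_enc _ hi, Nat.zero_testBit]
        exact decide_eq_false (notMem_empty _)
      · rw [testBit_enc_ge _ (by omega), Nat.zero_testBit]
    rw [h2]
    rfl
  | succ n ih =>
    have hn' : n ≤ 13 := by omega
    set x : Fin 13 := ⟨n, by omega⟩ with hxdef
    have hxn : x.val = n := rfl
    -- the two halves
    have hx_of : ∀ {j : ℕ} {s : Finset (Fin 13)}, Pool.Agent.Helper79.CV.Sub n j s → x ∉ s := by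
      intro j s hs hx
      have := (mk_lt_iff.1 hs.1) x hx
      rw [hxn] at this
      omega
    have hsub : ∀ {j : ℕ} {s : Finset (Fin 13)}, Pool.Agent.Helper79.CV.Sub (n + 1) j s → x ∉ s →
        Pool.Agent.Helper79.CV.Sub n j s := by
      intro j s hs hx
      refine ⟨mk_lt_iff.2 fun a ha => ?_, hs.2⟩
      have h1 := (mk_lt_iff.1 hs.1) a ha
      have h2 : a ≠ x := fun h => hx (h ▸ ha)
      have h3 : a.val ≠ n := fun h => h2 (Fin.ext h)
      omega
    have hsub' : ∀ {j : ℕ} {s : Finset (Fin 13)}, Pool.Agent.Helper79.CV.Sub n j s →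
        Pool.Agent.Helper79.CV.Sub (n + 1) (j + 1) (insert x s) := by
      intro j s hs
      refine ⟨mk_lt_iff.2 fun a ha => ?_, ?_⟩
      · rcases mem_insert.1 ha with h1 | h1
        · rw [h1, hxn]
          omega
        · have := (mk_lt_iff.1 hs.1) a h1
          omega
      · rw [card_insert_of_notMem (hx_of hs), hs.2]
    set D0 := D.filter fun b => x ∉ b with hD0
    have hD0s : ∀ s ∈ D0, Pool.Agent.Helper79.CV.Sub n (k + 1) s := by
      intro s hs
      rw [hD0, mem_filter] at hs
      exact hsub (hD s hs.1) hs.2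
    have hmod : enc (n + 1) (k + 1) D % 2 ^ n.choose (k + 1) = enc n (k + 1) D0 := by
      rw [enc_mod]
      refine enc_congr hn' fun s hs => ?_
      rw [hD0, mem_filter]
      exact ⟨fun h => ⟨h, hx_of hs⟩, fun h => h.1⟩
    have hshift : enc (n + 1) (k + 1) D >>> n.choose (k + 1) = enc n k (link D x) :=
      enc_shift x k D
    have hcard : ∀ b ∈ D, b.card = k + 1 := fun b hb => (hD b hb).2
    -- lower part
    have hlow : enc n k (bdF D0) ^^^ enc n k (link D x) = enc n k (bdF D) := by
      refine Nat.eq_of_testBit_eq fun i => ?_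
      rw [Nat.testBit_xor]
      by_cases hi : i < (L n k).length
      · rw [testBit_enc _ hi, testBit_enc _ hi, testBit_enc _ hi]
        set s := ofMask ((L n k)[i]) with hs
        have hss : Pool.Agent.Helper79.CV.Sub n k s := ofMask_getElem_sub hn' hi
        have h1 := cnt_split hcard (hx_of hss) hss.2
        have h2 : decide (s ∈ bdF D0) = decide (Odd (cnt D0 s)) := decide_eq_decide.2 mem_bdF
        have h3 : decide (s ∈ bdF D) = decide (Odd (cnt D s)) := decide_eq_decide.2 mem_bdF
        rw [h2, h3, h1]
        exact aux_par _ _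
      · rw [testBit_enc_ge _ (by omega), testBit_enc_ge _ (by omega), testBit_enc_ge _ (by omega)]
        rfl
    cases k with
    | zero =>
      unfold bdN
      rw [show n.choose 1 = n.choose (0 + 1) from rfl, hmod, hshift, ih hn' 0 hD0s, hlow]
      -- enc (n+1) 0 = enc n 0
      refine Nat.eq_of_testBit_eq fun i => ?_
      have hL : L (n + 1) 0 = L n 0 := by rw [L_zero, L_zero]
      by_cases hi : i < (L n 0).length
      · have hi' : i < (L (n + 1) 0).length := by rw [hL]; exact hi
        rw [testBit_enc _ hi, testBit_enc _ hi']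
        simp only [hL]
      · rw [testBit_enc_ge _ (by omega), testBit_enc_ge _ (by rw [hL]; omega)]
    | succ k =>
      have hlink : ∀ s ∈ link D x, Pool.Agent.Helper79.CV.Sub n (k + 1) s := by
        intro s hs
        rw [mem_link] at hs
        have h1 := hD _ hs.2
        refine ⟨mk_lt_iff.2 fun a ha => ?_, ?_⟩
        · have h2 := (mk_lt_iff.1 h1.1) a (mem_insert_of_mem ha)
          have h3 : a ≠ x := fun h => hs.1 (h ▸ ha)
          have h4 : a.val ≠ n := fun h => h3 (Fin.ext h)
          omega
        · have h2 := h1.2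
          rw [card_insert_of_notMem hs.1] at h2
          omega
      have hup : enc n k (bdF (link D x)) = enc n k (link (bdF D) x) := by
        refine enc_congr hn' fun s hs => ?_
        rw [mem_bdF, mem_link, mem_bdF, cnt_link D (hx_of hs)]
        exact ⟨fun h => ⟨hx_of hs, h⟩, fun h => h.2⟩
      unfold bdN
      rw [show n.choose (k + 2) = n.choose (k + 1 + 1) from rfl, hmod, hshift, ih hn' (k + 1) hD0s,
        hlow, ih hn' k hlink, hup]
      exact (enc_split x k (bdF D)).symm

/-- oddness of `cnt` at a `k`-subset read off the boundary code -/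
theorem testBit_bdN {n : ℕ} (hn : n ≤ 13) {k : ℕ} {D : Finset (Finset (Fin 13))}
    (hD : ∀ s ∈ D, Pool.Agent.Helper79.CV.Sub n (k + 1) s) {s : Finset (Fin 13)}
    (hs : Pool.Agent.Helper79.CV.Sub n k s) :
    (bdN n k (enc n (k + 1) D)).testBit (rk n k s) = decide (Odd (cnt D s)) := by
  rw [bdN_enc hn k hD, testBit_enc_rk hn _ hs, decide_eq_decide]
  exact mem_bdF

/-- an odd family on `{0, .., n-1}`: the boundary is everything -/
theorem oddFam_iff_bdN {n : ℕ} (hn : n ≤ 13) {k : ℕ} {D : Finset (Finset (Fin 13))}
    (hD : ∀ s ∈ D, Pool.Agent.Helper79.CV.Sub n (k + 1) s) :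
    OddFam k (below n) D ↔ bdN n k (enc n (k + 1) D) = 2 ^ n.choose k - 1 := by
  rw [bdN_enc hn k hD]
  constructor
  · intro h
    refine Nat.eq_of_testBit_eq fun i => ?_
    rw [Nat.testBit_two_pow_sub_one]
    by_cases hi : i < (L n k).length
    · have h1 := ofMask_getElem_sub hn hi
      have h2 := sub_iff_below.1 h1
      have h3 : i < n.choose k := by
        rw [length_L] at hi
        exact hi
      rw [testBit_enc _ hi, decide_eq_true (mem_bdF.2 (h.2 _ h2.1 h2.2)), decide_eq_true h3]
    · rw [testBit_enc_ge _ (by omega)]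
      rw [length_L] at hi
      rw [decide_eq_false hi]
  · intro h
    refine ⟨fun b hb => sub_iff_below.1 (hD b hb), fun s hs hk => ?_⟩
    have h1 : Pool.Agent.Helper79.CV.Sub n k s := sub_iff_below.2 ⟨hs, hk⟩
    have h2 := testBit_enc_rk hn (bdF D) h1
    have h3 := rk_lt hn h1
    rw [length_L] at h3
    rw [h, Nat.testBit_two_pow_sub_one, decide_eq_true h3] at h2
    exact mem_bdF.1 (of_decide_eq_true h2.symm)

end Pool.Agent.Helper82.TY
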