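import Pool.Agent.Helper82.TY.Bd

/-!
MP_8ee768_co, project TH-Y': kernel form `bdK` of the boundary code (table of binomials, zero test).
-/

set_option autoImplicit false

namespace Pool.Agent.Helper82.TY

open Finset

/-- binomials `choose n k`, `n < 14`, `k < 16`, 11 bits each -/
def CH : ℕ :=
  0x80d09c47965d07d69ad283acb23c13806801000000000010181086e1ef630e718c1ef1b8108060010000000000000202c1b8a5294738e714a14a0dc05801000000000000000040502d0f03487e0d20f00b40500100000000000000000008090481503f07e0a80900480100000000000000000000010100701c04607007004001000000000000000000000000201c0a8230460540380100000000000000000000000000040300f02803c03001000000000000000000000000000000805014028028010000000000000000000000000000000010080180200100000000000000000000000000000000000200c01801000000000000000000000000000000000000004010010000000000000000000000000000000000000000080100000000000000000000000000000000000000000001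

/-- table look-up of `choose n k` -/
def ch (n k : ℕ) : ℕ := Nat.land (Nat.shiftRight CH (Nat.mul 11 (Nat.add (Nat.mul 16 n) k))) 2047

theorem ch_check : ((List.range 14).all fun n => (List.range 16).all fun k =>
    Nat.beq (ch n k) (n.choose k)) = true := by decide +kernel

theorem ch_eq {n k : ℕ} (hn : n ≤ 13) (hk : k ≤ 15) : ch n k = n.choose k := by
  have h := ch_check
  rw [List.all_eq_true] at h
  have h1 := h n (List.mem_range.2 (by omega))
  rw [List.all_eq_true] at h1
  exact (iff_of_eq Nat.beq_eq).1 (h1 k (List.mem_range.2 (by omega)))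

/-- boundary code, kernel form -/
def bdK (n : ℕ) : ℕ → ℕ → ℕ :=
  @Nat.rec (fun _ => ℕ → ℕ → ℕ) (fun _ _ => 0)
    (fun n ih k N =>
      @Bool.rec (fun _ => ℕ)
        (@Nat.rec (fun _ => ℕ)
          (force (ch n 1) fun c =>
            Nat.xor (ih 0 (Nat.land N (Nat.sub (Nat.shiftLeft 1 c) 1))) (Nat.shiftRight N c))
          (fun k _ =>
            force (ch n (Nat.add k 2)) fun c =>
            force (Nat.shiftRight N c) fun N1 =>
            Nat.add (Nat.xor (ih (Nat.succ k) (Nat.land N (Nat.sub (Nat.shiftLeft 1 c) 1))) N1)
              (Nat.shiftLeft (ih k N1) (ch n (Nat.succ k)))) k)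
        0 (Nat.beq N 0)) n

theorem bdN_zero (n k : ℕ) : bdN n k 0 = 0 := by
  induction n generalizing k with
  | zero => rfl
  | succ n ih =>
    cases k with
    | zero =>
      unfold bdN
      rw [Nat.zero_mod, ih]
      simp
    | succ k =>
      unfold bdN
      rw [Nat.zero_mod, ih, Nat.zero_shiftRight, ih]
      simp

theorem bdK_eq {n k : ℕ} (hn : n ≤ 13) (hk : k ≤ 13) (N : ℕ) : bdK n k N = bdN n k N := by
  induction n generalizing k N with
  | zero => rfl
  | succ n ih =>
    have hmask : ∀ c, Nat.land N (Nat.sub (Nat.shiftLeft 1 c) 1) = N % 2 ^ c := by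
      intro c
      have h1 : Nat.shiftLeft 1 c = 2 ^ c := by
        have := Nat.shiftLeft_eq 1 c
        rw [one_mul] at this
        exact this
      rw [h1]
      exact Nat.and_two_pow_sub_one_eq_mod N c
    have hstep : bdK (n + 1) k N = @Bool.rec (fun _ => ℕ)
        (@Nat.rec (fun _ => ℕ)
          (force (ch n 1) fun c =>
            Nat.xor (bdK n 0 (Nat.land N (Nat.sub (Nat.shiftLeft 1 c) 1))) (Nat.shiftRight N c))
          (fun k _ =>
            force (ch n (Nat.add k 2)) fun c =>
            force (Nat.shiftRight N c) fun N1 =>
            Nat.add (Nat.xor (bdK n (Nat.succ k) (Nat.land N (Nat.sub (Nat.shiftLeft 1 c) 1))) N1)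
              (Nat.shiftLeft (bdK n k N1) (ch n (Nat.succ k)))) k)
        0 (Nat.beq N 0) := rfl
    rw [hstep]
    by_cases h0 : N = 0
    · subst h0
      rw [bdN_zero]
      rfl
    · have h1 : Nat.beq N 0 = false := by
        rw [Bool.eq_false_iff]
        intro h
        exact h0 ((iff_of_eq Nat.beq_eq).1 h)
      rw [h1]
      cases k with
      | zero =>
        simp only [force_eq]
        rw [hmask, ih (by omega) (by omega), ch_eq (by omega) (by omega)]
        rfl
      | succ k =>
        simp only [force_eq]
        rw [hmask, ih (by omega) (by omega), ih (by omega) (by omega), ch_eq (by omega)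
          (show k.add 2 ≤ 15 from by change k + 2 ≤ 15; omega),
          ch_eq (by omega) (show k.succ ≤ 15 from by omega)]
        have h2 : ∀ a b : ℕ, Nat.shiftLeft a b = 2 ^ b * a := by
          intro a b
          rw [mul_comm]
          exact Nat.shiftLeft_eq a b
        rw [h2]
        rw [show bdN (n + 1) (k + 1) N =
          ((bdN n (k + 1) (N % 2 ^ n.choose (k + 2))) ^^^ (N >>> n.choose (k + 2))) +
            2 ^ n.choose (k + 1) * bdN n k (N >>> n.choose (k + 2)) from rfl]
        rfl

end Pool.Agent.Helper82.TY
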