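import Pool.Agent.Helper82.TY.Flip

/-!
MP_8ee768_co, project TH-Y': flips by the cone over a family of 5-sets, link form of the
minimal cover WLOG.
-/

set_option autoImplicit false

namespace Pool.Agent.Helper82.TY

open Finset Pool.Agent.Helper89.CV Pool.Agent.Helper97.CV

/-- the quads lying in an odd number of members of `W` -/
def bd (W : Finset (Finset (Fin 13))) : Finset (Finset (Fin 13)) :=
  quads.filter fun q => Odd (W.filter fun U => q ⊆ U).card

/-- the sum of the boundaries of the 6-sets `U ∪ {x}`, `U ∈ W` -/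
def cone (x : Fin 13) (W : Finset (Finset (Fin 13))) : Finset (Finset (Fin 13)) :=
  W ∪ (bd W).image (insert x)

section

variable {x : Fin 13} {W : Finset (Finset (Fin 13))}

theorem notMem_of_mem_bd (hx : ∀ U ∈ W, x ∉ U) {q : Finset (Fin 13)} (hq : q ∈ bd W) :
    x ∉ q := by
  unfold bd at hq
  rw [mem_filter] at hq
  obtain ⟨U, hU⟩ := card_pos.1 hq.2.pos
  rw [mem_filter] at hU
  exact fun h => hx U hU.1 (hU.2 h)

theorem card_of_mem_bd {q : Finset (Fin 13)} (hq : q ∈ bd W) : q.card = 4 :=
  mem_quads.1 (mem_filter.1 hq).1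

theorem insert_injOn (hx : ∀ U ∈ W, x ∉ U) : Set.InjOn (insert x) (bd W : Set (Finset (Fin 13))) := by
  intro a ha b hb hab
  have h1 := notMem_of_mem_bd hx (mem_coe.1 ha)
  have h2 := notMem_of_mem_bd hx (mem_coe.1 hb)
  rw [← erase_insert h1, ← erase_insert h2, hab]

theorem disjoint_cone (hx : ∀ U ∈ W, x ∉ U) : Disjoint W ((bd W).image (insert x)) := by
  rw [disjoint_left]
  intro b hb hb'
  obtain ⟨q, _, rfl⟩ := mem_image.1 hb'
  exact hx _ hb (mem_insert_self x q)

theorem even_bd (hW : ∀ U ∈ W, U.card = 5) {t : Finset (Fin 13)} (ht : t.card = 3) :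
    Even ((bd W).filter fun q => t ⊆ q).card := by
  have h1 := double_count W 5 hW (fun _ => 1) t
  have h2 : Even (∑ v ∈ tᶜ, (W.filter fun b => insert v t ⊆ b).card) := by
    have h3 : ∑ v ∈ tᶜ, (W.filter fun b => insert v t ⊆ b).card
        = (5 - t.card) * (W.filter fun b => t ⊆ b).card := by
      simpa only [card_eq_sum_ones] using h1
    rw [h3, ht]
    exact even_two_mul _
  rw [Finset.even_sum_iff_even_card_odd] at h2
  have h4 : (bd W).filter (fun q => t ⊆ q) =
      (tᶜ.filter fun v => Odd (W.filter fun b => insert v t ⊆ b).card).image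
        (fun v => insert v t) := by
    ext q
    unfold bd
    simp only [mem_filter, mem_image, mem_quads, mem_compl]
    constructor
    · rintro ⟨⟨hq, ho⟩, htq⟩
      have h5 : (q \ t).card = 1 := by
        rw [card_sdiff_of_subset htq, hq, ht]
      obtain ⟨v, hv⟩ := card_eq_one.1 h5
      have hvq : v ∈ q \ t := by rw [hv]; exact mem_singleton_self v
      have h6 : insert v t = q := by
        rw [← sdiff_union_of_subset htq, hv]
        rfl
      refine ⟨v, ⟨(mem_sdiff.1 hvq).2, ?_⟩, h6⟩
      rw [h6]
      exact ho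
    · rintro ⟨v, ⟨hv, ho⟩, rfl⟩
      exact ⟨⟨by rw [card_insert_of_notMem hv, ht], ho⟩, subset_insert v t⟩
  rw [h4, card_image_of_injOn]
  · exact h2
  · intro a ha b hb hab
    simp only [coe_filter, mem_compl, Set.mem_setOf_eq] at ha hb
    have h5 : a ∈ insert b t := by
      have : a ∈ insert a t := mem_insert_self a t
      simp only at hab
      rwa [hab] at this
    rcases mem_insert.1 h5 with h6 | h6
    · exact h6
    · exact absurd h6 ha.1

theorem even_cone (hW : ∀ U ∈ W, U.card = 5) (hx : ∀ U ∈ W, x ∉ U) : EvenCover (cone x W) := by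
  constructor
  · intro b hb
    rcases mem_union.1 hb with h | h
    · exact hW b h
    · obtain ⟨q, hq, rfl⟩ := mem_image.1 h
      rw [card_insert_of_notMem (notMem_of_mem_bd hx hq), card_of_mem_bd hq]
  · intro q hq
    unfold cone
    rw [filter_union, card_union_of_disjoint (disjoint_filter_filter (disjoint_cone hx))]
    by_cases hxq : x ∈ q
    · have h1 : W.filter (fun b => q ⊆ b) = ∅ := by
        rw [filter_eq_empty_iff]
        intro U hU h2
        exact hx U hU (h2 hxq)
      have h2 : ((bd W).image (insert x)).filter (fun b => q ⊆ b) =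
          ((bd W).filter fun r => q.erase x ⊆ r).image (insert x) := by
        ext b
        simp only [mem_filter, mem_image]
        constructor
        · rintro ⟨⟨r, hr, rfl⟩, hqr⟩
          refine ⟨r, ⟨hr, ?_⟩, rfl⟩
          rw [← erase_insert (notMem_of_mem_bd hx hr)]
          exact erase_subset_erase x hqr
        · rintro ⟨r, ⟨hr, hqr⟩, rfl⟩
          refine ⟨⟨r, hr, rfl⟩, ?_⟩
          rw [← insert_erase hxq]
          exact insert_subset_insert x hqr
      rw [h1, card_empty, zero_add, h2, card_image_of_injOn]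
      · exact even_bd hW (by rw [card_erase_of_mem hxq, hq])
      · intro a ha b hb hab
        exact insert_injOn hx (mem_coe.2 (mem_filter.1 (mem_coe.1 ha)).1)
          (mem_coe.2 (mem_filter.1 (mem_coe.1 hb)).1) hab
    · have h2 : ((bd W).image (insert x)).filter (fun b => q ⊆ b) =
          if Odd (W.filter fun U => q ⊆ U).card then {insert x q} else ∅ := by
        ext b
        simp only [mem_filter, mem_image]
        constructor
        · rintro ⟨⟨r, hr, rfl⟩, hqr⟩
          have h3 : q = r := by
            refine eq_of_subset_of_card_le ?_ (by rw [hq, card_of_mem_bd hr])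
            intro v hv
            rcases mem_insert.1 (hqr hv) with h4 | h4
            · exact absurd (h4 ▸ hv) hxq
            · exact h4
          subst h3
          have h5 := (mem_filter.1 hr).2
          rw [if_pos h5]
          exact mem_singleton_self _
        · intro hb
          by_cases ho : Odd (W.filter fun U => q ⊆ U).card
          · rw [if_pos ho, mem_singleton] at hb
            subst hb
            exact ⟨⟨q, mem_filter.2 ⟨mem_quads.2 hq, ho⟩, rfl⟩, subset_insert x q⟩
          · rw [if_neg ho] at hb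
            exact absurd hb (notMem_empty b)
      rw [h2]
      by_cases ho : Odd (W.filter fun U => q ⊆ U).card
      · rw [if_pos ho, card_singleton]
        exact ho.add_one
      · rw [if_neg ho, card_empty, add_zero]
        exact Nat.not_odd_iff_even.1 ho

theorem card_cone (hx : ∀ U ∈ W, x ∉ U) : (cone x W).card = W.card + (bd W).card := by
  unfold cone
  rw [card_union_of_disjoint (disjoint_cone hx), card_image_of_injOn (insert_injOn hx)]

theorem card_inter_image (hx : ∀ U ∈ W, x ∉ U) (B : Finset (Finset (Fin 13))) :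
    (B ∩ (bd W).image (insert x)).card = (link B x ∩ bd W).card := by
  have h : B ∩ (bd W).image (insert x) = (link B x ∩ bd W).image (insert x) := by
    ext b
    simp only [mem_inter, mem_image, mem_link]
    constructor
    · rintro ⟨hb, q, hq, rfl⟩
      exact ⟨q, ⟨⟨notMem_of_mem_bd hx hq, hb⟩, hq⟩, rfl⟩
    · rintro ⟨q, ⟨⟨_, hb⟩, hq⟩, rfl⟩
      exact ⟨hb, q, hq, rfl⟩
  rw [h, card_image_of_injOn]
  intro a ha b hb hab
  rw [mem_coe, mem_inter] at ha hb
  exact insert_injOn hx (mem_coe.2 ha.2) (mem_coe.2 hb.2) hab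

theorem card_inter_cone (hx : ∀ U ∈ W, x ∉ U) (B : Finset (Finset (Fin 13))) :
    (B ∩ cone x W).card = (B ∩ W).card + (link B x ∩ bd W).card := by
  unfold cone
  rw [inter_union_distrib_left, card_union_of_disjoint, card_inter_image hx]
  exact (disjoint_cone hx).mono inter_subset_right inter_subset_right

theorem cnt_cone (hx : ∀ U ∈ W, x ∉ U) : cnt (cone x W) {x} = (bd W).card := by
  unfold cnt cone
  rw [filter_union, filter_false_of_mem, filter_true_of_mem, empty_union,
    card_image_of_injOn (insert_injOn hx)]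
  · intro b hb
    obtain ⟨q, _, rfl⟩ := mem_image.1 hb
    exact singleton_subset_iff.2 (mem_insert_self x q)
  · intro U hU h
    exact hx U hU (singleton_subset_iff.1 h)

theorem cnt_inter_cone (hx : ∀ U ∈ W, x ∉ U) (B : Finset (Finset (Fin 13))) :
    cnt (B ∩ cone x W) {x} = (link B x ∩ bd W).card := by
  unfold cnt cone
  rw [inter_union_distrib_left, filter_union, filter_false_of_mem, filter_true_of_mem,
    empty_union, card_inter_image hx]
  · intro b hb
    obtain ⟨q, _, rfl⟩ := mem_image.1 (mem_inter.1 hb).2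
    exact singleton_subset_iff.2 (mem_insert_self x q)
  · intro U hU h
    exact hx U (mem_inter.1 hU).2 (singleton_subset_iff.1 h)

/-- link form of minimality, any vertex -/
theorem Best.gain_le {B : Finset (Finset (Fin 13))} (hB : Best B) (hW : ∀ U ∈ W, U.card = 5)
    (hx : ∀ U ∈ W, x ∉ U) :
    2 * (link B x ∩ bd W).card + 2 * (B ∩ W).card ≤ W.card + (bd W).card := by
  have h1 := hB.inter_le (even_cone hW hx)
  rw [card_inter_cone hx, card_cone hx] at h1
  omega

/-- a flip of gain 0 at `x`: no member of `W` is a block, and some vertex goes up which is lower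
than `x` by at least `2 * |W|` -/
theorem Best.gain_zero {B : Finset (Finset (Fin 13))} (hB : Best B) (hW : ∀ U ∈ W, U.card = 5)
    (hx : ∀ U ∈ W, x ∉ U) (hne : W.Nonempty)
    (hg : W.card + (bd W).card ≤ 2 * (link B x ∩ bd W).card) :
    B ∩ W = ∅ ∧ ∃ u, 2 * cnt (B ∩ cone x W) {u} < cnt (cone x W) {u} ∧
      MM B u + 2 * W.card ≤ MM B x := by
  have h1 := hB.gain_le hW hx
  have h2 : (B ∩ W).card = 0 := by omega
  refine ⟨card_eq_zero.1 h2, ?_⟩
  have hpos := hne.card_pos
  obtain ⟨u, hu1, hu2⟩ := hB.flip_up (even_cone hW hx) (z := x)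
    (by rw [card_inter_cone hx, card_cone hx]; omega)
    (by rw [cnt_cone hx, cnt_inter_cone hx]; omega)
  refine ⟨u, hu1, ?_⟩
  rw [cnt_cone hx, cnt_inter_cone hx] at hu2
  omega

/-- at a vertex of smallest excess every gain is negative -/
theorem Best.gain_lt {B : Finset (Finset (Fin 13))} (hB : Best B) (hW : ∀ U ∈ W, U.card = 5)
    (hx : ∀ U ∈ W, x ∉ U) (hne : W.Nonempty) (hmin : ∀ u, MM B x ≤ MM B u) :
    2 * (link B x ∩ bd W).card < W.card + (bd W).card := by
  by_contra hcon
  push Not at hcon
  obtain ⟨_, u, _, hu⟩ := hB.gain_zero hW hx hne hcon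
  have h1 := hmin u
  have h2 := hne.card_pos
  omega

end

/-- the boundary of one 5-set: its five quads -/
theorem bd_singleton (U : Finset (Fin 13)) : bd {U} = U.powersetCard 4 := by
  ext q
  unfold bd
  rw [mem_filter, mem_powersetCard, mem_quads, filter_singleton]
  by_cases h : q ⊆ U
  · rw [if_pos h, card_singleton]
    exact ⟨fun h1 => ⟨h, h1.1⟩, fun h1 => ⟨h1.2, odd_one⟩⟩
  · rw [if_neg h, card_empty]
    exact ⟨fun h1 => absurd h1.2 (by decide), fun h1 => absurd h1.1 h⟩

/-- `p(U) ≤ 3` in every link, with the block term -/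
theorem Best.p_le {B : Finset (Finset (Fin 13))} (hB : Best B) {x : Fin 13}
    {U : Finset (Fin 13)} (hU : U.card = 5) (hx : x ∉ U) :
    (link B x ∩ U.powersetCard 4).card + (if U ∈ B then 1 else 0) ≤ 3 := by
  have h1 := hB.gain_le (x := x) (W := {U}) (by simp [hU]) (by simp [hx])
  rw [bd_singleton, card_singleton, card_powersetCard, hU] at h1
  have h2 : (B ∩ {U}).card = if U ∈ B then 1 else 0 := by
    split_ifs with h
    · rw [inter_singleton_of_mem h, card_singleton]
    · rw [inter_singleton_of_notMem h, card_empty]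
  rw [h2] at h1
  norm_num [Nat.choose] at h1
  split_ifs at h1 ⊢ <;> omega

/-- `p(U) ≤ 2` at a vertex of smallest excess -/
theorem Best.p_le_two {B : Finset (Finset (Fin 13))} (hB : Best B) {x : Fin 13}
    {U : Finset (Fin 13)} (hU : U.card = 5) (hx : x ∉ U) (hmin : ∀ u, MM B x ≤ MM B u) :
    (link B x ∩ U.powersetCard 4).card ≤ 2 := by
  have h1 := hB.gain_lt (x := x) (W := {U}) (by simp [hU]) (by simp [hx])
    (singleton_nonempty U) hmin
  rw [bd_singleton, card_singleton, card_powersetCard, hU] at h1
  norm_num [Nat.choose] at h1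
  omega

end Pool.Agent.Helper82.TY
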