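import Pool.Agent.Helper82.TY.ExpQC
import Pool.Agent.Helper52.TY.ExpandP

/-!
MP_8ee768_co, project TH-Y': correctness of the programs `expandQ` and `expandT`, by the places of
single bits.
-/

set_option autoImplicit false

namespace Pool.Agent.Helper82.TY

open Finset
open Pool.Agent.Helper52.TY (eStep Lin lin_eStep pStep eStep_two_pow)
open Pool.Agent.Helper91.TY (frc frc_eq testBit_fld)
open Pool.Agent.Helper89.CV (ofMask)
open Pool.Agent.Helper79.CV
open Pool.Agent.Helper63.SIMD
open Pool.Agent.Helper33.CV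

theorem lin_expandQ : Lin expandQ := by
  unfold expandQ
  exact
    ((lin_eStep qM16 1).comp ((lin_eStep qM15 2).comp ((lin_eStep qM14 4).comp ((lin_eStep qM13
      8).comp ((lin_eStep qM12 16).comp ((lin_eStep qM11 32).comp ((lin_eStep qM10 64).comp
      ((lin_eStep qM9 128).comp ((lin_eStep qM8 256).comp ((lin_eStep qM7 512).comp ((lin_eStep
      qM6 1024).comp ((lin_eStep qM5 2048).comp ((lin_eStep qM4 4096).comp ((lin_eStep qM3
      8192).comp ((lin_eStep qM2 16384).comp ((lin_eStep qM1 32768).comp (lin_eStep qM0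
      65536)))))))))))))))))

theorem lin_expandT : Lin expandT := by
  unfold expandT
  exact
    ((lin_eStep tM10 1).comp ((lin_eStep tM9 2).comp ((lin_eStep tM8 4).comp ((lin_eStep tM7
      8).comp ((lin_eStep tM6 16).comp ((lin_eStep tM5 32).comp ((lin_eStep tM4 64).comp
      ((lin_eStep tM3 128).comp ((lin_eStep tM2 256).comp ((lin_eStep tM1 512).comp (lin_eStep tM0
      1024)))))))))))

/-- the new place of a bit under `expandQ` -/
noncomputable def pQ (b : ℕ) : ℕ :=
  frc (pStep qM16 1) (frc (pStep qM15 2) (frc (pStep qM14 4) (frc (pStep qM13 8) (frc (pStep qM12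
    16) (frc (pStep qM11 32) (frc (pStep qM10 64) (frc (pStep qM9 128) (frc (pStep qM8 256) (frc
    (pStep qM7 512) (frc (pStep qM6 1024) (frc (pStep qM5 2048) (frc (pStep qM4 4096) (frc (pStep
    qM3 8192) (frc (pStep qM2 16384) (frc (pStep qM1 32768) (frc (pStep qM0 65536)
    b))))))))))))))))

/-- the new place of a bit under `expandT` -/
noncomputable def pT (b : ℕ) : ℕ :=
  frc (pStep tM10 1) (frc (pStep tM9 2) (frc (pStep tM8 4) (frc (pStep tM7 8) (frc (pStep tM6 16)
    (frc (pStep tM5 32) (frc (pStep tM4 64) (frc (pStep tM3 128) (frc (pStep tM2 256) (frc (pStep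
    tM1 512) (frc (pStep tM0 1024) b))))))))))

theorem expandQ_two_pow (b : ℕ) : expandQ (2 ^ b) = 2 ^ pQ b := by
  unfold expandQ pQ
  simp only [frc_eq, eStep_two_pow]

theorem expandT_two_pow (b : ℕ) : expandT (2 ^ b) = 2 ^ pT b := by
  unfold expandT pT
  simp only [frc_eq, eStep_two_pow]

/-- the check of places `f (a + r) = c + l[r]` -/
noncomputable def plOK (f : ℕ → ℕ) (a c : ℕ) (l : List ℕ) : ℕ → Bool :=
  @List.rec ℕ (fun _ => ℕ → Bool) (fun _ => true)
    (fun m _ ih r => (Nat.beq (f (Nat.add a r)) (Nat.add c m)).and (ih (Nat.succ r))) l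

theorem plOK_cons (f : ℕ → ℕ) (a c m : ℕ) (l : List ℕ) (r : ℕ) : plOK f a c (m :: l) r =
    ((Nat.beq (f (a + r)) (c + m)).and (plOK f a c l (r + 1))) := rfl

theorem and_true_iff {a b : Bool} (h : a.and b = true) : a = true ∧ b = true := by
  cases a <;> cases b <;> simp_all

theorem plOK_spec {f : ℕ → ℕ} {a c : ℕ} : ∀ {l : List ℕ} {r : ℕ}, plOK f a c l r = true →
    ∀ (k : ℕ) (hk : k < l.length), f (a + (r + k)) = c + l[k]
  | [], _, _, k, hk => absurd hk (Nat.not_lt_zero k)
  | m :: l, r, h, k, hk => by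
    rw [plOK_cons] at h
    have h' := and_true_iff h
    cases k with
    | zero => exact Nat.eq_of_beq_eq_true h'.1
    | succ k =>
      have h2 := plOK_spec h'.2 k (Nat.lt_of_succ_lt_succ hk)
      rw [show r + (k + 1) = r + 1 + k by omega, h2]
      rfl

/-- lanes `lo, .., lo + n - 1` of `expandQ` -/
noncomputable def lanesQ (lo n : ℕ) : Bool :=
  @Nat.rec (fun _ => Bool) true
    (fun k ih => ih.and (plOK pQ (Nat.mul 330 (Nat.add lo k)) (Nat.mul 2048 (Nat.add lo k))
      (L 11 4) 0)) n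

theorem lanesQ_spec {lo : ℕ} : ∀ {n : ℕ}, lanesQ lo n = true → ∀ k < n,
    plOK pQ (330 * (lo + k)) (2048 * (lo + k)) (L 11 4) 0 = true
  | 0, _, k, hk => absurd hk (Nat.not_lt_zero k)
  | n + 1, h, k, hk => by
    have h0 : (lanesQ lo n).and (plOK pQ (330 * (lo + n)) (2048 * (lo + n)) (L 11 4) 0) = true := h
    have h' := and_true_iff h0
    rcases Nat.lt_succ_iff_lt_or_eq.1 hk with h2 | h2
    · exact lanesQ_spec h'.1 k h2
    · rw [h2]
      exact h'.2

theorem lanesQ_0 : lanesQ 0 8 = true := by decide +kernel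
theorem lanesQ_8 : lanesQ 8 8 = true := by decide +kernel
theorem lanesQ_16 : lanesQ 16 8 = true := by decide +kernel
theorem lanesQ_24 : lanesQ 24 8 = true := by decide +kernel
theorem lanesQ_32 : lanesQ 32 8 = true := by decide +kernel
theorem lanesQ_40 : lanesQ 40 8 = true := by decide +kernel
theorem lanesQ_48 : lanesQ 48 8 = true := by decide +kernel
theorem lanesQ_56 : lanesQ 56 8 = true := by decide +kernel

theorem pQ_lane {i : ℕ} (hi : i < 64) {r : ℕ} (hr : r < (L 11 4).length) :
    pQ (330 * i + r) = 2048 * i + (L 11 4)[r] := by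
  have e : i = 8 * (i / 8) + i % 8 := (Nat.div_add_mod i 8).symm
  have h8 : i % 8 < 8 := Nat.mod_lt _ (by norm_num)
  have h : i / 8 < 8 := by omega
  have key : plOK pQ (330 * i) (2048 * i) (L 11 4) 0 = true := by
    rw [e]
    interval_cases i / 8
    · exact lanesQ_spec lanesQ_0 _ h8
    · exact lanesQ_spec lanesQ_8 _ h8
    · exact lanesQ_spec lanesQ_16 _ h8
    · exact lanesQ_spec lanesQ_24 _ h8
    · exact lanesQ_spec lanesQ_32 _ h8
    · exact lanesQ_spec lanesQ_40 _ h8
    · exact lanesQ_spec lanesQ_48 _ h8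
    · exact lanesQ_spec lanesQ_56 _ h8
  have h1 := plOK_spec key r hr
  rw [Nat.zero_add] at h1
  exact h1

theorem plT : plOK pT 0 0 (L 11 3) 0 = true := by decide +kernel

theorem pT_lane {r : ℕ} (hr : r < (L 11 3).length) : pT r = (L 11 3)[r] := by
  have h1 := plOK_spec plT r hr
  rw [Nat.zero_add, Nat.zero_add, Nat.zero_add] at h1
  exact h1

theorem length_L4 : (L 11 4).length = 330 := by decide +kernel

theorem length_L3 : (L 11 3).length = 165 := by decide +kernel

/-- `expandQ` bit by bit -/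
theorem testBit_expandQ {X : ℕ} (hX : X < 2 ^ 21120) {i m : ℕ} (hm : m < 2048) :
    (expandQ X).testBit (2048 * i + m) = true ↔
      i < 64 ∧ ∃ r, ∃ (hr : r < (L 11 4).length), (L 11 4)[r] = m ∧
        X.testBit (330 * i + r) = true := by
  rw [lin_expandQ.testBit (2048 * i + m) 21120 X hX]
  constructor
  · rintro ⟨b, hb, h1, h2⟩
    have hi' : b / 330 < 64 := by omega
    have hr : b % 330 < (L 11 4).length := by
      rw [length_L4]
      exact Nat.mod_lt _ (by norm_num)
    have h5 := pQ_lane hi' hr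
    rw [Nat.div_add_mod] at h5
    rw [expandQ_two_pow, h5, Nat.testBit_two_pow, decide_eq_true_eq] at h2
    have h6 : (L 11 4)[b % 330] < 2048 := lt_of_mem_L (List.getElem_mem hr)
    have h9 : b / 330 = i ∧ (L 11 4)[b % 330] = m := by
      constructor <;> omega
    refine ⟨h9.1 ▸ hi', b % 330, hr, h9.2, ?_⟩
    rw [← h9.1, Nat.div_add_mod]
    exact h1
  · rintro ⟨hi, r, hr, h1, h2⟩
    have hr' : r < 330 := by
      rw [length_L4] at hr
      exact hr
    refine ⟨330 * i + r, by omega, h2, ?_⟩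
    rw [expandQ_two_pow, pQ_lane hi hr, h1]
    exact Nat.testBit_two_pow_self

theorem testBit_expandT {X : ℕ} (hX : X < 2 ^ 165) (m : ℕ) :
    (expandT X).testBit m = true ↔
      ∃ r, ∃ (hr : r < (L 11 3).length), (L 11 3)[r] = m ∧ X.testBit r = true := by
  rw [lin_expandT.testBit m 165 X hX]
  constructor
  · rintro ⟨b, hb, h1, h2⟩
    have hr : b < (L 11 3).length := by
      rw [length_L3]
      exact hb
    rw [expandT_two_pow, pT_lane hr, Nat.testBit_two_pow, decide_eq_true_eq] at h2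
    exact ⟨b, hr, h2, h1⟩
  · rintro ⟨r, hr, h1, h2⟩
    have hr' : r < 165 := by
      rw [length_L3] at hr
      exact hr
    refine ⟨r, hr', h2, ?_⟩
    rw [expandT_two_pow, pT_lane hr, h1]
    exact Nat.testBit_two_pow_self

/-- the cube code of a coded family of 4-subsets, lane by lane -/
theorem testBit_expandQ_fam {X : ℕ} (hX : X < 2 ^ 21120) {i m : ℕ} (hi : i < 64)
    (hm : m < 2048) : (expandQ X).testBit (2048 * i + m) =
      decide (ofMask m ∈ fam 11 4 (fld 330 X i)) := by
  rw [Bool.eq_iff_iff, testBit_expandQ hX hm, decide_eq_true_eq, mem_fam]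
  have hm13 : m < 2 ^ 13 := lt_trans hm (by norm_num)
  constructor
  · rintro ⟨-, r, hr, h1, h2⟩
    have hr' : r < 330 := by
      rw [length_L4] at hr
      exact hr
    refine ⟨r, hr, ?_, ?_⟩
    · rw [testBit_fld, decide_eq_true hr', Bool.true_and]
      exact h2
    · rw [h1]
  · rintro ⟨r, hr, h1, h2⟩
    rw [testBit_fld, Bool.and_eq_true] at h1
    refine ⟨hi, r, hr, ?_, h1.2⟩
    refine ofMask_injOn ?_ hm13 h2
    exact lt_trans (lt_of_mem_L (List.getElem_mem hr)) (by norm_num)

theorem testBit_expandT_fam {X : ℕ} (hX : X < 2 ^ 165) {m : ℕ} (hm : m < 2048) :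
    (expandT X).testBit m = decide (ofMask m ∈ fam 11 3 X) := by
  rw [Bool.eq_iff_iff, testBit_expandT hX, decide_eq_true_eq, mem_fam]
  have hm13 : m < 2 ^ 13 := lt_trans hm (by norm_num)
  constructor
  · rintro ⟨r, hr, h1, h2⟩
    exact ⟨r, hr, h2, by rw [h1]⟩
  · rintro ⟨r, hr, h1, h2⟩
    refine ⟨r, hr, ?_, h1⟩
    refine ofMask_injOn ?_ hm13 h2
    exact lt_trans (lt_of_mem_L (List.getElem_mem hr)) (by norm_num)

end Pool.Agent.Helper82.TY
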