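import Pool.Agent.Helper97.CV.Count

/-!
MP_8ee768_co, project TH-Y': the minimal cover WLOG (flips by even covers) and relabelling.
-/

set_option autoImplicit false

namespace Pool.Agent.Helper82.TY

open Finset Pool.Agent.Helper89.CV Pool.Agent.Helper97.CV

/-- a family of 5-sets in which every 4-set lies an even number of times -/
def EvenCover (C : Finset (Finset (Fin 13))) : Prop :=
  (∀ b ∈ C, b.card = 5) ∧ ∀ q : Finset (Fin 13), q.card = 4 → Even (C.filter fun b => q ⊆ b).card

section symm

variable {α : Type} [DecidableEq α]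

theorem card_symmDiff_add (X Y : Finset α) :
    (symmDiff X Y).card + 2 * (X ∩ Y).card = X.card + Y.card := by
  have h1 : (symmDiff X Y).card = (X \ Y).card + (Y \ X).card := by
    rw [symmDiff_def, sup_eq_union]
    exact card_union_of_disjoint disjoint_sdiff_sdiff
  have h2 := card_sdiff_add_card_inter X Y
  have h3 := card_sdiff_add_card_inter Y X
  rw [inter_comm Y X] at h3
  omega

theorem filter_symmDiff' (X Y : Finset α) (p : α → Prop) [DecidablePred p] :
    (symmDiff X Y).filter p = symmDiff (X.filter p) (Y.filter p) := by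
  ext a
  simp only [mem_filter, mem_symmDiff]
  tauto

theorem filter_inter'' (X Y : Finset α) (p : α → Prop) [DecidablePred p] :
    (X ∩ Y).filter p = (X.filter p) ∩ (Y.filter p) := by
  ext a
  simp only [mem_filter, mem_inter]
  tauto

end symm

theorem cnt_symmDiff (B C : Finset (Finset (Fin 13))) (s : Finset (Fin 13)) :
    cnt (symmDiff B C) s + 2 * cnt (B ∩ C) s = cnt B s + cnt C s := by
  unfold cnt
  rw [filter_symmDiff', filter_inter'']
  exact card_symmDiff_add _ _

theorem flip_odd {B C : Finset (Finset (Fin 13))} (hB : OddCover B) (hC : EvenCover C) :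
    OddCover (symmDiff B C) := by
  constructor
  · intro b hb
    rcases mem_symmDiff.1 hb with h | h
    · exact hB.1 b h.1
    · exact hC.1 b h.1
  · intro q hq
    have h1 := cnt_symmDiff B C q
    have h2 : Odd (cnt B q) := hB.2 q hq
    have h3 : Even (cnt C q) := hC.2 q hq
    change Odd (cnt (symmDiff B C) q)
    rw [Nat.odd_iff] at h2 ⊢
    rw [Nat.even_iff] at h3
    omega

theorem add_even {B C : Finset (Finset (Fin 13))} (hB : EvenCover B) (hC : EvenCover C) :
    EvenCover (symmDiff B C) := by
  constructor
  · intro b hb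
    rcases mem_symmDiff.1 hb with h | h
    · exact hB.1 b h.1
    · exact hC.1 b h.1
  · intro q hq
    have h1 := cnt_symmDiff B C q
    have h2 : Even (cnt B q) := hB.2 q hq
    have h3 : Even (cnt C q) := hC.2 q hq
    change Even (cnt (symmDiff B C) q)
    rw [Nat.even_iff] at h2 h3 ⊢
    omega

/-- the effect of a flip on the excess of a point -/
theorem MM_flip {B C : Finset (Finset (Fin 13))} (hB : OddCover B) (hC : EvenCover C)
    (z : Fin 13) :
    MM (symmDiff B C) z + 4 * cnt (B ∩ C) {z} = MM B z + 2 * cnt C {z} := by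
  have h1 := cnt_symmDiff B C {z}
  have h2 := two_cnt_point hB z
  have h3 := two_cnt_point (flip_odd hB hC) z
  omega

/-- number of points with excess `v` -/
def nv (B : Finset (Finset (Fin 13))) (v : ℕ) : ℕ := (univ.filter fun z => MM B z = v).card

/-- the potential: large if the sorted vector of the `MM` is lexicographically small -/
def pot (B : Finset (Finset (Fin 13))) : ℕ := ∑ z, 14 ^ (88 - MM B z)

/-- an odd cover of minimum size with lexicographically smallest sorted vector of the `MM` -/
structure Best (B : Finset (Finset (Fin 13))) : Prop where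
  odd : OddCover B
  le : B.card ≤ 157
  min : ∀ B', OddCover B' → B.card ≤ B'.card
  pot_le : ∀ B', OddCover B' → B'.card = B.card → pot B' ≤ pot B

theorem exists_best (h : ∃ B, OddCover B ∧ B.card ≤ 157) : ∃ B, Best B := by
  classical
  obtain ⟨B0, hB0, hc0⟩ := h
  obtain ⟨B1, hB1, hmin⟩ := Finset.exists_min_image
    (univ.filter fun B : Finset (Finset (Fin 13)) => OddCover B) (fun B => B.card)
    ⟨B0, by simp [hB0]⟩
  rw [mem_filter] at hB1
  obtain ⟨B2, hB2, hmax⟩ := Finset.exists_max_image
    (univ.filter fun B : Finset (Finset (Fin 13)) => OddCover B ∧ B.card = B1.card) pot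
    ⟨B1, by simp [hB1.2]⟩
  rw [mem_filter] at hB2
  refine ⟨B2, hB2.2.1, ?_, ?_, ?_⟩
  · rw [hB2.2.2]
    exact (hmin B0 (by simp [hB0])).trans hc0
  · intro B' hB'
    rw [hB2.2.2]
    exact hmin B' (by simp [hB'])
  · intro B' hB' hc
    exact hmax B' (by simp [hB', hc, hB2.2.2])

section best

variable {B : Finset (Finset (Fin 13))}

theorem Best.inter_le (hB : Best B) {C : Finset (Finset (Fin 13))} (hC : EvenCover C) :
    2 * (B ∩ C).card ≤ C.card := by
  have h1 := hB.min _ (flip_odd hB.odd hC)
  have h2 := card_symmDiff_add B C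
  omega

theorem Best.flip_card (hB : Best B) {C : Finset (Finset (Fin 13))}
    (he : C.card ≤ 2 * (B ∩ C).card) (hC : EvenCover C) :
    (symmDiff B C).card = B.card := by
  have h1 := hB.inter_le hC
  have h2 := card_symmDiff_add B C
  omega

theorem MM_le_88 {B : Finset (Finset (Fin 13))} (hB : OddCover B) (h : B.card ≤ 157)
    (z : Fin 13) : MM B z ≤ 88 :=
  (single_le_sum (f := fun z => MM B z) (fun _ _ => Nat.zero_le _) (mem_univ z)).trans
    (sum_MM_le hB h)

/-- if a vertex goes down under a balanced flip, some vertex that was low goes up -/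
theorem Best.up_of_down (hB : Best B) {B' : Finset (Finset (Fin 13))} (hB' : OddCover B')
    (hc : B'.card = B.card) {z : Fin 13} (hz : MM B' z < MM B z) :
    ∃ u, MM B u < MM B' u ∧ MM B u ≤ MM B' z := by
  by_contra hcon
  push Not at hcon
  have hpot := hB.pot_le B' hB' hc
  have h88 : ∀ v, MM B v ≤ 88 := MM_le_88 hB.odd hB.le
  have h88' : ∀ v, MM B' v ≤ 88 := MM_le_88 hB' (hc ▸ hB.le)
  set r := MM B' z with hr
  -- compare termwise
  have hterm : ∀ v ∈ (univ : Finset (Fin 13)).erase z,
      14 ^ (88 - MM B v) ≤ 14 ^ (88 - MM B' v) + 14 ^ (88 - (r + 1)) := by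
    intro v _
    rcases le_or_gt (MM B' v) (MM B v) with h | h
    · exact (Nat.pow_le_pow_right (by norm_num) (by omega)).trans (Nat.le_add_right _ _)
    · have h1 := hcon v h
      exact (Nat.pow_le_pow_right (by norm_num) (by omega)).trans (Nat.le_add_left _ _)
  have hsum := sum_le_sum hterm
  rw [sum_add_distrib, sum_const, card_erase_of_mem (mem_univ z), card_univ,
    Fintype.card_fin, smul_eq_mul] at hsum
  have hz' : 14 ^ (88 - MM B z) ≤ 14 ^ (88 - (r + 1)) :=
    Nat.pow_le_pow_right (by norm_num) (by omega)
  have hz'' : 14 ^ (88 - r) = 14 * 14 ^ (88 - (r + 1)) := by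
    have h2 := h88 z
    have h3 : 88 - r = (88 - (r + 1)) + 1 := by omega
    rw [h3, pow_succ, mul_comm]
  unfold pot at hpot
  rw [← add_sum_erase _ _ (mem_univ z), ← add_sum_erase _ _ (mem_univ z)] at hpot
  have hpos : 0 < 14 ^ (88 - (r + 1)) := Nat.pos_of_ne_zero (by positivity)
  rw [← hr, hz''] at hpot
  omega

/-- balanced flips: a vertex that goes down forces a low vertex that goes up -/
theorem Best.flip_up (hB : Best B) {C : Finset (Finset (Fin 13))} (hC : EvenCover C)
    (he : C.card ≤ 2 * (B ∩ C).card) {z : Fin 13} (hz : cnt C {z} < 2 * cnt (B ∩ C) {z}) :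
    ∃ u, 2 * cnt (B ∩ C) {u} < cnt C {u} ∧
      MM B u + 4 * cnt (B ∩ C) {z} ≤ MM B z + 2 * cnt C {z} := by
  have h1 := MM_flip hB.odd hC z
  obtain ⟨u, hu1, hu2⟩ := hB.up_of_down (flip_odd hB.odd hC) (hB.flip_card he hC) (z := z) (by omega)
  have h2 := MM_flip hB.odd hC u
  exact ⟨u, by omega, by omega⟩

/-- the potential by values -/
theorem pot_eq {B : Finset (Finset (Fin 13))} (h : ∀ z, MM B z ≤ 88) :
    pot B = ∑ v ∈ range 89, nv B v * 14 ^ (88 - v) := by
  unfold pot nv
  rw [← sum_fiberwise_of_maps_to (s := univ) (t := range 89) (g := fun z => MM B z)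
    (fun z _ => mem_range.2 (by have := h z; omega))]
  refine sum_congr rfl fun v _ => ?_
  rw [sum_congr rfl (g := fun _ => 14 ^ (88 - v)), sum_const, smul_eq_mul]
  intro z hz
  rw [(mem_filter.1 hz).2]

theorem sum_nv {B : Finset (Finset (Fin 13))} (s : Finset ℕ) : ∑ v ∈ s, nv B v ≤ 13 := by
  unfold nv
  rw [← card_biUnion]
  · exact (card_le_card (subset_univ _)).trans (by rw [card_univ, Fintype.card_fin])
  · intro i _ j _ hij
    rw [Function.onFun, disjoint_left]
    intro z hz hz'
    rw [mem_filter] at hz hz'
    exact hij (hz.2.symm.trans hz'.2)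

/-- refined form: the sorted vector of a cover of the same size is not lexicographically smaller -/
theorem Best.lex (hB : Best B) {B' : Finset (Finset (Fin 13))} (hB' : OddCover B')
    (hc : B'.card = B.card) (v : ℕ) (hv : ∀ w < v, nv B' w = nv B w) : nv B' v ≤ nv B v := by
  have h88 : ∀ v, MM B v ≤ 88 := MM_le_88 hB.odd hB.le
  have h88' : ∀ v, MM B' v ≤ 88 := MM_le_88 hB' (hc ▸ hB.le)
  have hpot := hB.pot_le B' hB' hc
  rw [pot_eq h88, pot_eq h88'] at hpot
  by_contra hcon
  push Not at hcon
  have hv88 : v < 89 := by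
    by_contra h1
    have : nv B' v = 0 := by
      unfold nv
      rw [card_eq_zero, filter_eq_empty_iff]
      intro z _ h2
      have := h88' z
      omega
    omega
  have hsplit : range 89 = (range v ∪ {v}) ∪ (range 89).filter (fun w => v < w) := by
    ext w
    simp only [mem_union, mem_range, mem_singleton, mem_filter]
    omega
  have hd1 : Disjoint (range v ∪ {v}) ((range 89).filter (fun w => v < w)) := by
    rw [disjoint_left]
    intro w hw hw'
    simp only [mem_union, mem_range, mem_singleton, mem_filter] at hw hw'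
    omega
  have hd2 : Disjoint (range v) {v} := by
    rw [disjoint_singleton_right, mem_range]
    omega
  rw [hsplit, sum_union hd1, sum_union hd2, sum_union hd1, sum_union hd2, sum_singleton,
    sum_singleton] at hpot
  have h1 : ∑ w ∈ range v, nv B' w * 14 ^ (88 - w) = ∑ w ∈ range v, nv B w * 14 ^ (88 - w) :=
    sum_congr rfl fun w hw => by rw [hv w (mem_range.1 hw)]
  have h2 : ∑ w ∈ (range 89).filter (fun w => v < w), nv B w * 14 ^ (88 - w) ≤
      13 * 14 ^ (88 - (v + 1)) := by
    refine (sum_le_sum (g := fun w => nv B w * 14 ^ (88 - (v + 1))) fun w hw => ?_).trans ?_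
    · rw [mem_filter] at hw
      exact Nat.mul_le_mul_left _ (Nat.pow_le_pow_right (by norm_num) (by omega))
    · rw [← sum_mul]
      exact Nat.mul_le_mul_right _ (sum_nv _)
  have h3 : (nv B v + 1) * 14 ^ (88 - v) ≤ nv B' v * 14 ^ (88 - v) :=
    Nat.mul_le_mul_right _ hcon
  have h4 : 13 * 14 ^ (88 - (v + 1)) < 14 ^ (88 - v) := by
    rcases Nat.lt_or_ge v 88 with h5 | h5
    · have h6 : 88 - v = (88 - (v + 1)) + 1 := by omega
      rw [h6, pow_succ]
      have hpos : 0 < 14 ^ (88 - (v + 1)) := Nat.pos_of_ne_zero (by positivity)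
      omega
    · -- v = 88: then the tail is empty, but the crude bound fails, so argue directly
      exfalso
      have hv' : v = 88 := by omega
      subst hv'
      have h7 : ∀ B : Finset (Finset (Fin 13)), (∀ z, MM B z ≤ 88) →
          ∑ w ∈ range 88, nv B w + nv B 88 = 13 := by
        intro B hB
        have h8 : ∑ w ∈ range 89, nv B w = 13 := by
          unfold nv
          rw [← card_biUnion]
          · have : (range 89).biUnion (fun v => univ.filter fun z => MM B z = v) =
                (univ : Finset (Fin 13)) := by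
              ext z
              simp only [mem_biUnion, mem_range, mem_filter, mem_univ, true_and, iff_true]
              exact ⟨MM B z, by have := hB z; omega, rfl⟩
            rw [this, card_univ, Fintype.card_fin]
          · intro i _ j _ hij
            rw [Function.onFun, disjoint_left]
            intro z hz hz'
            rw [mem_filter] at hz hz'
            exact hij (hz.2.symm.trans hz'.2)
        rwa [sum_range_succ] at h8
      have h9 := h7 B h88
      have h10 := h7 B' h88'
      have h11 : ∑ w ∈ range 88, nv B' w = ∑ w ∈ range 88, nv B w :=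
        sum_congr rfl fun w hw => hv w (mem_range.1 hw)
      omega
  rw [h1] at hpot
  have h5 : 0 ≤ ∑ w ∈ (range 89).filter (fun w => v < w), nv B' w * 14 ^ (88 - w) :=
    Nat.zero_le _
  rw [add_mul, one_mul] at h3
  omega

end best

end Pool.Agent.Helper82.TY
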