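import Pool.Agent.Helper82.TY.Bd

/-!
MP_8ee768_co, project TH-Y', LINKAGE (6), (7): lanes. Root point 12. The lane of a point `y` is the
code (over `L 12 5`, 792 bits) of the blocks through `y` avoiding 12.
-/

set_option autoImplicit false

namespace Pool.Agent.Helper82.TY

open Finset
open Pool.Agent.Helper89.CV (OddCover ofMask)
open Pool.Agent.Helper97.CV Pool.Agent.Helper79.CV

/-- the lane of `y`: blocks through `y` avoiding 12 -/
def lane (B : Finset (Finset (Fin 13))) (y : Fin 13) : ℕ := enc 12 5 (B.filter fun b => y ∈ b)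

/-- code of the 5-subsets of `{0, .., 11}` through `y` -/
def meet (y : ℕ) : ℕ := supM 12 5 (2 ^ y)

theorem ofMask_two_pow_lane (y : Fin 13) : ofMask (2 ^ y.val) = {y} := by
  ext i
  rw [mem_ofMask, Nat.testBit_two_pow, decide_eq_true_eq, mem_singleton]
  exact ⟨fun h => (Fin.ext h).symm, fun h => by rw [h]⟩

theorem two_pow_lt (y : Fin 13) : 2 ^ y.val < 2 ^ 13 := Nat.pow_lt_pow_right (by norm_num) y.isLt

/-- filtering by a point is masking with its star -/
theorem enc_filter_mem {n : ℕ} (hn : n ≤ 13) (k : ℕ) (D : Finset (Finset (Fin 13)))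
    (y : Fin 13) :
    enc n k (D.filter fun b => y ∈ b) = Nat.land (enc n k D) (supM n k (2 ^ y.val)) := by
  have h := enc_filter_sup (n := n) (k := k) hn (two_pow_lt y) D
  rw [ofMask_two_pow_lane] at h
  simp only [singleton_subset_iff] at h
  exact h

/-- the join condition: two lanes agree on the blocks through both points -/
theorem lane_meet (B : Finset (Finset (Fin 13))) (y z : Fin 13) :
    Nat.land (lane B y) (meet z.val) = enc 12 5 (B.filter fun b => y ∈ b ∧ z ∈ b) := by
  unfold lane meet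
  rw [← enc_filter_mem (by norm_num) 5 _ z, filter_filter]

theorem lane_meet_comm (B : Finset (Finset (Fin 13))) (y z : Fin 13) :
    Nat.land (lane B y) (meet z.val) = Nat.land (lane B z) (meet y.val) := by
  rw [lane_meet, lane_meet]
  congr 1
  ext b
  simp only [mem_filter]
  tauto

/-- a lane consists of 5-sets through its point -/
theorem lane_self (B : Finset (Finset (Fin 13))) (y : Fin 13) :
    Nat.land (lane B y) (meet y.val) = lane B y := by
  rw [lane_meet]
  unfold lane
  congr 1
  ext b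
  simp only [mem_filter]
  tauto

theorem sub_twelve {b : Finset (Fin 13)} (h5 : b.card = 5) (h12 : (12 : Fin 13) ∉ b) :
    Pool.Agent.Helper79.CV.Sub 12 5 b := by
  refine ⟨mk_lt_iff.2 fun a ha => ?_, h5⟩
  have h1 : a ≠ 12 := fun h => h12 (h ▸ ha)
  have h2 : a.val ≠ 12 := fun h => h1 (Fin.ext h)
  have h3 := a.isLt
  omega

theorem notMem_of_sub {b : Finset (Fin 13)} {k : ℕ} (h : Pool.Agent.Helper79.CV.Sub 12 k b) :
    (12 : Fin 13) ∉ b := by
  intro h1
  have h2 := (mk_lt_iff.1 h.1) 12 h1
  exact absurd h2 (by decide)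

/-- the number of blocks of a lane -/
theorem pop_lane {B : Finset (Finset (Fin 13))} (hB : OddCover B) (y : Fin 13) :
    pop (lane B y) = (B.filter fun b => y ∈ b ∧ (12 : Fin 13) ∉ b).card := by
  have h1 : lane B y = enc 12 5 (B.filter fun b => y ∈ b ∧ (12 : Fin 13) ∉ b) := by
    unfold lane
    refine enc_congr (by norm_num) fun s hs => ?_
    simp only [mem_filter]
    have := notMem_of_sub hs
    tauto
  rw [h1]
  refine (card_eq_pop (by norm_num) fun s hs => ?_).symm
  rw [mem_filter] at hs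
  exact sub_twelve (hB.1 s hs.1) hs.2.2

/-- the excess of `y` from its lane -/
theorem two_pop_lane {B : Finset (Finset (Fin 13))} (hB : OddCover B) {y : Fin 13}
    (hy : y ≠ 12) : 2 * (pop (lane B y) + 19 + 2 * mm B 12 y) = 114 + MM B y := by
  rw [← two_cnt_point hB y, pop_lane hB, add_assoc, mm_comm, ← cnt_pair hB hy]
  congr 1
  unfold cnt
  have h1 := card_filter_add_card_filter_not (s := B.filter fun b => {y} ⊆ b)
    (fun b => (12 : Fin 13) ∉ b)
  rw [← h1]
  congr 1
  · rw [filter_filter]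
    congr 1
    ext b
    simp only [mem_filter, singleton_subset_iff]
  · rw [filter_filter]
    congr 1
    ext b
    simp only [mem_filter, not_not, singleton_subset_iff, insert_subset_iff]

theorem link_filter_mem (B : Finset (Finset (Fin 13))) {y : Fin 13} (hy : y ≠ 12) :
    link (B.filter fun b => y ∈ b) 12 = (link B 12).filter fun s => y ∈ s := by
  ext s
  simp only [mem_link, mem_filter, mem_insert]
  constructor
  · rintro ⟨h2, h3, h4⟩
    exact ⟨⟨h2, h3⟩, h4.resolve_left hy⟩
  · rintro ⟨⟨h2, h3⟩, h4⟩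
    exact ⟨h2, h3, Or.inr h4⟩

theorem enc_split_12 (D : Finset (Finset (Fin 13))) :
    enc 13 5 D = enc 12 5 D + 2 ^ 792 * enc 12 4 (link D 12) := by
  have h := enc_split (12 : Fin 13) 4 D
  have h1 : Nat.choose ((12 : Fin 13) : ℕ) (4 + 1) = 792 := by decide
  rw [h1] at h
  exact h

/-- the code of all blocks through `y`, from the root code and the lane -/
theorem enc_star (B : Finset (Finset (Fin 13))) {y : Fin 13} (hy : y ≠ 12) :
    enc 13 5 (B.filter fun b => y ∈ b) =
      lane B y + 2 ^ 792 * Nat.land (enc 12 4 (link B 12)) (supM 12 4 (2 ^ y.val)) := by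
  rw [enc_split_12, link_filter_mem B hy, enc_filter_mem (by norm_num) 4 _ y]
  rfl

theorem link_known (B : Finset (Finset (Fin 13))) (y z : Fin 13) :
    link (B.filter fun b => (12 : Fin 13) ∈ b ∨ y ∈ b ∨ z ∈ b) 12 = link B 12 := by
  ext s
  rw [mem_link, mem_link, mem_filter]
  exact ⟨fun h => ⟨h.1, h.2.1⟩, fun h => ⟨h.1, h.2, Or.inl (mem_insert_self _ _)⟩⟩

theorem lor_lane (B : Finset (Finset (Fin 13))) (y z : Fin 13) :
    enc 12 5 (B.filter fun b => (12 : Fin 13) ∈ b ∨ y ∈ b ∨ z ∈ b) =
      Nat.lor (lane B y) (lane B z) := by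
  have h4 : Nat.lor (lane B y) (lane B z) =
      enc 12 5 ((B.filter fun b => y ∈ b) ∪ (B.filter fun b => z ∈ b)) :=
    (enc_union 12 5 _ _).symm
  rw [h4]
  refine enc_congr (by norm_num) fun s hs => ?_
  have h5 := notMem_of_sub hs
  rw [mem_filter, mem_union, mem_filter, mem_filter]
  constructor
  · rintro ⟨h1, h2 | h2 | h2⟩
    · exact absurd h2 h5
    · exact Or.inl ⟨h1, h2⟩
    · exact Or.inr ⟨h1, h2⟩
  · rintro (h1 | h1)
    · exact ⟨h1.1, Or.inr (Or.inl h1.2)⟩
    · exact ⟨h1.1, Or.inr (Or.inr h1.2)⟩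

/-- the blocks meeting `{12, y, z}` as one code -/
theorem enc_known (B : Finset (Finset (Fin 13))) (y z : Fin 13) :
    enc 13 5 (B.filter fun b => (12 : Fin 13) ∈ b ∨ y ∈ b ∨ z ∈ b) =
      Nat.lor (lane B y) (lane B z) + 2 ^ 792 * enc 12 4 (link B 12) := by
  rw [enc_split_12, link_known, lor_lane]

end Pool.Agent.Helper82.TY
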