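import Pool.Agent.Helper82.TY.LayRow
import Pool.Agent.Helper52.TB.RowX

/-!
MP_8ee768_co, project TH-Y': the check of the rows with layers of a range of types.
-/

set_option autoImplicit false

namespace Pool.Agent.Helper82.TY

open Finset Pool.Agent.Helper63.SIMD
open Pool.Agent.Helper89.CV (OddCover ofMask)
open Pool.Agent.Helper97.CV Pool.Agent.Helper79.CV Pool.Agent.Helper33.CV
open Pool.Agent.Helper91.TY
open Pool.Agent.Helper7.TB (typ nl row)
open Pool.Agent.Helper52.TB (rowX)

/-- the check of the chunks `a .. a + m - 1` of the row of the type `t` -/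
noncomputable def rowT (t a m : ℕ) : Bool := force t fun t =>
  @Bool.rec (fun _ => Bool) false
    (force (typ t) fun T => force (Nat.sub (nl t) (Nat.mul 64 a)) fun n =>
      force (Nat.shiftRight (row t) (Nat.mul 21120 a)) fun R => rowC T (dropC a (rowX t)) m n R)
    (Nat.beq (Nat.shiftRight (typ t) 165) 0)

/-- what the modules prove for a type -/
def RowChk (t : ℕ) : Prop :=
  ∀ i < nl t, ∃ a m, 64 * a ≤ i ∧ i < 64 * (a + m) ∧ rowT t a m = true

/-- the whole row -/
noncomputable def rowW (t : ℕ) : Bool :=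
  @Bool.rec (fun _ => Bool) false (rowT t 0 1000) (Nat.ble (nl t) 64000)

theorem rowW_spec {t : ℕ} (h : rowW t = true) : RowChk t := by
  intro i hi
  have e : rowW t = @Bool.rec (fun _ => Bool) false (rowT t 0 1000) (Nat.ble (nl t) 64000) := rfl
  rw [e] at h
  cases h1 : Nat.ble (nl t) 64000 with
  | false =>
    rw [h1] at h
    exact Bool.noConfusion h
  | true =>
    rw [h1] at h
    have h2 := Nat.le_of_ble_eq_true h1
    exact ⟨0, 1000, by omega, by omega, h⟩

/-- a row in parts of `K` chunks -/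
theorem rowT_parts {t K q : ℕ} (hK : 0 < K) (h : ∀ k < q, rowT t (K * k) K = true)
    (h3 : Nat.ble (nl t) (64 * (K * q)) = true) : RowChk t := by
  intro i hi
  have h4 := Nat.le_of_ble_eq_true h3
  have h5 : i / 64 < K * q := by
    rw [Nat.div_lt_iff_lt_mul (by norm_num)]
    omega
  have h6 : i / 64 / K < q := (Nat.div_lt_iff_lt_mul hK).2 (by rw [Nat.mul_comm]; exact h5)
  have h7 := Nat.div_add_mod (i / 64) K
  have h8 := Nat.mod_lt (i / 64) hK
  have h9 := Nat.div_add_mod i 64
  have h10 := Nat.mod_lt i (show 0 < 64 by norm_num)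
  exact ⟨K * (i / 64 / K), K, by omega, by omega, h _ h6⟩

/-- a range of types, whole rows -/
noncomputable def rowsT (a n : ℕ) : Bool :=
  @Nat.rec (fun _ => Bool) true
    (fun k ih => @Bool.rec (fun _ => Bool) false ih (force (Nat.add a k) rowW)) n

theorem rowsT_spec {a : ℕ} : ∀ {n : ℕ}, rowsT a n = true → ∀ t, a ≤ t → t < a + n → RowChk t
  | 0, _, t, h1, h2 => by omega
  | n + 1, h, t, h1, h2 => by
    have e : rowsT a (n + 1) =
      @Bool.rec (fun _ => Bool) false (rowsT a n) (force (a + n) rowW) := rfl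
    rw [e, force_eq] at h
    cases h3 : rowW (a + n) with
    | false =>
      rw [h3] at h
      exact Bool.noConfusion h
    | true =>
      rw [h3] at h
      rcases Nat.lt_or_ge t (a + n) with h4 | h4
      · exact rowsT_spec h t h1 h4
      · have h5 : t = a + n := by omega
        rw [h5]
        exact rowW_spec h3

theorem rowT_iff {t a m : ℕ} (h : rowT t a m = true) : typ t < 2 ^ 165 ∧
    rowC (typ t) (dropC a (rowX t)) m (nl t - 64 * a) (row t >>> (21120 * a)) = true := by
  unfold rowT at h
  simp only [force_eq] at h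
  cases h1 : Nat.beq (Nat.shiftRight (typ t) 165) 0 with
  | false =>
    rw [h1] at h
    exact Bool.noConfusion h
  | true =>
    rw [h1] at h
    have h3 : typ t >>> 165 = 0 := Nat.eq_of_beq_eq_true h1
    refine ⟨?_, h⟩
    rw [Nat.shiftRight_eq_div_pow] at h3
    exact (Nat.div_eq_zero_iff_lt (Nat.two_pow_pos 165)).1 h3

/-- a checked type -/
theorem RowChk.lane {t i : ℕ} (h : RowChk t) {D : Finset (Finset (Fin 13))}
    (hD : ∀ b ∈ D, Sub 12 4 b) (hc : D.card ≤ 60) (hl : link D 11 = fam 11 3 (typ t))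
    (hi : i < nl t) (hq : D.filter (fun b => (11 : Fin 13) ∉ b) = fam 11 4 (fld 330 (row t) i)) :
    LaneOK (rowX t) i (Lay D) := by
  obtain ⟨a, m, h1, h2, h3⟩ := h i hi
  obtain ⟨h4, h5⟩ := rowT_iff h3
  rw [dropC_eq] at h5
  have h6 := rowC_sound h4 hD hc hl _ m _ _ (i - 64 * a) h5 (by omega) (by omega)
    (by rw [fld_shift', show 64 * a + (i - 64 * a) = i by omega]; exact hq)
  have h7 := h6.of_drop
  rwa [show 64 * a + (i - 64 * a) = i by omega] at h7

end Pool.Agent.Helper82.TY
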