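import Pool.Agent.Helper82.TY.Pop
import Pool.Agent.Helper91.TY.CSwap
import Pool.Agent.Helper97.CV.Cube

/-!
MP_8ee768_co, project TH-Y': population counts of the 64 lanes of a chunk, and two bit planes
counting the one-point extensions.
-/

set_option autoImplicit false
set_option exponentiation.threshold 140000

namespace Pool.Agent.Helper82.TY

open Finset Pool.Agent.Helper63.SIMD
open Pool.Agent.Helper91.TY
open Pool.Agent.Helper97.CV.Cube (lane_shr_land)

/-! ### population count of lanes -/

/-- number of one bits of lane `i` -/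
def lc (X i : ℕ) : ℕ := ((range 2048).filter fun m => X.testBit (2048 * i + m) = true).card

/-- mask of the lower halves, chunk of 64 lanes -/
def mgM (w : ℕ) : ℕ := Nat.mul (Nat.sub (Nat.pow 2 w) 1) (rep (2 * w) (65536 / w))

/-- merge of neighbouring fields of width `w` -/
def mg (w x : ℕ) : ℕ :=
  Nat.add (Nat.land x (mgM w)) (Nat.land (Nat.shiftRight x w) (mgM w))

theorem mg_eq (w x : ℕ) : mg w x = merge w (65536 / w) x := rfl

/-- the counts of all lanes -/
def spop (x : ℕ) : ℕ :=
  mg 1024 (mg 512 (mg 256 (mg 128 (mg 64 (mg 32 (mg 16 (mg 8 (mg 4 (mg 2 (mg 1 x))))))))))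

/-- sums of `2 ^ k` neighbouring bits -/
def bs (X k i : ℕ) : ℕ := ∑ j ∈ range (2 ^ k), if X.testBit (2 ^ k * i + j) = true then 1 else 0

theorem bs_le (X k i : ℕ) : bs X k i ≤ 2 ^ k := by
  unfold bs
  calc _ ≤ ∑ _j ∈ range (2 ^ k), 1 := by
        refine sum_le_sum fun j _ => ?_
        split_ifs <;> omega
    _ = 2 ^ k := by rw [sum_const, card_range, smul_eq_mul, mul_one]

theorem bs_succ (X k i : ℕ) : bs X (k + 1) i = bs X k (2 * i) + bs X k (2 * i + 1) := by
  unfold bs
  have h : 2 ^ (k + 1) = 2 ^ k + 2 ^ k := by rw [pow_succ]; ring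
  rw [h, sum_range_add]
  congr 1
  · refine sum_congr rfl fun j _ => ?_
    rw [show (2 ^ k + 2 ^ k) * i + j = 2 ^ k * (2 * i) + j by ring]
  · refine sum_congr rfl fun j _ => ?_
    rw [show (2 ^ k + 2 ^ k) * i + (2 ^ k + j) = 2 ^ k * (2 * i + 1) + j by ring]

theorem pow_lt_pow_pow (k : ℕ) : 2 ^ k < 2 ^ 2 ^ k :=
  Nat.pow_lt_pow_right (by norm_num) Nat.lt_two_pow_self

theorem merge_bs {k n : ℕ} (X : ℕ) : merge (2 ^ k) n (pk (2 ^ k) (2 * n) (bs X k)) =
    pk (2 ^ (k + 1)) n (bs X (k + 1)) := by
  rw [merge_pk (Nat.two_pow_pos k) fun i _ => lt_of_le_of_lt (bs_le X k i) (pow_lt_pow_pow k),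
    pow_succ, Nat.mul_comm (2 ^ k) 2]
  exact pk_congr fun i _ => (bs_succ X k i).symm

theorem pk_bits {X N : ℕ} (hX : X < 2 ^ N) : pk (2 ^ 0) N (bs X 0) = X := by
  have h1 : pk 1 N (fld 1 X) = X := pk_fld (by rw [one_mul]; exact hX)
  conv_rhs => rw [← h1]
  rw [pow_zero]
  refine pk_congr fun i _ => ?_
  unfold bs
  rw [pow_zero, range_one, sum_singleton, one_mul, Nat.add_zero, fld_one]

theorem bs_eleven (X i : ℕ) : bs X 11 i = lc X i := by
  unfold bs lc
  rw [card_filter]
  rfl

/-- **population counts of the lanes of a chunk** -/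
theorem spop_eq {X : ℕ} (hX : X < 2 ^ 131072) : spop X = pk 2048 64 (lc X) := by
  have h0 : X = pk (2 ^ 0) (2 * 65536) (bs X 0) := (pk_bits hX).symm
  have e : ∀ k n : ℕ, n * 2 ^ k = 65536 →
      mg (2 ^ k) (pk (2 ^ k) (2 * n) (bs X k)) = pk (2 ^ (k + 1)) n (bs X (k + 1)) := by
    intro k n hn
    rw [mg_eq, show 65536 / 2 ^ k = n by rw [← hn, Nat.mul_div_cancel _ (Nat.two_pow_pos k)]]
    exact merge_bs X
  have h1 : pk 2048 64 (lc X) = pk (2 ^ 11) 64 (bs X 11) :=
    pk_congr fun i _ => (bs_eleven X i).symm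
  rw [h1]
  unfold spop
  conv_lhs => rw [h0]
  have e0 := e 0 65536 (by norm_num)
  have e1 := e 1 32768 (by norm_num)
  have e2 := e 2 16384 (by norm_num)
  have e3 := e 3 8192 (by norm_num)
  have e4 := e 4 4096 (by norm_num)
  have e5 := e 5 2048 (by norm_num)
  have e6 := e 6 1024 (by norm_num)
  have e7 := e 7 512 (by norm_num)
  have e8 := e 8 256 (by norm_num)
  have e9 := e 9 128 (by norm_num)
  have e10 := e 10 64 (by norm_num)
  clear e h0 h1
  norm_num only at e0 e1 e2 e3 e4 e5 e6 e7 e8 e9 e10 ⊢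
  rw [e0, e1, e2, e3, e4, e5, e6, e7, e8, e9, e10]

theorem card_filter_range_le (n : ℕ) (P : ℕ → Prop) [DecidablePred P] :
    ((range n).filter P).card ≤ n := by
  have h := card_filter_le (range n) P
  rwa [card_range] at h

theorem lc_le (X i : ℕ) : lc X i ≤ 2048 := by
  unfold lc
  generalize (2048 : ℕ) = n
  exact card_filter_range_le n _

theorem lc_mono {X Y i : ℕ}
    (h : ∀ m < 2048, X.testBit (2048 * i + m) = true → Y.testBit (2048 * i + m) = true) :
    lc X i ≤ lc Y i := by
  unfold lc
  refine card_le_card fun m hm => ?_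
  rw [mem_filter, mem_range] at hm ⊢
  exact ⟨hm.1, h m hm.1 hm.2⟩

/-! ### two planes -/

/-- indices avoiding the point `p`, chunk of 64 cube lanes -/
def nibM (p : ℕ) : ℕ := Nat.xor (Nat.sub (Nat.pow 2 131072) 1) (ib 131072 p)

/-- the sets whose extension by `p` belongs to the family -/
def dnP (p X : ℕ) : ℕ := Nat.land (Nat.shiftRight X (Nat.pow 2 p)) (nibM p)

theorem testBit_lane {i m p : ℕ} (hm : m < 2048) (hp : p < 11) :
    (2048 * i + m).testBit p = m.testBit p := by
  rw [show (2048 : ℕ) = 2 ^ 11 by norm_num, Nat.testBit_two_pow_mul_add _ (by norm_num; exact hm),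
    if_pos hp]

theorem testBit_nibM {p g : ℕ} (hp : p < 11) :
    (nibM p).testBit g = (decide (g < 131072) && !g.testBit p) := by
  have h1 : 2 ^ (p + 1) ∣ 131072 := by
    rw [show (131072 : ℕ) = 2 ^ 17 by norm_num]
    exact pow_dvd_pow 2 (by omega)
  have e : nibM p = (2 ^ 131072 - 1) ^^^ (ib 131072 p) := rfl
  rw [e, Nat.testBit_xor, Nat.testBit_two_pow_sub_one, testBit_ib h1]
  cases decide (g < 131072) <;> cases g.testBit p <;> rfl

theorem testBit_dnP {p X i m : ℕ} (hp : p < 11) (hi : i < 64) (hm : m < 2048) :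
    (dnP p X).testBit (2048 * i + m) =
      (!m.testBit p && X.testBit (2048 * i + (m + 2 ^ p))) := by
  have e : dnP p X = (X >>> (2 ^ p)) &&& nibM p := rfl
  rw [e, Nat.testBit_and, testBit_nibM hp, testBit_lane hm hp, Nat.testBit_shiftRight,
    decide_eq_true (show 2048 * i + m < 131072 by omega), Bool.true_and, Bool.and_comm,
    show 2 ^ p + (2048 * i + m) = 2048 * i + (m + 2 ^ p) by omega]

/-- first plane: at least one -/
def oneP (Q T n : ℕ) : ℕ := @Nat.rec (fun _ => ℕ) T (fun p ih => Nat.lor ih (dnP p Q)) n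

/-- second plane: at least two -/
def twoP (Q T n : ℕ) : ℕ :=
  @Nat.rec (fun _ => ℕ) 0 (fun p ih => Nat.lor ih (Nat.land (oneP Q T p) (dnP p Q))) n

/-- the count -/
def cP (Q T g n : ℕ) : ℕ := (if T.testBit g = true then 1 else 0) +
  ((range n).filter fun p => (dnP p Q).testBit g = true).card

theorem cP_succ (Q T g n : ℕ) :
    cP Q T g (n + 1) = cP Q T g n + if (dnP n Q).testBit g = true then 1 else 0 := by
  unfold cP
  rw [range_add_one, filter_insert]
  split_ifs with h1 h2 h2
  · rw [card_insert_of_notMem (by simp)]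
    omega
  · omega
  · rw [card_insert_of_notMem (by simp)]
    omega
  · omega

theorem testBit_oneP (Q T g n : ℕ) : (oneP Q T n).testBit g = decide (1 ≤ cP Q T g n) := by
  induction n with
  | zero =>
    show T.testBit g = _
    unfold cP
    rw [range_zero, filter_empty, card_empty, Nat.add_zero]
    cases T.testBit g <;> simp
  | succ n ih =>
    have e : oneP Q T (n + 1) = oneP Q T n ||| dnP n Q := rfl
    rw [e, Nat.testBit_or, ih, cP_succ]
    cases h : (dnP n Q).testBit g
    · simp
    · simp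

theorem testBit_twoP (Q T g n : ℕ) : (twoP Q T n).testBit g = decide (2 ≤ cP Q T g n) := by
  induction n with
  | zero =>
    show (0 : ℕ).testBit g = _
    unfold cP
    rw [Nat.zero_testBit, range_zero, filter_empty, card_empty, Nat.add_zero]
    symm
    rw [decide_eq_false_iff_not]
    split_ifs <;> omega
  | succ n ih =>
    have e : twoP Q T (n + 1) = twoP Q T n ||| (oneP Q T n &&& dnP n Q) := rfl
    rw [e, Nat.testBit_or, Nat.testBit_and, ih, testBit_oneP, cP_succ]
    cases h : (dnP n Q).testBit g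
    · simp
    · rw [if_pos rfl, Bool.and_true, Bool.eq_iff_iff, Bool.or_eq_true, decide_eq_true_eq,
        decide_eq_true_eq, decide_eq_true_eq]
      omega

/-! ### bits of packed numbers -/

theorem testBit_pk {c : ℕ → ℕ} (hc : ∀ i < 64, c i < 2 ^ 2048) {i r : ℕ} (hi : i < 64)
    (hr : r < 2048) : (pk 2048 64 c).testBit (2048 * i + r) = (c i).testBit r := by
  have h1 := fld_pk hc hi
  have h2 : (fld 2048 (pk 2048 64 c) i).testBit r = (c i).testBit r := by rw [h1]
  rw [testBit_fld, decide_eq_true hr, Bool.true_and] at h2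
  exact h2

theorem pk_lt64 {c : ℕ → ℕ} (hc : ∀ i < 64, c i < 2 ^ 2048) : pk 2048 64 c < 2 ^ 131072 := by
  have h := pk_lt hc
  rwa [show 2048 * 64 = 131072 by norm_num] at h

theorem rep_pk {n : ℕ} (hn : n ≤ 64) :
    rep 2048 n = pk 2048 64 (fun i => if i < n then 1 else 0) := by
  rw [rep_eq (by norm_num)]
  unfold pk
  rw [← sum_subset (range_subset_range.2 hn)]
  · refine sum_congr rfl fun i hi => ?_
    simp only [if_pos (mem_range.1 hi)]
  · intro i _ hi
    rw [mem_range] at hi
    simp only [if_neg hi, Nat.zero_mul]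

theorem one_lt_big : (1 : ℕ) < 2 ^ 2048 := Nat.one_lt_two_pow (by norm_num)

theorem testBit_ite_one {P : Prop} [Decidable P] (r : ℕ) :
    (if P then 1 else 0 : ℕ).testBit r = (decide (r = 0) && decide P) := by
  by_cases h : P
  · rw [if_pos h, decide_eq_true h, Bool.and_true]
    rcases Nat.eq_zero_or_pos r with h1 | h1
    · subst h1
      rfl
    · rw [decide_eq_false (by omega), ← pow_zero 2, Nat.testBit_two_pow_of_ne (by omega)]
  · rw [if_neg h, decide_eq_false h, Bool.and_false, Nat.zero_testBit]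

/-- one bit of every lane: shift, then keep the lowest bit of the first `n` lanes -/
theorem shr_land_rep {a : ℕ → ℕ} (ha : ∀ i < 64, a i < 2 ^ 2048) {n k : ℕ} (hn : n ≤ 64)
    (hk : k < 2048) : (pk 2048 64 a >>> k) &&& rep 2048 n =
      pk 2048 64 (fun i => if i < n ∧ (a i).testBit k = true then 1 else 0) := by
  rw [rep_pk hn, lane_shr_land (by omega) ha]
  · refine pk_congr fun i _ => ?_
    by_cases h : i < n
    · rw [if_pos h, Nat.and_one_is_mod, Nat.shiftRight_eq_div_pow, Nat.testBit_eq_decide_div_mod_eq]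
      have h1 := Nat.mod_two_eq_zero_or_one (a i / 2 ^ k)
      by_cases h2 : a i / 2 ^ k % 2 = 1
      · rw [if_pos ⟨h, decide_eq_true h2⟩, h2]
      · rw [if_neg (fun h3 => h2 (of_decide_eq_true h3.2))]
        omega
    · rw [if_neg h, Nat.and_zero, if_neg (fun h3 => h h3.1)]
  · intro i _
    split_ifs
    · exact Nat.one_lt_two_pow (by omega)
    · exact Nat.two_pow_pos _

/-- move the lowest bits of the lanes to the place `s` -/
theorem testBit_shl_rep {P : ℕ → Prop} [DecidablePred P] {s i m : ℕ} (hs : s < 2048)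
    (hi : i < 64) (hm : m < 2048) :
    ((pk 2048 64 (fun i => if P i then 1 else 0)) <<< s).testBit (2048 * i + m) =
      (decide (m = s) && decide (P i)) := by
  have hb : ∀ i < 64, (fun i => if P i then 1 else 0 : ℕ → ℕ) i < 2 ^ 2048 := by
    intro i _
    show (if P i then 1 else 0 : ℕ) < 2 ^ 2048
    split_ifs
    · exact one_lt_big
    · exact Nat.two_pow_pos _
  rw [Nat.testBit_shiftLeft]
  by_cases h : s ≤ m
  · rw [decide_eq_true (show s ≤ 2048 * i + m by omega), Bool.true_and,
      show 2048 * i + m - s = 2048 * i + (m - s) by omega, testBit_pk hb hi (by omega),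
      testBit_ite_one]
    congr 1
    rw [decide_eq_decide]
    omega
  · rw [decide_eq_false (show ¬ m = s by omega), Bool.false_and]
    by_cases h2 : s ≤ 2048 * i + m
    · have hi1 : 1 ≤ i := by
        by_contra h3
        have : i = 0 := by omega
        subst this
        omega
      rw [decide_eq_true h2, Bool.true_and,
        show 2048 * i + m - s = 2048 * (i - 1) + (2048 + m - s) by omega,
        testBit_pk hb (by omega) (by omega), testBit_ite_one,
        decide_eq_false (show ¬ 2048 + m - s = 0 by omega), Bool.false_and]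
    · rw [decide_eq_false h2, Bool.false_and]

end Pool.Agent.Helper82.TY
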