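import Pool.Agent.Helper82.TY.LayCnt
import Pool.Agent.Helper82.TY.Spop
import Pool.Agent.Helper82.TY.ExpQ
import Pool.Agent.Helper91.TY.Build
import Pool.Agent.Helper52.TY.ExpandT

/-!
MP_8ee768_co, project TH-Y': the check of one chunk of a row with layers.

`chk T n E X`: the first `n` lanes of the chunk `X` (dense code, 64 lanes of 512 bits) are the codes
of the layers of the links with apex link `T` (165 bits) and quads `fld 330 E i`.
-/

set_option autoImplicit false
set_option exponentiation.threshold 140000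

namespace Pool.Agent.Helper82.TY

open Finset Pool.Agent.Helper63.SIMD
open Pool.Agent.Helper89.CV (OddCover ofMask)
open Pool.Agent.Helper97.CV Pool.Agent.Helper79.CV Pool.Agent.Helper33.CV
open Pool.Agent.Helper91.TY
open Pool.Agent.Helper52.TY (expandC dcode)

/-! ### the program -/

/-- the heavy points -/
def degL (W R n : ℕ) : ℕ := @Nat.rec (fun _ => ℕ) 0 (fun p ih => Nat.lor ih (Nat.shiftLeft
  (Nat.land (Nat.shiftRight (Nat.add (spop (Nat.land W (ib 131072 p))) (Nat.mul 107 R)) 7) R)
  (Nat.pow 2 p))) n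

/-- the two digits -/
def digL (W R : ℕ) : ℕ := (fun U => Nat.lor (Nat.land U R)
  (Nat.shiftLeft (Nat.land (Nat.shiftRight U 1) R) 2047)) (Nat.add (spop W) (Nat.mul 7 R))

/-- the layers -/
def layL (Q TC R : ℕ) : ℕ := (fun W => Nat.lor (Nat.lor Q (twoP Q TC 11))
  (Nat.lor (degL W R 11) (digL W R))) (Nat.lor Q TC)

/-- **the check of a chunk** -/
def chk (T n E X : ℕ) : Bool :=
  @Bool.rec (fun _ => Bool) false
    (Nat.beq (expandC X) (layL (expandQ E) (Nat.mul (expandT T) (rep 2048 n)) (rep 2048 n)))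
    (chkD 32768 X)

/-! ### soundness -/

theorem testBit_digL {W n i m : ℕ} (hW : W < 2 ^ 131072) (hn : n ≤ 64) (hi : i < n)
    (hm : m < 2048) : (digL W (rep 2048 n)).testBit (2048 * i + m) =
      ((decide (m = 0) && decide ((lc W i + 7) % 2 = 1)) ||
        (decide (m = 2047) && decide ((lc W i + 7) / 2 % 2 = 1))) := by
  have hi64 : i < 64 := by omega
  have hlt : ∀ j, lc W j + 7 * (if j < n then 1 else 0) < 2 ^ 2048 := by
    intro j
    have h1 := lc_le W j
    have h2 : (2 : ℕ) ^ 12 < 2 ^ 2048 := Nat.pow_lt_pow_right (by norm_num) (by norm_num)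
    have h3 : (if j < n then 1 else 0 : ℕ) ≤ 1 := by split_ifs <;> omega
    have h4 : (2 : ℕ) ^ 12 = 4096 := by norm_num
    rw [h4] at h2
    refine lt_trans ?_ h2
    omega
  have hU : Nat.add (spop W) (Nat.mul 7 (rep 2048 n)) =
      pk 2048 64 (fun j => lc W j + 7 * (if j < n then 1 else 0)) := by
    show spop W + 7 * rep 2048 n = _
    rw [spop_eq hW, rep_pk hn]
    unfold pk
    rw [mul_sum, ← sum_add_distrib]
    refine sum_congr rfl fun j _ => ?_
    ring
  have e : digL W (rep 2048 n) =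
      (pk 2048 64 (fun j => lc W j + 7 * (if j < n then 1 else 0)) &&& rep 2048 n) |||
      (((pk 2048 64 (fun j => lc W j + 7 * (if j < n then 1 else 0)) >>> 1) &&& rep 2048 n)
        <<< 2047) := by
    rw [← hU]
    rfl
  rw [e, Nat.testBit_or]
  have h0 := shr_land_rep (a := fun j => lc W j + 7 * (if j < n then 1 else 0))
    (fun j _ => hlt j) (k := 0) hn (by norm_num)
  rw [Nat.shiftRight_zero] at h0
  rw [h0, shr_land_rep (a := fun j => lc W j + 7 * (if j < n then 1 else 0))
    (fun j _ => hlt j) hn (by norm_num)]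
  congr 1
  · have h1 := testBit_shl_rep (P := fun j => j < n ∧
      (lc W j + 7 * (if j < n then 1 else 0)).testBit 0 = true) (s := 0) (by norm_num) hi64 hm
    rw [Nat.shiftLeft_zero] at h1
    rw [h1]
    congr 1
    rw [decide_eq_decide, if_pos hi, mul_one, Nat.testBit_zero, decide_eq_true_eq]
    exact ⟨fun h => h.2, fun h => ⟨hi, h⟩⟩
  · rw [testBit_shl_rep (P := fun j => j < n ∧
      (lc W j + 7 * (if j < n then 1 else 0)).testBit 1 = true) (s := 2047) (by norm_num) hi64 hm]
    congr 1
    rw [decide_eq_decide, if_pos hi, mul_one, Nat.testBit_succ, Nat.testBit_zero,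
      decide_eq_true_eq]
    exact ⟨fun h => h.2, fun h => ⟨hi, h⟩⟩

/-- bit 7 after adding 107 -/
theorem bit7 {c : ℕ} (hc : c < 149) : (c + 107).testBit 7 = decide (21 ≤ c) := by
  interval_cases c <;> rfl

theorem testBit_degL {W k n i m : ℕ} (hn : n ≤ 64) (hi : i < n)
    (hm : m < 2048) (hk : k ≤ 11) (hc : ∀ p < 11, lc (W &&& ib 131072 p) i < 149) :
    (degL W (rep 2048 n) k).testBit (2048 * i + m) =
      decide (∃ p < k, m = 2 ^ p ∧ 21 ≤ lc (W &&& ib 131072 p) i) := by
  have hi64 : i < 64 := by omega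
  induction k with
  | zero =>
    show (0 : ℕ).testBit _ = _
    rw [Nat.zero_testBit]
    symm
    rw [decide_eq_false_iff_not]
    rintro ⟨p, hp, -⟩
    omega
  | succ k ih =>
    have hlt : ∀ j, lc (W &&& ib 131072 k) j + 107 * (if j < n then 1 else 0) < 2 ^ 2048 := by
      intro j
      have h1 := lc_le (W &&& ib 131072 k) j
      have h2 : (2 : ℕ) ^ 12 < 2 ^ 2048 := Nat.pow_lt_pow_right (by norm_num) (by norm_num)
      have h3 : (if j < n then 1 else 0 : ℕ) ≤ 1 := by split_ifs <;> omega
      have h4 : (2 : ℕ) ^ 12 = 4096 := by norm_num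
      rw [h4] at h2
      refine lt_trans ?_ h2
      omega
    have hWk : W &&& ib 131072 k < 2 ^ 131072 := by
      refine lt_of_le_of_lt Nat.and_le_right ?_
      refine Nat.lt_pow_two_of_testBit _ fun g hg => ?_
      rw [testBit_ib (show 2 ^ (k + 1) ∣ 131072 by
        rw [show (131072 : ℕ) = 2 ^ 17 by norm_num]
        exact pow_dvd_pow 2 (by omega)), decide_eq_false (by omega), Bool.false_and]
    have hU : Nat.add (spop (Nat.land W (ib 131072 k))) (Nat.mul 107 (rep 2048 n)) =
        pk 2048 64 (fun j => lc (W &&& ib 131072 k) j + 107 * (if j < n then 1 else 0)) := by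
      show spop (W &&& ib 131072 k) + 107 * rep 2048 n = _
      rw [spop_eq hWk, rep_pk hn]
      unfold pk
      rw [mul_sum, ← sum_add_distrib]
      refine sum_congr rfl fun j _ => ?_
      ring
    have e : degL W (rep 2048 n) (k + 1) = degL W (rep 2048 n) k |||
        (((pk 2048 64 (fun j => lc (W &&& ib 131072 k) j + 107 * (if j < n then 1 else 0)) >>> 7)
          &&& rep 2048 n) <<< (2 ^ k)) := by
      rw [← hU]
      rfl
    have h2k : 2 ^ k < 2048 := by
      rw [show (2048 : ℕ) = 2 ^ 11 by norm_num]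
      exact Nat.pow_lt_pow_right (by norm_num) (by omega)
    rw [e, Nat.testBit_or, ih (by omega),
      shr_land_rep (a := fun j => lc (W &&& ib 131072 k) j + 107 * (if j < n then 1 else 0))
        (fun j _ => hlt j) hn (by norm_num),
      testBit_shl_rep (P := fun j => j < n ∧
        (lc (W &&& ib 131072 k) j + 107 * (if j < n then 1 else 0)).testBit 7 = true) h2k hi64 hm]
    have h7 : (lc (W &&& ib 131072 k) i + 107 * (if i < n then 1 else 0)).testBit 7 =
        decide (21 ≤ lc (W &&& ib 131072 k) i) := by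
      rw [if_pos hi, mul_one]
      exact bit7 (hc k (by omega))
    rw [Bool.eq_iff_iff, Bool.or_eq_true, Bool.and_eq_true, decide_eq_true_eq, decide_eq_true_eq,
      decide_eq_true_eq, decide_eq_true_eq, h7, decide_eq_true_eq]
    constructor
    · rintro (⟨p, hp, h1, h2⟩ | ⟨h1, -, h2⟩)
      · exact ⟨p, by omega, h1, h2⟩
      · exact ⟨k, by omega, h1, h2⟩
    · rintro ⟨p, hp, h1, h2⟩
      rcases Nat.lt_or_ge p k with h3 | h3
      · exact Or.inl ⟨p, h3, h1, h2⟩
      · have h4 : p = k := by omega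
        subst h4
        exact Or.inr ⟨h1, hi, h2⟩

/-- bits of a repeated lane -/
theorem testBit_mul_rep' {T n i m : ℕ} (hT : T < 2 ^ 2048) (hi : i < n) (hm : m < 2048) :
    (T * rep 2048 n).testBit (2048 * i + m) = T.testBit m := by
  rw [testBit_mul_rep (by norm_num) hT, decide_eq_true (by
    calc 2048 * i + m < 2048 * i + 2048 := by omega
      _ = 2048 * (i + 1) := by ring
      _ ≤ 2048 * n := Nat.mul_le_mul_left _ hi), Bool.true_and, Nat.mul_add_mod,
    Nat.mod_eq_of_lt hm]

theorem L0 : L 11 0 = [0] := by decide +kernel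
theorem L1 : ∀ m ∈ L 11 1, ∃ p < 11, m = 2 ^ p := by decide +kernel
theorem L11 : L 11 11 = [2047] := by decide +kernel

theorem mem_L' {k m : ℕ} (hm : m < 2048) (h : (ofMask m).card = k) : m ∈ L 11 k :=
  (mem_L (by norm_num)).2 ⟨by norm_num; exact hm, h⟩

theorem mk_of {m : ℕ} (hm : m < 2048) : mk (ofMask m) = m := mk_ofMask (lt_trans hm (by norm_num))

theorem ofMask_two_pow {p : ℕ} (hp : p < 11) : ofMask (2 ^ p) = {(⟨p, by omega⟩ : Fin 13)} := by
  ext a
  rw [mem_ofMask, mem_singleton, Nat.testBit_two_pow, decide_eq_true_eq, Fin.ext_iff]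
  exact eq_comm

theorem add_lt_2048 {m p : ℕ} (hm : m < 2048) (hp : p < 11) (h : m.testBit p = false) :
    m + 2 ^ p < 2048 := by
  have h1 : ofMask (m + 2 ^ p) = insert (⟨p, by omega⟩ : Fin 13) (ofMask m) :=
    ofMask_add_of_not (⟨p, by omega⟩ : Fin 13) h
  have h2 : m + 2 ^ p < 2 ^ 13 := by
    have : 2 ^ p ≤ 2 ^ 11 := Nat.pow_le_pow_right (by norm_num) (by omega)
    norm_num at this ⊢
    omega
  rw [← mk_ofMask h2, h1, show (2048 : ℕ) = 2 ^ 11 by norm_num, mk_lt_iff]
  intro a ha
  rcases mem_insert.1 ha with h3 | h3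
  · rw [h3]
    exact hp
  · have h4 : mk (ofMask m) < 2 ^ 11 := by
      rw [mk_of hm]
      exact hm
    exact mk_lt_iff.1 h4 a h3

theorem expandQ_lt {E : ℕ} (hE : E < 2 ^ 21120) : expandQ E < 2 ^ 131072 := by
  refine Nat.lt_pow_two_of_testBit _ fun g hg => ?_
  rw [← Bool.not_eq_true]
  intro h
  rw [← Nat.div_add_mod g 2048] at h
  have h1 := ((testBit_expandQ hE (Nat.mod_lt _ (by norm_num))).1 h).1
  omega

theorem expandT_lt {T : ℕ} (hT : T < 2 ^ 165) : expandT T < 2 ^ 2048 := by
  refine Nat.lt_pow_two_of_testBit _ fun g hg => ?_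
  rw [← Bool.not_eq_true]
  intro h
  obtain ⟨r, hr, h1, -⟩ := (testBit_expandT hT g).1 h
  have h2 : (L 11 3)[r] ∈ L 11 3 := List.getElem_mem hr
  rw [h1, mem_L (by norm_num)] at h2
  have h3 : g < 2 ^ 11 := h2.1
  norm_num at h3
  omega

theorem mul_rep_lt' {T n : ℕ} (hT : T < 2 ^ 2048) (hn : n ≤ 64) : T * rep 2048 n < 2 ^ 131072 := by
  refine Nat.lt_pow_two_of_testBit _ fun g hg => ?_
  rw [testBit_mul_rep (by norm_num) hT, decide_eq_false (by omega), Bool.false_and]

/-- **the layers, bit by bit** -/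
theorem testBit_layL {Q TC n i m : ℕ} {D : Finset (Finset (Fin 13))} (hQ' : Q < 2 ^ 131072)
    (hTC' : TC < 2 ^ 131072) (hn : n ≤ 64) (hi : i < n) (hD : ∀ b ∈ D, Sub 12 4 b)
    (hc : D.card ≤ 60)
    (hQ : ∀ m < 2048, Q.testBit (2048 * i + m) =
      decide (ofMask m ∈ D.filter (fun b => (11 : Fin 13) ∉ b)))
    (hT : ∀ m < 2048, TC.testBit (2048 * i + m) = decide (ofMask m ∈ link D 11))
    (hm : m < 2048) : (layL Q TC (rep 2048 n)).testBit (2048 * i + m) =
      decide (ofMask m ∈ Lay D) := by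
  have hi64 : i < 64 := by omega
  have hWb : ∀ m < 2048, (Q ||| TC).testBit (2048 * i + m) =
      decide (ofMask m ∈ D.filter (fun b => (11 : Fin 13) ∉ b) ∨ ofMask m ∈ link D 11) := by
    intro m hm
    rw [Nat.testBit_or, hQ m hm, hT m hm, Bool.decide_or]
  have hWlt : Q ||| TC < 2 ^ 131072 := Nat.or_lt_two_pow hQ' hTC'
  have hall : lc (Q ||| TC) i = D.card := by
    rw [card_trace_all hD]
    unfold lc
    refine congrArg Finset.card (filter_congr fun m hm => ?_)
    rw [hWb m (mem_range.1 hm), decide_eq_true_eq]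
  have hcnt : ∀ (p : ℕ) (hp : p < 11),
      lc ((Q ||| TC) &&& ib 131072 p) i = cnt D {(⟨p, by omega⟩ : Fin 13)} := by
    intro p hp
    have h11 : (⟨p, by omega⟩ : Fin 13) ≠ 11 := by
      intro h
      have := congrArg Fin.val h
      have h2 : ((11 : Fin 13) : ℕ) = 11 := rfl
      rw [h2] at this
      simp only at this
      omega
    rw [cnt_trace hD h11]
    unfold lc
    refine congrArg Finset.card (filter_congr fun m hm => ?_)
    have hm' := mem_range.1 hm
    rw [Nat.testBit_and, hWb m hm', testBit_ib (show 2 ^ (p + 1) ∣ 131072 by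
        rw [show (131072 : ℕ) = 2 ^ 17 by norm_num]
        exact pow_dvd_pow 2 (by omega)), testBit_lane hm' hp,
      decide_eq_true (show 2048 * i + m < 131072 by omega), Bool.true_and, Bool.and_eq_true,
      decide_eq_true_eq]
    exact and_comm
  have hle : ∀ s, cnt D s ≤ D.card := fun s => card_filter_le _ _
  have hb149 : ∀ p < 11, lc ((Q ||| TC) &&& ib 131072 p) i < 149 := by
    intro p hp
    rw [hcnt p hp]
    exact lt_of_le_of_lt (hle _) (by omega)
  -- the second plane
  have htwo : (twoP Q TC 11).testBit (2048 * i + m) =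
      decide ((ofMask m).card = 3 ∧ 2 ≤ cnt D (ofMask m)) := by
    rw [testBit_twoP, decide_eq_decide]
    have hdn : ∀ p ∈ range 11, ((dnP p Q).testBit (2048 * i + m) = true ↔
        (m.testBit p = false ∧ ofMask (m + 2 ^ p) ∈ D.filter (fun b => (11 : Fin 13) ∉ b))) := by
      intro p hp
      have hp' := mem_range.1 hp
      rw [testBit_dnP hp' hi64 hm, Bool.and_eq_true, Bool.not_eq_true']
      refine and_congr_right fun h => ?_
      rw [hQ _ (add_lt_2048 hm hp' h), decide_eq_true_eq]
    have hcP : cP Q TC (2048 * i + m) 11 = (if ofMask m ∈ link D 11 then 1 else 0) +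
        ((range 11).filter fun p => m.testBit p = false ∧
          ofMask (m + 2 ^ p) ∈ D.filter (fun b => (11 : Fin 13) ∉ b)).card := by
      unfold cP
      rw [filter_congr hdn, hT m hm]
      simp only [decide_eq_true_eq]
    rw [hcP]
    by_cases h3 : (ofMask m).card = 3
    · have h4 := cnt_three hD h3 (by rw [mk_of hm]; exact hm)
      rw [mk_of hm] at h4
      rw [← h4]
      exact ⟨fun h => ⟨h3, h⟩, fun h => h.2⟩
    · have h5 : ofMask m ∉ link D 11 := by
        intro h
        have h6 := mem_link.1 h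
        have h7 := (hD _ h6.2).2
        rw [card_insert_of_notMem h6.1] at h7
        omega
      have h6 : ((range 11).filter fun p => m.testBit p = false ∧
          ofMask (m + 2 ^ p) ∈ D.filter (fun b => (11 : Fin 13) ∉ b)) = ∅ := by
        rw [filter_eq_empty_iff]
        rintro p hp ⟨h7, h8⟩
        have hp' := mem_range.1 hp
        have h9 : ofMask (m + 2 ^ p) = insert (⟨p, by omega⟩ : Fin 13) (ofMask m) :=
          ofMask_add_of_not (⟨p, by omega⟩ : Fin 13) h7
        have h10 := (hD _ (mem_filter.1 h8).1).2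
        have h11 : (⟨p, by omega⟩ : Fin 13) ∉ ofMask m := by
          rw [mem_ofMask]
          show ¬ m.testBit p = true
          rw [h7]
          exact Bool.false_ne_true
        rw [h9, card_insert_of_notMem h11] at h10
        omega
      rw [if_neg h5, h6, card_empty]
      constructor
      · intro h
        omega
      · intro h
        exact absurd h.1 h3
  have e : layL Q TC (rep 2048 n) = (Q ||| twoP Q TC 11) |||
      (degL (Q ||| TC) (rep 2048 n) 11 ||| digL (Q ||| TC) (rep 2048 n)) := rfl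
  rw [e, Nat.testBit_or, Nat.testBit_or, Nat.testBit_or, hQ m hm, htwo,
    testBit_degL hn hi hm le_rfl hb149, testBit_digL hWlt hn hi hm, hall, Bool.eq_iff_iff]
  simp only [Bool.or_eq_true, Bool.and_eq_true, decide_eq_true_eq]
  rw [mem_lay, mk_of hm]
  constructor
  · rintro ((h | h) | (⟨p, hp, h1, h2⟩ | (h | h)))
    · have h1 := (mem_filter.1 h).1
      exact ⟨hm, Or.inl ⟨(hD _ h1).2, h1⟩⟩
    · exact ⟨hm, Or.inr (Or.inl h)⟩
    · refine ⟨hm, Or.inr (Or.inr (Or.inl ?_))⟩
      rw [h1, ofMask_two_pow hp]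
      rw [hcnt p hp] at h2
      exact ⟨card_singleton _, h2⟩
    · refine ⟨hm, Or.inr (Or.inr (Or.inr (Or.inl ⟨?_, h.2⟩)))⟩
      rw [h.1]
      decide
    · refine ⟨hm, Or.inr (Or.inr (Or.inr (Or.inr ⟨?_, h.2⟩)))⟩
      rw [h.1]
      decide +kernel
  · rintro ⟨-, h | h | h | h | h⟩
    · left
      left
      rw [mem_filter]
      refine ⟨h.2, fun h1 => ?_⟩
      have h2 := (mk_lt_2048.1 (show mk (ofMask m) < 2048 by rw [mk_of hm]; exact hm)).1
      exact h2 h1
    · exact Or.inl (Or.inr h)
    · right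
      left
      obtain ⟨p, hp, h1⟩ := L1 m (mem_L' hm h.1)
      refine ⟨p, hp, h1, ?_⟩
      rw [hcnt p hp]
      rw [h1, ofMask_two_pow hp] at h
      exact h.2
    · right
      right
      left
      have h1 := mem_L' hm h.1
      rw [L0, List.mem_singleton] at h1
      exact ⟨h1, h.2⟩
    · right
      right
      right
      have h1 := mem_L' hm h.1
      rw [L11, List.mem_singleton] at h1
      exact ⟨h1, h.2⟩

theorem chk_iff {T n E X : ℕ} (h : chk T n E X = true) : chkD 32768 X = true ∧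
    expandC X = layL (expandQ E) (expandT T * rep 2048 n) (rep 2048 n) := by
  have e : chk T n E X = @Bool.rec (fun _ => Bool) false
    (Nat.beq (expandC X) (layL (expandQ E) (Nat.mul (expandT T) (rep 2048 n)) (rep 2048 n)))
    (chkD 32768 X) := rfl
  rw [e] at h
  cases h1 : chkD 32768 X with
  | false =>
    rw [h1] at h
    exact Bool.noConfusion h
  | true =>
    rw [h1] at h
    exact ⟨rfl, Nat.eq_of_beq_eq_true h⟩

/-- **soundness of the check of a chunk**, cube code -/
theorem chk_cub {T n E X : ℕ} (hn : n ≤ 64) (hT : T < 2 ^ 165) (hE : E < 2 ^ 21120)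
    (h : chk T n E X = true) {i : ℕ} (hi : i < n) {D : Finset (Finset (Fin 13))}
    (hD : ∀ b ∈ D, Sub 12 4 b) (hc : D.card ≤ 60) (hl : link D 11 = fam 11 3 T)
    (hq : D.filter (fun b => (11 : Fin 13) ∉ b) = fam 11 4 (fld 330 E i)) :
    fld 2048 (expandC X) i = cub 11 (Lay D) := by
  refine Nat.eq_of_testBit_eq fun m => ?_
  rw [testBit_fld]
  by_cases hm : m < 2048
  · have hm' : m < 2 ^ 11 := hm
    rw [testBit_cub _ hm', decide_eq_true hm, Bool.true_and, (chk_iff h).2]
    refine testBit_layL (expandQ_lt hE) (mul_rep_lt' (expandT_lt hT) hn) hn hi hD hc ?_ ?_ hm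
    · intro m hm
      rw [testBit_expandQ_fam hE (by omega) hm, hq]
    · intro m hm
      rw [testBit_mul_rep' (expandT_lt hT) hi hm, testBit_expandT_fam hT hm, hl]
  · rw [decide_eq_false hm, Bool.false_and, testBit_cub_ge _ (not_lt.1 hm)]

end Pool.Agent.Helper82.TY
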