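import Pool.Agent.Helper82.TY.Lay

/-!
MP_8ee768_co, project TH-Y': the counts in the layers in terms of masks below 2048.
-/

set_option autoImplicit false

namespace Pool.Agent.Helper82.TY

open Finset
open Pool.Agent.Helper89.CV (OddCover ofMask)
open Pool.Agent.Helper97.CV Pool.Agent.Helper79.CV

/-- number of members through a set, by the added point -/
theorem cnt_eq_card_insert {D : Finset (Finset (Fin 13))} {k : ℕ} (hD : ∀ b ∈ D, b.card = k + 1)
    {s : Finset (Fin 13)} (hs : s.card = k) :
    cnt D s = (univ.filter fun a : Fin 13 => a ∉ s ∧ insert a s ∈ D).card := by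
  unfold cnt
  symm
  refine card_bij (fun a _ => insert a s) ?_ ?_ ?_
  · intro a ha
    rw [mem_filter] at ha ⊢
    exact ⟨ha.2.2, subset_insert a s⟩
  · intro a ha b hb hab
    rw [mem_filter] at ha hb
    have h1 : a ∈ insert b s := by
      rw [← hab]
      exact mem_insert_self a s
    rcases mem_insert.1 h1 with h2 | h2
    · exact h2
    · exact absurd h2 ha.2.1
  · intro b hb
    rw [mem_filter] at hb
    have h1 : (b \ s).card = 1 := by
      rw [card_sdiff_of_subset hb.2, hD b hb.1, hs]
      omega
    obtain ⟨a, ha⟩ := card_eq_one.1 h1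
    have h2 : a ∈ b \ s := by
      rw [ha]
      exact mem_singleton_self a
    have h3 : insert a s = b := by
      rw [← union_sdiff_of_subset hb.2, ha, union_comm]
      rfl
    refine ⟨a, ?_, h3⟩
    rw [mem_filter, h3]
    exact ⟨mem_univ a, (mem_sdiff.1 h2).2, hb.1⟩

/-- masks: a point outside -/
theorem testBit_mk_eq_false {s : Finset (Fin 13)} {a : Fin 13} :
    (mk s).testBit a.val = false ↔ a ∉ s := by
  rw [testBit_mk, decide_eq_false_iff_not]

theorem ofMask_mk_add {s : Finset (Fin 13)} {a : Fin 13} (h : a ∉ s) :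
    ofMask (mk s + 2 ^ a.val) = insert a s := by
  rw [Pool.Agent.Helper33.CV.ofMask_add_of_not a (testBit_mk_eq_false.2 h), ofMask_mk]

/-- triples of `{0, .., 10}` -/
theorem cnt_three {D : Finset (Finset (Fin 13))} (hD : ∀ b ∈ D, Sub 12 4 b)
    {s : Finset (Fin 13)} (hs : s.card = 3) (hlt : mk s < 2048) :
    cnt D s = (if s ∈ link D 11 then 1 else 0) + ((range 11).filter fun p =>
      (mk s).testBit p = false ∧
        ofMask (mk s + 2 ^ p) ∈ D.filter (fun b => (11 : Fin 13) ∉ b)).card := by
  rw [cnt_eq_card_insert (k := 3) (fun b hb => (hD b hb).2) hs]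
  have h11 : (11 : Fin 13) ∉ s := (mk_lt_2048.1 hlt).1
  have h12 : (12 : Fin 13) ∉ s := (mk_lt_2048.1 hlt).2
  have hno : insert 12 s ∉ D := fun h => by
    have h1 := mk_lt_iff.1 (hD _ h).1 12 (mem_insert_self _ _)
    exact absurd h1 (by decide)
  have hsplit : (univ.filter fun a : Fin 13 => a ∉ s ∧ insert a s ∈ D) =
      (if s ∈ link D 11 then {11} else ∅) ∪
        (univ.filter fun a : Fin 13 => a.val < 11 ∧ a ∉ s ∧ insert a s ∈ D) := by
    ext a
    rw [mem_filter, mem_union, mem_filter]
    by_cases ha : a.val < 11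
    · have h1 : a ∉ (if s ∈ link D 11 then ({11} : Finset (Fin 13)) else ∅) := by
        split_ifs
        · rw [mem_singleton]
          rintro rfl
          exact absurd ha (by decide)
        · exact notMem_empty a
      constructor
      · rintro ⟨h2, h3⟩
        exact Or.inr ⟨h2, ha, h3⟩
      · rintro (h2 | ⟨h2, -, h3⟩)
        · exact absurd h2 h1
        · exact ⟨h2, h3⟩
    · have h2 : a = 11 ∨ a = 12 := by
        have := a.isLt
        rcases (show a.val = 11 ∨ a.val = 12 by omega) with h5 | h5
        · exact Or.inl (Fin.ext h5)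
        · exact Or.inr (Fin.ext h5)
      rcases h2 with rfl | rfl
      · constructor
        · rintro ⟨-, h3, h4⟩
          left
          rw [if_pos (mem_link.2 ⟨h3, h4⟩)]
          exact mem_singleton_self _
        · rintro (h3 | ⟨-, h3, -⟩)
          · split_ifs at h3 with h4
            · exact ⟨mem_univ _, mem_link.1 h4⟩
            · exact absurd h3 (notMem_empty _)
          · exact absurd h3 ha
      · constructor
        · rintro ⟨-, -, h4⟩
          exact absurd h4 hno
        · rintro (h3 | ⟨-, h3, -⟩)
          · split_ifs at h3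
            · rw [mem_singleton] at h3
              exact absurd h3 (by decide)
            · exact absurd h3 (notMem_empty _)
          · exact absurd h3 ha
  rw [hsplit, card_union_of_disjoint]
  · congr 1
    · split_ifs
      · exact card_singleton _
      · exact card_empty
    · refine card_bij (fun a _ => a.val) ?_ ?_ ?_
      · intro a ha
        rw [mem_filter] at ha
        rw [mem_filter, mem_range, testBit_mk_eq_false, ofMask_mk_add ha.2.2.1, mem_filter,
          mem_insert]
        refine ⟨ha.2.1, ha.2.2.1, ha.2.2.2, ?_⟩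
        rintro (h | h)
        · rw [← h] at ha
          exact absurd ha.2.1 (by decide)
        · exact h11 h
      · intro a _ b _ h
        exact Fin.ext h
      · intro p hp
        rw [mem_filter, mem_range] at hp
        have h1 : (⟨p, by omega⟩ : Fin 13) ∉ s := testBit_mk_eq_false.1 hp.2.1
        refine ⟨⟨p, by omega⟩, ?_, rfl⟩
        rw [mem_filter]
        refine ⟨mem_univ _, hp.1, h1, ?_⟩
        have h2 := ofMask_mk_add h1
        have h3 := (mem_filter.1 hp.2.2).1
        simp only at h2
        rw [h2] at h3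
        exact h3
  · rw [disjoint_left]
    intro a ha hb
    rw [mem_filter] at hb
    split_ifs at ha
    · rw [mem_singleton] at ha
      rw [ha] at hb
      exact absurd hb.2.1 (by decide)
    · exact absurd ha (notMem_empty a)

/-- a count of members in terms of the traces on `{0, .., 10}` -/
theorem card_trace {D : Finset (Finset (Fin 13))} (hD : ∀ b ∈ D, Sub 12 4 b)
    (P : Finset (Fin 13) → Prop) [DecidablePred P] :
    (D.filter fun b => P (b.erase 11)).card = ((range 2048).filter fun m => P (ofMask m) ∧
      (ofMask m ∈ D.filter (fun b => (11 : Fin 13) ∉ b) ∨ ofMask m ∈ link D 11)).card := by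
  have hlt : ∀ b ∈ D, mk (b.erase 11) < 2048 := by
    intro b hb
    rw [mk_lt_2048]
    refine ⟨notMem_erase 11 b, fun h => ?_⟩
    have h1 := mk_lt_iff.1 (hD b hb).1 12 (mem_of_mem_erase h)
    exact absurd h1 (by decide)
  refine card_bij (fun b _ => mk (b.erase 11)) ?_ ?_ ?_
  · intro b hb
    rw [mem_filter] at hb
    rw [mem_filter, mem_range, ofMask_mk]
    refine ⟨hlt b hb.1, hb.2, ?_⟩
    by_cases h : (11 : Fin 13) ∈ b
    · right
      rw [mem_link, insert_erase h]
      exact ⟨notMem_erase 11 b, hb.1⟩
    · left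
      rw [erase_eq_of_notMem h, mem_filter]
      exact ⟨hb.1, h⟩
  · intro b hb c hc h
    rw [mem_filter] at hb hc
    have h1 : b.erase 11 = c.erase 11 := mk_injective h
    have h2 : (b.erase 11).card = (c.erase 11).card := by rw [h1]
    have hb4 := (hD b hb.1).2
    have hc4 := (hD c hc.1).2
    by_cases h3 : (11 : Fin 13) ∈ b
    · by_cases h4 : (11 : Fin 13) ∈ c
      · rw [← insert_erase h3, ← insert_erase h4, h1]
      · rw [card_erase_of_mem h3, erase_eq_of_notMem h4] at h2
        omega
    · by_cases h4 : (11 : Fin 13) ∈ c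
      · rw [card_erase_of_mem h4, erase_eq_of_notMem h3] at h2
        omega
      · rw [erase_eq_of_notMem h3, erase_eq_of_notMem h4] at h1
        exact h1
  · intro m hm
    rw [mem_filter, mem_range] at hm
    have hm13 : m < 2 ^ 13 := lt_trans hm.1 (by norm_num)
    rcases hm.2.2 with h | h
    · rw [mem_filter] at h
      refine ⟨ofMask m, ?_, ?_⟩
      · rw [mem_filter, erase_eq_of_notMem h.2]
        exact ⟨h.1, hm.2.1⟩
      · show mk ((ofMask m).erase 11) = m
        rw [erase_eq_of_notMem h.2, mk_ofMask hm13]
    · rw [mem_link] at h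
      refine ⟨insert 11 (ofMask m), ?_, ?_⟩
      · rw [mem_filter, erase_insert h.1]
        exact ⟨h.2, hm.2.1⟩
      · show mk ((insert 11 (ofMask m)).erase 11) = m
        rw [erase_insert h.1, mk_ofMask hm13]

theorem card_trace_all {D : Finset (Finset (Fin 13))} (hD : ∀ b ∈ D, Sub 12 4 b) :
    D.card = ((range 2048).filter fun m =>
      (ofMask m ∈ D.filter (fun b => (11 : Fin 13) ∉ b) ∨ ofMask m ∈ link D 11)).card := by
  have h := card_trace hD (fun _ => True)
  rw [filter_true_of_mem (fun _ _ => trivial)] at h
  rw [h]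
  refine congrArg Finset.card (filter_congr fun m _ => ?_)
  exact ⟨fun h1 => h1.2, fun h1 => ⟨trivial, h1⟩⟩

theorem cnt_trace {D : Finset (Finset (Fin 13))} (hD : ∀ b ∈ D, Sub 12 4 b) {p : Fin 13}
    (hp : p ≠ 11) : cnt D {p} = ((range 2048).filter fun m => m.testBit p.val = true ∧
      (ofMask m ∈ D.filter (fun b => (11 : Fin 13) ∉ b) ∨ ofMask m ∈ link D 11)).card := by
  have h := card_trace hD (fun s => p ∈ s)
  have h1 : cnt D {p} = (D.filter fun b => p ∈ b.erase 11).card := by
    unfold cnt
    refine congrArg Finset.card (filter_congr fun b _ => ?_)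
    rw [singleton_subset_iff, mem_erase]
    exact ⟨fun h2 => ⟨hp, h2⟩, fun h2 => h2.2⟩
  rw [h1, h]
  refine congrArg Finset.card (filter_congr fun m _ => ?_)
  rw [mem_ofMask]

end Pool.Agent.Helper82.TY
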