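import Pool.Agent.Helper82.TY.LayRow
import Pool.Agent.Helper49.TY.Suf

/-!
MP_8ee768_co, project TH-Y': the check of a list of chunks with layers against a list of codes.
-/

set_option autoImplicit false
set_option exponentiation.threshold 140000

namespace Pool.Agent.Helper82.TY

open Finset Pool.Agent.Helper63.SIMD
open Pool.Agent.Helper89.CV (OddCover ofMask)
open Pool.Agent.Helper97.CV Pool.Agent.Helper79.CV Pool.Agent.Helper33.CV
open Pool.Agent.Helper91.TY
open Pool.Agent.Helper52.TY (expandC dcode)

/-- `2 ^ 330 - 1` -/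
def m330 : ℕ := 0x3ffffffffffffffffffffffffffffffffffffffffffffffffffffffffffffffffffffffffffffffffff

theorem m330_eq : m330 = 2 ^ 330 - 1 := by decide +kernel

/-- the first `k` entries, packed -/
def packT (k : ℕ) : List ℕ → ℕ :=
  @Nat.rec (fun _ => List ℕ → ℕ) (fun _ => 0) (fun _ ih es =>
    @List.rec ℕ (fun _ => ℕ) 0
      (fun e t _ => Nat.lor (Nat.land e m330) (Nat.shiftLeft (ih t) 330)) es) k

theorem packT_nil (k : ℕ) : packT k [] = 0 := by
  cases k <;> rfl

theorem packT_cons (k e : ℕ) (t : List ℕ) :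
    packT (k + 1) (e :: t) = (e &&& m330) ||| (packT k t <<< 330) := rfl

theorem testBit_packT (k : ℕ) : ∀ (es : List ℕ) (g : ℕ), (packT k es).testBit g =
    (decide (g < 330 * k) && (es.getD (g / 330) 0).testBit (g % 330)) := by
  induction k with
  | zero =>
    intro es g
    show (0 : ℕ).testBit g = _
    rw [Nat.zero_testBit, decide_eq_false (by omega), Bool.false_and]
  | succ k ih =>
    intro es g
    cases es with
    | nil =>
      rw [packT_nil, Nat.zero_testBit, List.getD_nil, Nat.zero_testBit, Bool.and_false]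
    | cons e t =>
      rw [packT_cons, Nat.testBit_or, m330_eq, Nat.and_two_pow_sub_one_eq_mod,
        Nat.testBit_mod_two_pow, Nat.testBit_shiftLeft, ih t]
      rcases Nat.lt_or_ge g 330 with h | h
      · rw [decide_eq_true h, Bool.true_and, decide_eq_false (show ¬ g ≥ 330 by omega),
          Bool.false_and, Bool.or_false, decide_eq_true (show g < 330 * (k + 1) by omega),
          Bool.true_and, Nat.div_eq_of_lt h, Nat.mod_eq_of_lt h, List.getD_cons_zero]
      · rw [decide_eq_false (show ¬ g < 330 by omega), Bool.false_and, Bool.false_or,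
          decide_eq_true (show g ≥ 330 by omega), Bool.true_and]
        have h1 : g / 330 = (g - 330) / 330 + 1 := by omega
        have h2 : g % 330 = (g - 330) % 330 := by omega
        have h3 : decide (g < 330 * (k + 1)) = decide (g - 330 < 330 * k) := by
          rw [decide_eq_decide]
          omega
        rw [h1, List.getD_cons_succ, h2, h3]

theorem packT_lt {k : ℕ} {es : List ℕ} : packT k es < 2 ^ (330 * k) := by
  refine Nat.lt_pow_two_of_testBit _ fun g hg => ?_
  rw [testBit_packT, decide_eq_false (by omega), Bool.false_and]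

theorem fld_packT {k i : ℕ} {es : List ℕ} (hi : i < k) :
    fld 330 (packT k es) i = es.getD i 0 % 2 ^ 330 := by
  refine Nat.eq_of_testBit_eq fun r => ?_
  rw [testBit_fld, Nat.testBit_mod_two_pow, testBit_packT]
  by_cases hr : r < 330
  · rw [decide_eq_true hr, Bool.true_and, Bool.true_and, decide_eq_true (by
      calc 330 * i + r < 330 * i + 330 := by omega
        _ = 330 * (i + 1) := by ring
        _ ≤ 330 * k := Nat.mul_le_mul_left _ hi), Bool.true_and]
    rw [show (330 * i + r) / 330 = i by omega, show (330 * i + r) % 330 = r by omega]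
  · rw [decide_eq_false hr, Bool.false_and, Bool.false_and]

theorem fam_mod (e : ℕ) : fam 11 4 (e % 2 ^ 330) = fam 11 4 e := by
  ext s
  rw [mem_fam_iff (by norm_num), mem_fam_iff (by norm_num)]
  refine and_congr_right fun h => ?_
  have h1 := rk_lt (by norm_num) h
  rw [length_L4] at h1
  rw [Nat.testBit_mod_two_pow, decide_eq_true h1, Bool.true_and]

/-- the first `m` chunks of `cs` are the layers of the first entries of `es` (`n` entries in all) -/
def rowE (T : ℕ) (cs : List ℕ) : ℕ → ℕ → List ℕ → Bool :=
  @List.rec ℕ (fun _ => ℕ → ℕ → List ℕ → Bool) (fun _ n _ => Nat.beq n 0)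
    (fun X _ ih m n es => @Bool.rec (fun _ => Bool)
      (@Bool.rec (fun _ => Bool)
        (force (packT 64 es) fun E => chk T n E X)
        (@Bool.rec (fun _ => Bool) false
          (ih (Nat.sub m 1) (Nat.sub n 64) (dropC 64 es))
          (force (packT 64 es) fun E => chk T 64 E X))
        (Nat.ble 65 n))
      true (Nat.beq m 0)) cs

theorem rowE_cons (T X : ℕ) (cs : List ℕ) (m n : ℕ) (es : List ℕ) : rowE T (X :: cs) m n es =
    @Bool.rec (fun _ => Bool)
      (@Bool.rec (fun _ => Bool) (chk T n (packT 64 es) X)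
        (@Bool.rec (fun _ => Bool) false (rowE T cs (m - 1) (n - 64) (es.drop 64))
          (chk T 64 (packT 64 es) X))
        (Nat.ble 65 n))
      true (Nat.beq m 0) := by
  have e : rowE T (X :: cs) m n es = @Bool.rec (fun _ => Bool)
      (@Bool.rec (fun _ => Bool)
        (force (packT 64 es) fun E => chk T n E X)
        (@Bool.rec (fun _ => Bool) false
          (rowE T cs (Nat.sub m 1) (Nat.sub n 64) (dropC 64 es))
          (force (packT 64 es) fun E => chk T 64 E X))
        (Nat.ble 65 n))
      true (Nat.beq m 0) := rfl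
  rw [e, force_eq, force_eq, dropC_eq]
  rfl

theorem rowE_sound {T : ℕ} (hT : T < 2 ^ 165) {D : Finset (Finset (Fin 13))}
    (hD : ∀ b ∈ D, Sub 12 4 b) (hc : D.card ≤ 60) (hl : link D 11 = fam 11 3 T) :
    ∀ (cs : List ℕ) (m n : ℕ) (es : List ℕ) (i : ℕ), rowE T cs m n es = true → i < n →
      i < 64 * m → D.filter (fun b => (11 : Fin 13) ∉ b) = fam 11 4 (es.getD i 0) →
      LaneOK cs i (Lay D) := by
  intro cs
  induction cs with
  | nil =>
    intro m n es i h hi _ _
    have h1 : Nat.beq n 0 = true := h
    have h2 := Nat.eq_of_beq_eq_true h1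
    omega
  | cons X cs ih =>
    intro m n es i h hi hm hq
    rw [rowE_cons] at h
    have hm0 : Nat.beq m 0 = false := by
      rw [← Bool.not_eq_true]
      intro h1
      have := Nat.eq_of_beq_eq_true h1
      omega
    rw [hm0] at h
    have hE : packT 64 es < 2 ^ 21120 := packT_lt
    cases hb : Nat.ble 65 n with
    | false =>
      rw [hb] at h
      have hn : ¬ 65 ≤ n := fun h1 => by
        rw [Nat.ble_eq_true_of_le h1] at hb
        exact Bool.noConfusion hb
      have h1 : chk T n (packT 64 es) X = true := h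
      refine ⟨0, X, i, rfl, by omega, by omega, (chk_iff h1).1, ?_⟩
      refine chk_cub (by omega) hT hE h1 hi hD hc hl ?_
      rw [fld_packT (by omega), fam_mod]
      exact hq
    | true =>
      rw [hb] at h
      cases hk : chk T 64 (packT 64 es) X with
      | false =>
        rw [hk] at h
        exact Bool.noConfusion h
      | true =>
        rw [hk] at h
        have h1 : rowE T cs (m - 1) (n - 64) (es.drop 64) = true := h
        rcases Nat.lt_or_ge i 64 with h2 | h2
        · refine ⟨0, X, i, rfl, h2, by omega, (chk_iff hk).1, ?_⟩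
          refine chk_cub le_rfl hT hE hk h2 hD hc hl ?_
          rw [fld_packT h2, fam_mod]
          exact hq
        · obtain ⟨k, Y, j, g1, g2, g3, g4, g5⟩ := ih (m - 1) (n - 64) (es.drop 64) (i - 64) h1
            (by omega) (by omega) (by
              rw [hq]
              congr 1
              rw [List.getD_eq_getElem?_getD, List.getD_eq_getElem?_getD, List.getElem?_drop,
                show 64 + (i - 64) = i by omega])
          refine ⟨k + 1, Y, j, g1, g2, by omega, g4, g5⟩

/-- the segment of `m` chunks from the chunk `a` on -/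
def segC (T : ℕ) (es cs : List ℕ) (n a m : ℕ) : Bool :=
  rowE T (dropC a cs) m (Nat.sub n (Nat.mul 64 a)) (dropC (Nat.mul 64 a) es)

theorem segC_sound {T : ℕ} (hT : T < 2 ^ 165) {es cs : List ℕ} {n a m : ℕ}
    (h : segC T es cs n a m = true) {D : Finset (Finset (Fin 13))}
    (hD : ∀ b ∈ D, Sub 12 4 b) (hc : D.card ≤ 60) (hl : link D 11 = fam 11 3 T) {i : ℕ}
    (h1 : 64 * a ≤ i) (h2 : i < 64 * (a + m)) (h3 : i < n)
    (hq : D.filter (fun b => (11 : Fin 13) ∉ b) = fam 11 4 (es.getD i 0)) :
    LaneOK cs i (Lay D) := by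
  have e : segC T es cs n a m = rowE T (dropC a cs) m (n - 64 * a) (dropC (64 * a) es) := rfl
  rw [e, dropC_eq, dropC_eq] at h
  have h6 := rowE_sound hT hD hc hl _ m _ _ (i - 64 * a) h (by omega) (by omega) (by
    rw [hq]
    congr 1
    rw [List.getD_eq_getElem?_getD, List.getD_eq_getElem?_getD, List.getElem?_drop,
      show 64 * a + (i - 64 * a) = i by omega])
  have h7 := h6.of_drop
  rwa [show 64 * a + (i - 64 * a) = i by omega] at h7

/-- the chunks `cs` hold the layers of all entries of `es` -/
structure SegAll (T : ℕ) (es cs : List ℕ) (n : ℕ) : Prop where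
  pad : chkDL 32768 cs = true
  len : es.length ≤ n
  seg : ∀ i < n, ∃ a m, 64 * a ≤ i ∧ i < 64 * (a + m) ∧ segC T es cs n a m = true

theorem segAll_of {T K q n : ℕ} {es cs : List ℕ} (hK : 0 < K) (hn : n ≤ 64 * (K * q))
    (hl : es.length ≤ n) (hp : chkDL 32768 cs = true)
    (h : ∀ k < q, segC T es cs n (K * k) K = true) : SegAll T es cs n := by
  refine ⟨hp, hl, fun i hi => ?_⟩
  have h5 : i / 64 < K * q := by
    rw [Nat.div_lt_iff_lt_mul (by norm_num)]
    omega
  have h6 : i / 64 / K < q := (Nat.div_lt_iff_lt_mul hK).2 (by rw [Nat.mul_comm]; exact h5)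
  have h7 := Nat.div_add_mod (i / 64) K
  have h8 := Nat.mod_lt (i / 64) hK
  have h9 := Nat.div_add_mod i 64
  have h10 := Nat.mod_lt i (show 0 < 64 by norm_num)
  exact ⟨K * (i / 64 / K), K, by omega, by omega, h _ h6⟩

/-- a table of entries gives the rows with layers -/
theorem SegAll.row {T n : ℕ} {es cs : List ℕ} (h : SegAll T es cs n) (hT : T < 2 ^ 165)
    {D : Finset (Finset (Fin 13))} (hD : OddFam 3 (below 12) D) (hc : D.card ≤ 60)
    (hl : link D 11 = fam 11 3 T)
    (hq : ∃ e ∈ es, D.filter (fun b => (11 : Fin 13) ∉ b) = fam 11 4 e) :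
    RowIn n cs (Lay D) := by
  obtain ⟨e, he, hq⟩ := hq
  obtain ⟨i, hi, h1⟩ := List.mem_iff_getElem.1 he
  have h2 : es.getD i 0 = e := by rw [List.getD_eq_getElem _ _ hi, h1]
  rw [← h2] at hq
  have hin : i < n := lt_of_lt_of_le hi h.len
  obtain ⟨a, m, h3, h4, h5⟩ := h.seg i hin
  have hS : ∀ b ∈ D, Sub 12 4 b := by
    intro b hb
    have h := hD.1 b hb
    exact ⟨mk_lt_iff.2 fun a ha => mem_below.1 (h.1 ha), h.2⟩
  obtain ⟨k, X, j, g1, g2, g3, g4, g5⟩ := segC_sound hT h5 hS hc hl h3 h4 hin hq
  exact ⟨k, X, j, g1, g2, by omega, g5⟩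

end Pool.Agent.Helper82.TY
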