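import Pool.Agent.Helper82.TY.LayChk
import Pool.Agent.Helper7.TB.Acc

/-!
MP_8ee768_co, project TH-Y': the check of a whole row with layers.
-/

set_option autoImplicit false
set_option exponentiation.threshold 140000

namespace Pool.Agent.Helper82.TY

open Finset Pool.Agent.Helper63.SIMD
open Pool.Agent.Helper89.CV (OddCover ofMask)
open Pool.Agent.Helper97.CV Pool.Agent.Helper79.CV Pool.Agent.Helper33.CV
open Pool.Agent.Helper91.TY
open Pool.Agent.Helper52.TY (expandC dcode)
open Pool.Agent.Helper7.TB (fld_fld)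

/-- the first 21120 bits -/
def mQ : ℕ := Nat.sub (Nat.pow 2 21120) 1

/-- the first `m` chunks of `cs` are the layers of the first lanes of `R` (`n` lanes in all) -/
def rowC (T : ℕ) (cs : List ℕ) : ℕ → ℕ → ℕ → Bool :=
  @List.rec ℕ (fun _ => ℕ → ℕ → ℕ → Bool) (fun _ n _ => Nat.beq n 0)
    (fun X _ ih m n R => @Bool.rec (fun _ => Bool)
      (@Bool.rec (fun _ => Bool)
        (force (Nat.land R mQ) fun E => chk T n E X)
        (@Bool.rec (fun _ => Bool) false
          (force (Nat.shiftRight R 21120) fun R' => ih (Nat.sub m 1) (Nat.sub n 64) R')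
          (force (Nat.land R mQ) fun E => chk T 64 E X))
        (Nat.ble 65 n))
      true (Nat.beq m 0)) cs

theorem rowC_cons (T X : ℕ) (cs : List ℕ) (m n R : ℕ) : rowC T (X :: cs) m n R =
    @Bool.rec (fun _ => Bool)
      (@Bool.rec (fun _ => Bool) (chk T n (R &&& mQ) X)
        (@Bool.rec (fun _ => Bool) false (rowC T cs (m - 1) (n - 64) (R >>> 21120))
          (chk T 64 (R &&& mQ) X))
        (Nat.ble 65 n))
      true (Nat.beq m 0) := by
  have e : rowC T (X :: cs) m n R = @Bool.rec (fun _ => Bool)
      (@Bool.rec (fun _ => Bool)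
        (force (Nat.land R mQ) fun E => chk T n E X)
        (@Bool.rec (fun _ => Bool) false
          (force (Nat.shiftRight R 21120) fun R' => rowC T cs (Nat.sub m 1) (Nat.sub n 64) R')
          (force (Nat.land R mQ) fun E => chk T 64 E X))
        (Nat.ble 65 n))
      true (Nat.beq m 0) := rfl
  rw [e, force_eq, force_eq, force_eq]
  rfl

theorem and_mQ (R : ℕ) : R &&& mQ = fld 21120 R 0 := by
  have e : mQ = 2 ^ 21120 - 1 := rfl
  rw [e, Nat.and_two_pow_sub_one_eq_mod]
  unfold fld
  rw [Nat.mul_zero, pow_zero, Nat.div_one]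

/-- the quads of a lane of the first chunk -/
theorem fld_first (R : ℕ) {i : ℕ} (hi : i < 64) : fld 330 (R &&& mQ) i = fld 330 R i := by
  rw [and_mQ]
  have h := fld_fld (W := 330) (K := 64) (X := R) (k := 0) (r := i) hi
  rw [show 330 * 64 = 21120 by norm_num, Nat.mul_zero, Nat.zero_add] at h
  exact h

theorem fld_shift' (R k i : ℕ) : fld 330 (R >>> (21120 * k)) i = fld 330 R (64 * k + i) := by
  refine Nat.eq_of_testBit_eq fun j => ?_
  rw [testBit_fld, testBit_fld, Nat.testBit_shiftRight]
  congr 2
  ring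

theorem fld_shift (R i : ℕ) : fld 330 (R >>> 21120) i = fld 330 R (64 + i) := by
  have h := fld_shift' R 1 i
  rwa [mul_one, mul_one] at h

/-- what a checked row gives for the lane `i` -/
def LaneOK (cs : List ℕ) (i : ℕ) (F : Finset (Finset (Fin 13))) : Prop :=
  ∃ k X j, cs[k]? = some X ∧ j < 64 ∧ 64 * k + j = i ∧ chkD 32768 X = true ∧
    fld 2048 (expandC X) j = cub 11 F

theorem rowC_sound {T : ℕ} (hT : T < 2 ^ 165) {D : Finset (Finset (Fin 13))}
    (hD : ∀ b ∈ D, Sub 12 4 b) (hc : D.card ≤ 60) (hl : link D 11 = fam 11 3 T) :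
    ∀ (cs : List ℕ) (m n R i : ℕ), rowC T cs m n R = true → i < n → i < 64 * m →
      D.filter (fun b => (11 : Fin 13) ∉ b) = fam 11 4 (fld 330 R i) →
      LaneOK cs i (Lay D) := by
  intro cs
  induction cs with
  | nil =>
    intro m n R i h hi _ _
    have h1 : Nat.beq n 0 = true := h
    have h2 := Nat.eq_of_beq_eq_true h1
    omega
  | cons X cs ih =>
    intro m n R i h hi hm hq
    rw [rowC_cons] at h
    have hm0 : Nat.beq m 0 = false := by
      rw [← Bool.not_eq_true]
      intro h1
      have := Nat.eq_of_beq_eq_true h1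
      omega
    rw [hm0] at h
    have hE : R &&& mQ < 2 ^ 21120 := by
      rw [and_mQ]
      exact fld_lt
    cases hb : Nat.ble 65 n with
    | false =>
      rw [hb] at h
      have hn : ¬ 65 ≤ n := fun h1 => by
        rw [Nat.ble_eq_true_of_le h1] at hb
        exact Bool.noConfusion hb
      have h1 : chk T n (R &&& mQ) X = true := h
      refine ⟨0, X, i, rfl, by omega, by omega, (chk_iff h1).1, ?_⟩
      refine chk_cub (by omega) hT hE h1 hi hD hc hl ?_
      rw [fld_first R (by omega)]
      exact hq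
    | true =>
      rw [hb] at h
      cases hk : chk T 64 (R &&& mQ) X with
      | false =>
        rw [hk] at h
        exact Bool.noConfusion h
      | true =>
        rw [hk] at h
        have h1 : rowC T cs (m - 1) (n - 64) (R >>> 21120) = true := h
        rcases Nat.lt_or_ge i 64 with h2 | h2
        · refine ⟨0, X, i, rfl, h2, by omega, (chk_iff hk).1, ?_⟩
          refine chk_cub le_rfl hT hE hk h2 hD hc hl ?_
          rw [fld_first R h2]
          exact hq
        · obtain ⟨k, Y, j, g1, g2, g3, g4, g5⟩ := ih (m - 1) (n - 64) (R >>> 21120) (i - 64) h1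
            (by omega) (by omega)
            (by rw [fld_shift, show 64 + (i - 64) = i by omega]; exact hq)
          refine ⟨k + 1, Y, j, g1, g2, by omega, g4, g5⟩

/-- drop the first `a` chunks -/
def dropC (a : ℕ) : List ℕ → List ℕ :=
  @Nat.rec (fun _ => List ℕ → List ℕ) (fun l => l)
    (fun _ ih l => ih (@List.rec ℕ (fun _ => List ℕ) [] (fun _ t _ => t) l)) a

theorem dropC_eq (a : ℕ) (l : List ℕ) : dropC a l = l.drop a := by
  induction a generalizing l with
  | zero => rfl
  | succ a ih =>
    have e : dropC (a + 1) l = dropC a (@List.rec ℕ (fun _ => List ℕ) [] (fun _ t _ => t) l) := rfl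
    rw [e, ih]
    cases l with
    | nil => simp
    | cons x l => rfl

theorem LaneOK.of_drop {cs : List ℕ} {a i : ℕ} {F : Finset (Finset (Fin 13))}
    (h : LaneOK (cs.drop a) i F) : LaneOK cs (64 * a + i) F := by
  obtain ⟨k, X, j, h1, h2, h3, h4, h5⟩ := h
  refine ⟨a + k, X, j, ?_, h2, by omega, h4, h5⟩
  rw [List.getElem?_drop] at h1
  exact h1

/-- dense form of a lane -/
theorem fld512_of_cub {X j : ℕ} {F : Finset (Finset (Fin 13))} (h4 : chkD 32768 X = true)
    (h2 : j < 64) (h5 : fld 2048 (expandC X) j = cub 11 F) : fld 512 X j = dcode F := by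
  obtain ⟨h6, h7⟩ := chkD_sound h4
  refine Nat.eq_of_testBit_eq fun r => ?_
  rw [testBit_fld]
  by_cases hr : r < 512
  · rw [decide_eq_true hr, Bool.true_and]
    rcases Nat.lt_or_ge r 508 with h8 | h8
    · have h9 : r < Pool.Agent.Helper52.TY.dms.length := by
        rw [Pool.Agent.Helper52.TY.length_dms]
        exact h8
      have h10 := Pool.Agent.Helper52.TY.dms_lt _ (List.getElem_mem h9)
      have key : ∀ m < 2048, (expandC X).testBit (2048 * j + m) = decide (ofMask m ∈ F) := by
        intro m hm
        have hm' : m < 2 ^ 11 := hm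
        have h12 := testBit_cub F hm'
        rw [← h5, testBit_fld, decide_eq_true hm, Bool.true_and] at h12
        exact h12
      have h11 := key _ h10
      rw [Pool.Agent.Helper52.TY.testBit_dcode F h9, ← h11, Bool.eq_iff_iff,
        Pool.Agent.Helper52.TY.testBit_expandC h6 h7 h10]
      constructor
      · intro h12
        exact ⟨h2, r, h9, rfl, h12⟩
      · rintro ⟨-, r', hr', h12, h13⟩
        have h14 : r' = r := by
          refine (List.Nodup.getElem_inj_iff ?_).1 h12
          exact List.Nodup.filter _ List.nodup_range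
        rw [← h14]
        exact h13
    · rw [h7 j h2 r h8 hr, Nat.testBit_eq_false_of_lt]
      exact lt_of_lt_of_le (Pool.Agent.Helper52.TY.dcode_lt F)
        (Nat.pow_le_pow_right (by norm_num) h8)
  · rw [decide_eq_false hr, Bool.false_and, Nat.testBit_eq_false_of_lt]
    exact lt_of_lt_of_le (Pool.Agent.Helper52.TY.dcode_lt F)
      (Nat.pow_le_pow_right (by norm_num) (by omega))

theorem LaneOK.den {cs : List ℕ} {i n : ℕ} {F : Finset (Finset (Fin 13))} (h : LaneOK cs i F)
    (hi : i < n) : DenN n cs F := by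
  obtain ⟨k, X, j, h1, h2, h3, h4, h5⟩ := h
  exact ⟨k, X, j, h1, h2, by omega, fld512_of_cub h4 h2 h5⟩

/-- cube form of a lane -/
theorem LaneOK.inN {cs : List ℕ} {i n : ℕ} {F : Finset (Finset (Fin 13))} (h : LaneOK cs i F)
    (hi : i < n) : InN 64 n (expL cs) F := by
  obtain ⟨k, X, j, h1, h2, h3, -, h5⟩ := h
  refine ⟨k, expandC X, j, ?_, h2, by omega, h5⟩
  rw [expL_eq, List.getElem?_map, h1]
  rfl

end Pool.Agent.Helper82.TY
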