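import Pool.Agent.Helper63.SIMD.Pack

/-!
MP_8ee768_co, project TH-Y': population count of numbers `< 2 ^ 2048` by four merges and one
`% 65535`.

`popc x` is the specification (number of one bits below 2048), `pop x` the fast function,
`popR` the same with raw operations for the kernel.
-/

set_option autoImplicit false

namespace Pool.Agent.Helper82.TY

open Finset Pool.Agent.Helper63.SIMD

/-- number of one bits below 2048 (specification) -/
def popc (x : ℕ) : ℕ := ((range 2048).filter fun i => x.testBit i = true).card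

/-- fast population count -/
def pop (x : ℕ) : ℕ :=
  (merge 8 128 (merge 4 256 (merge 2 512 (merge 1 1024 x)))) % 65535

theorem sum_double (a : ℕ → ℕ) (n : ℕ) :
    ∑ i ∈ range (2 * n), a i = ∑ i ∈ range n, (a (2 * i) + a (2 * i + 1)) := by
  induction n with
  | zero => rfl
  | succ n ih =>
    rw [Nat.mul_add, mul_one, show 2 * n + 2 = (2 * n + 1) + 1 from rfl, sum_range_succ,
      sum_range_succ, ih, sum_range_succ, add_assoc]

theorem fld_one (x i : ℕ) : fld 1 x i = if x.testBit i = true then 1 else 0 := by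
  unfold fld
  rw [one_mul, pow_one, Nat.testBit_eq_decide_div_mod_eq]
  simp only [decide_eq_true_eq]
  split_ifs with h
  · exact h
  · omega

theorem pk_mod (n : ℕ) (c : ℕ → ℕ) : pk 16 n c % 65535 = (∑ i ∈ range n, c i) % 65535 := by
  induction n generalizing c with
  | zero => rfl
  | succ n ih =>
    rw [pk_cons, sum_range_succ']
    have h := ih (fun i => c (i + 1))
    omega

theorem pop_eq {x : ℕ} (hx : x < 2 ^ 2048) : pop x = popc x := by
  have hb0 : ∀ i, fld 1 x i ≤ 1 := by
    intro i
    rw [fld_one]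
    split_ifs <;> omega
  have hx0 : pk 1 (2 * 1024) (fld 1 x) = x := pk_fld (by rw [one_mul]; exact hx)
  have h1 := merge_pk (w := 1) (n := 1024) (a := fld 1 x) (by norm_num)
    (fun i _ => by have := hb0 i; omega)
  rw [hx0] at h1
  set a1 : ℕ → ℕ := fun i => fld 1 x (2 * i) + fld 1 x (2 * i + 1) with ha1
  have hb1 : ∀ i, a1 i ≤ 2 := by
    intro i
    have h2 := hb0 (2 * i)
    have h3 := hb0 (2 * i + 1)
    simp only [ha1]
    omega
  have h2 := merge_pk (w := 2) (n := 512) (a := a1) (by norm_num)
    (fun i _ => by have := hb1 i; omega)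
  set a2 : ℕ → ℕ := fun i => a1 (2 * i) + a1 (2 * i + 1) with ha2
  have hb2 : ∀ i, a2 i ≤ 4 := by
    intro i
    have h2 := hb1 (2 * i)
    have h3 := hb1 (2 * i + 1)
    simp only [ha2]
    omega
  have h3 := merge_pk (w := 4) (n := 256) (a := a2) (by norm_num)
    (fun i _ => by have := hb2 i; omega)
  set a3 : ℕ → ℕ := fun i => a2 (2 * i) + a2 (2 * i + 1) with ha3
  have hb3 : ∀ i, a3 i ≤ 8 := by
    intro i
    have h2 := hb2 (2 * i)
    have h3 := hb2 (2 * i + 1)
    simp only [ha3]
    omega
  have h4 := merge_pk (w := 8) (n := 128) (a := a3) (by norm_num)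
    (fun i _ => by have := hb3 i; omega)
  set a4 : ℕ → ℕ := fun i => a3 (2 * i) + a3 (2 * i + 1) with ha4
  have hpop : pop x = pk 16 128 a4 % 65535 := by
    unfold pop
    rw [h1]
    norm_num only at h2 h3 h4 ⊢
    rw [h2, h3, h4]
  have hs : ∑ i ∈ range 128, a4 i = popc x := by
    have e1 : ∑ i ∈ range 128, a4 i = ∑ i ∈ range (2 * 128), a3 i := (sum_double a3 128).symm
    have e2 : ∑ i ∈ range (2 * 128), a3 i = ∑ i ∈ range (2 * 256), a2 i :=
      (sum_double a2 256).symm
    have e3 : ∑ i ∈ range (2 * 256), a2 i = ∑ i ∈ range (2 * 512), a1 i :=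
      (sum_double a1 512).symm
    have e4 : ∑ i ∈ range (2 * 512), a1 i = ∑ i ∈ range (2 * 1024), fld 1 x i :=
      (sum_double (fld 1 x) 1024).symm
    rw [e1, e2, e3, e4]
    unfold popc
    rw [card_filter]
    exact sum_congr rfl fun i _ => fld_one x i
  have hle : popc x ≤ 2048 := by
    unfold popc
    exact (card_filter_le _ _).trans (by rw [card_range])
  rw [hpop, pk_mod, hs, Nat.mod_eq_of_lt (by omega)]







end Pool.Agent.Helper82.TY
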